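import Pool.Agent.Lib.MP_682396_ag.DimOne

/-!
# Finiteness of the set of isomorphism classes in dimension one
-/

set_option autoImplicit false
set_option linter.unusedSectionVars false

open Module IsLocalRing
open scoped Pointwise nonZeroDivisors

universe u

namespace Pool.Agent.Lib.MP_682396_ag

/-- If among the terms of every sequence in `P` two are equivalent, then finitely many
elements represent all classes meeting `P`. -/
theorem exists_finite_repr {X : Type*} (s : Setoid X) (P : X → Prop)
    (h : ∀ p : ℕ → X, (∀ i, P (p i)) → ∃ i j, i ≠ j ∧ s.r (p i) (p j)) :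
    ∃ S : Set X, S.Finite ∧ ∀ q, P q → ∃ p ∈ S, s.r q p := by
  classical
  let A : Set (Quotient s) := Quotient.mk s '' {p | P p}
  have hA : A.Finite := by
    by_contra hinf
    let f := Set.Infinite.natEmbedding A hinf
    have h1 : ∀ i, ∃ p, P p ∧ Quotient.mk s p = (f i : Quotient s) := fun i => (f i).2
    choose p hp hpf using h1
    obtain ⟨i, j, hij, hr⟩ := h p hp
    apply hij
    apply f.injective
    apply Subtype.ext
    rw [← hpf i, ← hpf j]
    exact Quotient.sound hr
  refine ⟨Quotient.out '' A, hA.image _, fun q hq => ?_⟩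
  refine ⟨(Quotient.mk s q).out, ⟨_, ⟨q, hq, rfl⟩, rfl⟩, ?_⟩
  exact s.symm (Quotient.mk_out q)

/-- Splitting of self-extensions is invariant under isomorphism. -/
theorem split_of_equiv {R : Type u} [CommRing R] {M M' : Type u} [AddCommGroup M] [Module R M]
    [AddCommGroup M'] [Module R M'] (e : M ≃ₗ[R] M')
    (hrig : ∀ (E : Type u) [AddCommGroup E] [Module R E] (f : M →ₗ[R] E) (g : E →ₗ[R] M),
      Function.Injective f → Function.Surjective g →
      LinearMap.range f = LinearMap.ker g → ∃ s : M →ₗ[R] E, g ∘ₗ s = LinearMap.id) :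
    ∀ (E : Type u) [AddCommGroup E] [Module R E] (f : M' →ₗ[R] E) (g : E →ₗ[R] M'),
      Function.Injective f → Function.Surjective g →
      LinearMap.range f = LinearMap.ker g → ∃ s : M' →ₗ[R] E, g ∘ₗ s = LinearMap.id := by
  intro E _ _ f g hf hg hfg
  obtain ⟨s, hs⟩ := hrig E (f ∘ₗ e.toLinearMap) (e.symm.toLinearMap ∘ₗ g)
    (hf.comp e.injective) (e.symm.surjective.comp hg) (by
      rw [LinearMap.range_comp, LinearEquiv.range, Submodule.map_top, hfg]
      ext y
      simp)
  refine ⟨s ∘ₗ e.symm.toLinearMap, ?_⟩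
  ext m
  have h1 := LinearMap.congr_fun hs (e.symm m)
  simp only [LinearMap.comp_apply, LinearEquiv.coe_coe, LinearMap.id_apply] at h1 ⊢
  exact e.symm.injective h1

/-- In dimension one, a module of depth one is torsion-free. -/
theorem isTorsionFree_of_regular {R : Type u} [CommRing R] [IsDomain R] [IsNoetherianRing R]
    [IsLocalRing R] [Ring.KrullDimLE 1 R] {M : Type u} [AddCommGroup M] [Module R M] {r : R}
    (hr : r ∈ maximalIdeal R) (hreg : IsSMulRegular M r) : IsTorsionFree R M := by
  refine ⟨fun a ha => ?_⟩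
  have ha0 : a ≠ 0 := ha.ne_zero
  have h1 : r ∈ (Ideal.span {a}).radical := by
    rw [Ideal.radical_eq_sInf, Submodule.mem_sInf]
    rintro P ⟨hP, hPp⟩
    have hP0 : P ≠ ⊥ := by
      rintro rfl
      exact ha0 ((Ideal.span_singleton_le_iff_mem _).mp hP)
    have hPm := Ring.krullDimLE_one_iff_of_noZeroDivisors.mp ‹_› P hP0 hPp
    rw [IsLocalRing.eq_maximalIdeal hPm]
    exact hr
  obtain ⟨k, hk⟩ := h1
  obtain ⟨b, hb⟩ := Ideal.mem_span_singleton'.mp hk
  have h2 : IsSMulRegular M (b * a) := by
    rw [hb]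
    exact hreg.pow k
  exact h2.of_mul

/-- Existence of a parameter with equicharacteristic quotient. -/
theorem exists_parameter {R : Type u} [CommRing R] [IsDomain R] [IsLocalRing R]
    (hf : ¬ IsField R) :
    ∃ x : R, x ≠ 0 ∧ x ∈ maximalIdeal R ∧
      ((∃ p : ℕ, p.Prime ∧ (p : R ⧸ Ideal.span {x}) = 0) ∨
        ∀ n : ℕ, n ≠ 0 → IsUnit (n : R ⧸ Ideal.span {x})) := by
  obtain ⟨y, hy, hy0⟩ := Submodule.exists_mem_ne_zero_of_ne_bot
    ((IsLocalRing.isField_iff_maximalIdeal_eq.not).mp hf)
  by_cases h : ∃ p : ℕ, p.Prime ∧ (p : R) ∈ maximalIdeal R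
  · obtain ⟨p, hp, hpm⟩ := h
    by_cases hp0 : (p : R) = 0
    · refine ⟨y, hy0, hy, Or.inl ⟨p, hp, ?_⟩⟩
      rw [← map_natCast (Ideal.Quotient.mk (Ideal.span {y})), hp0, map_zero]
    · refine ⟨p, hp0, hpm, Or.inl ⟨p, hp, ?_⟩⟩
      rw [← map_natCast (Ideal.Quotient.mk (Ideal.span {(p : R)})),
        Ideal.Quotient.eq_zero_iff_mem]
      exact Ideal.mem_span_singleton_self _
  · refine ⟨y, hy0, hy, Or.inr fun n hn => ?_⟩
    have h1 : IsUnit (n : R) := by
      by_contra hnu
      have hnm : (n : R) ∈ maximalIdeal R := (mem_maximalIdeal _).mpr hnu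
      clear hnu
      induction n using Nat.recOnMul with
      | zero => exact hn rfl
      | one =>
        rw [Nat.cast_one] at hnm
        exact (Ideal.ne_top_iff_one _).mp (maximalIdeal.isMaximal R).ne_top hnm
      | prime p hp => exact h ⟨p, hp, hnm⟩
      | mul a b iha ihb =>
        rw [Nat.cast_mul] at hnm
        rcases (maximalIdeal.isMaximal R).isPrime.mem_or_mem hnm with h2 | h2
        · exact iha (left_ne_zero_of_mul hn) h2
        · exact ihb (right_ne_zero_of_mul hn) h2
    have h3 := h1.map (Ideal.Quotient.mk (Ideal.span {y}))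
    rwa [map_natCast] at h3

end Pool.Agent.Lib.MP_682396_ag
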