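import Mathlib

/-!
# Coefficient fields of local rings with nilpotent maximal ideal, in equal characteristic

This is the special case of Cohen's theorem that is needed for Artinian local rings:
if `B` is a local ring with nilpotent maximal ideal `m` and either a prime `p` vanishes in `B`
or all positive integers are units of `B`, then there are a field `F` and an `F`-algebra structure
on `B` such that `F → B / m` is surjective (hence bijective).
-/

set_option autoImplicit false
set_option linter.unusedSectionVars false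

open Polynomial IsLocalRing

namespace Pool.Agent.Lib.MP_682396_ag

section CharP

variable {B : Type*} [CommRing B] [IsLocalRing B] (p : ℕ) [hp : Fact p.Prime] [CharP B p]

/-- The property used in the descending induction. -/
def Good (s i : ℕ) : Prop :=
  ∃ C : Subring B, (∀ b : B, b ^ p ^ s ∈ C) ∧ (∀ x ∈ C, ∃ b : B, x = b ^ p ^ i) ∧
    (∀ x ∈ C, x ∈ maximalIdeal B → x = 0) ∧ ∀ b : B, ∃ c ∈ C, b ^ p ^ i - c ∈ maximalIdeal B

lemma good_top {s : ℕ} (hs : ∀ x ∈ maximalIdeal B, x ^ p ^ s = 0) : Good (B := B) p s s := by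
  refine ⟨(iterateFrobenius B p s).range, fun b => ⟨b, iterateFrobenius_def ..⟩, ?_, ?_, ?_⟩
  · rintro x ⟨b, rfl⟩
    exact ⟨b, iterateFrobenius_def ..⟩
  · rintro x ⟨b, rfl⟩ hx
    rw [iterateFrobenius_def] at hx ⊢
    exact hs b ((maximalIdeal.isMaximal B).isPrime.mem_of_pow_mem _ hx)
  · intro b
    exact ⟨b ^ p ^ s, ⟨b, iterateFrobenius_def ..⟩, by simp⟩

/-- A subring whose nonzero elements are units of `B` and which contains all `p^s`-th powers
is closed under inverses. -/
lemma inv_mem {s : ℕ} {C : Subring B} (hC : ∀ b : B, b ^ p ^ s ∈ C)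
    {x y : B} (hx : x ∈ C) (hxy : x * y = 1) : y ∈ C := by
  have h1 : y ^ p ^ s ∈ C := hC y
  have hpos : 0 < p ^ s := pow_pos hp.out.pos s
  obtain ⟨q, hq⟩ : ∃ q, p ^ s = q + 1 := ⟨p ^ s - 1, by omega⟩
  have h2 : y = x ^ q * y ^ p ^ s := by
    rw [hq, pow_succ, ← mul_assoc, ← mul_pow, hxy, one_pow, one_mul]
  rw [h2]
  exact mul_mem (pow_mem hx q) h1

lemma good_descend {s i : ℕ} (h : Good (B := B) p s (i + 1)) :
    Good (B := B) p s i := by
  classical
  obtain ⟨C₁, hC₁s, hC₁p, hC₁m, hC₁b⟩ := h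
  -- Zorn
  let 𝒮 : Set (Subring B) := {C | C₁ ≤ C ∧ (∀ x ∈ C, ∃ b : B, x = b ^ p ^ i) ∧
    (∀ x ∈ C, x ∈ maximalIdeal B → x = 0)}
  have h𝒮 : C₁ ∈ 𝒮 := by
    refine ⟨le_rfl, fun x hx => ?_, hC₁m⟩
    obtain ⟨b, rfl⟩ := hC₁p x hx
    exact ⟨b ^ p, by rw [← pow_mul, pow_succ, mul_comm]⟩
  obtain ⟨C, hC₁C, hCmax⟩ := zorn_le_nonempty₀ 𝒮 (by
    intro c hc hchain y hy
    refine ⟨sSup c, ⟨?_, ?_, ?_⟩, fun z hz => le_sSup hz⟩
    · exact (hc hy).1.trans (le_sSup hy)
    · intro x hx
      rw [Subring.mem_sSup_of_directedOn ⟨y, hy⟩ hchain.directedOn] at hx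
      obtain ⟨z, hz, hxz⟩ := hx
      exact (hc hz).2.1 x hxz
    · intro x hx
      rw [Subring.mem_sSup_of_directedOn ⟨y, hy⟩ hchain.directedOn] at hx
      obtain ⟨z, hz, hxz⟩ := hx
      exact (hc hz).2.2 x hxz) C₁ h𝒮
  obtain ⟨-, hCp, hCm⟩ := hCmax.prop
  have hCs : ∀ b : B, b ^ p ^ s ∈ C := fun b => hC₁C (hC₁s b)
  refine ⟨C, hCs, hCp, hCm, ?_⟩
  by_contra hcon
  push Not at hcon
  obtain ⟨b, hb⟩ := hcon
  -- the new element
  obtain ⟨f, hf, hbf⟩ := hC₁b b
  obtain ⟨g, rfl⟩ := hC₁p f hf
  set τ := g ^ p ^ i with hτ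
  have hτp : τ ^ p = g ^ p ^ (i + 1) := by rw [hτ, ← pow_mul, ← pow_succ]
  have hτC : τ ^ p ∈ C := by rw [hτp]; exact hC₁C hf
  have hbτ : b ^ p ^ i - τ ∈ maximalIdeal B := by
    apply (maximalIdeal.isMaximal B).isPrime.mem_of_pow_mem p
    rw [sub_pow_char, hτp, ← pow_mul, ← pow_succ]
    exact hbf
  have hτnot : ∀ c ∈ C, τ - c ∉ maximalIdeal B := by
    intro c hc hcon
    apply hb c hc
    have := add_mem hbτ hcon
    simpa using this
  -- the residue field and the image of `C`
  let k := ResidueField B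
  let π : B →+* k := residue B
  have hπ : ∀ x : B, π x = 0 ↔ x ∈ maximalIdeal B := fun x => residue_eq_zero_iff x
  let L : Subfield k :=
    { (C.map π) with
      inv_mem' := by
        rintro x hx
        obtain ⟨c, hc, rfl⟩ := hx
        by_cases h0 : π c = 0
        · rw [h0, inv_zero]; exact (C.map π).zero_mem
        · have hu : IsUnit c := by
            by_contra hnu
            exact h0 ((hπ c).mpr ((mem_maximalIdeal c).mpr hnu))
          obtain ⟨d, hd⟩ := hu.exists_right_inv
          refine ⟨d, inv_mem p hCs hc hd, ?_⟩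
          have : π c * π d = 1 := by rw [← map_mul, hd, map_one]
          exact (inv_eq_of_mul_eq_one_right this).symm }
  have hL : ∀ x, x ∈ L ↔ ∃ c ∈ C, π c = x := fun x => Iff.rfl
  have hchark : CharP k p := by
    refine (CharP.charP_iff_prime_eq_zero hp.out).mpr ?_
    have : ((p : B)) = 0 := CharP.cast_eq_zero B p
    rw [← map_natCast π, this, map_zero]
  have hτL : π τ ∉ L := by
    rw [hL]
    rintro ⟨c, hc, hcτ⟩
    apply hτnot c hc
    rw [← hπ, map_sub, hcτ, sub_self]
  -- irreducibility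
  let a : L := ⟨π (τ ^ p), (hL _).mpr ⟨_, hτC, rfl⟩⟩
  have hirr : Irreducible (X ^ p - Polynomial.C a : L[X]) := by
    apply X_pow_sub_C_irreducible_of_prime hp.out
    intro y hy
    apply hτL
    have h1 : (y : k) ^ p = (π τ) ^ p := by
      have := congrArg (Subtype.val) hy
      simpa [a] using this
    have h2 : (y : k) = π τ := frobenius_inj k p (by simpa [frobenius_def] using h1)
    rw [← h2]; exact y.2
  have hroot : aeval (π τ) (X ^ p - Polynomial.C a : L[X]) = 0 := by
    simp only [map_sub, map_pow, aeval_X, aeval_C]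
    rw [sub_eq_zero]
    exact (map_pow π τ p).symm
  have hmonic : (X ^ p - Polynomial.C a : L[X]).Monic := monic_X_pow_sub_C a hp.out.ne_zero
  have hmin : minpoly L (π τ) = X ^ p - Polynomial.C a :=
    (minpoly.eq_of_irreducible_of_monic hirr hroot hmonic).symm
  have hdeg : ∀ P : L[X], P ≠ 0 → aeval (π τ) P = 0 → p ≤ P.natDegree := by
    intro P hP hP0
    have h1 := minpoly.degree_le_of_ne_zero L (π τ) hP hP0
    rw [hmin] at h1
    have h2 := natDegree_le_natDegree h1
    rwa [natDegree_X_pow_sub_C] at h2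
  -- the bigger ring
  let C' : Subring B := (Polynomial.eval₂RingHom C.subtype τ).range
  have hCC' : C ≤ C' := by
    intro c hc
    exact ⟨Polynomial.C ⟨c, hc⟩, by simp⟩
  have hτC' : τ ∈ C' := ⟨X, by simp⟩
  have hC'𝒮 : C' ∈ 𝒮 := by
    refine ⟨hC₁C.trans hCC', ?_, ?_⟩
    · -- all elements are `p^i`-th powers
      rintro x ⟨P, rfl⟩
      have h1 : ∀ y ∈ C, y ∈ (iterateFrobenius B p i).range := by
        intro y hy
        obtain ⟨b, rfl⟩ := hCp y hy
        exact ⟨b, iterateFrobenius_def ..⟩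
      have h2 : τ ∈ (iterateFrobenius B p i).range := ⟨g, iterateFrobenius_def ..⟩
      have h3 : eval₂RingHom C.subtype τ P ∈ (iterateFrobenius B p i).range := by
        rw [coe_eval₂RingHom, eval₂_eq_sum]
        unfold Polynomial.sum
        refine sum_mem fun n _ => mul_mem (h1 _ (P.coeff n).2) (pow_mem h2 n)
      obtain ⟨b, hb⟩ := h3
      exact ⟨b, by rw [← hb, iterateFrobenius_def]⟩
    · rintro x ⟨P, rfl⟩ hx
      let T : C[X] := X ^ p - Polynomial.C ⟨τ ^ p, hτC⟩
      have hT : T.Monic := monic_X_pow_sub_C _ hp.out.ne_zero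
      have hTτ : eval₂ C.subtype τ T = 0 := by simp [T]
      have h1 : eval₂ C.subtype τ P = eval₂ C.subtype τ (P %ₘ T) := by
        conv_lhs => rw [← modByMonic_add_div P T]
        rw [eval₂_add, eval₂_mul, hTτ, zero_mul, add_zero]
      rw [coe_eval₂RingHom] at hx ⊢
      rw [h1] at hx ⊢
      set Q := P %ₘ T with hQ
      have hQdeg : Q = 0 ∨ Q.natDegree < p := by
        by_cases h0 : Q = 0
        · exact Or.inl h0
        · right
          have h2 := degree_modByMonic_lt P hT
          have h3 := natDegree_lt_natDegree h0 h2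
          rwa [natDegree_X_pow_sub_C] at h3
      rcases hQdeg with h0 | hQdeg
      · rw [h0]; simp
      -- reduce to `L[X]`
      let πC : C →+* L :=
        { toFun := fun c => ⟨π c, (hL _).mpr ⟨c, c.2, rfl⟩⟩
          map_one' := by ext; simp
          map_mul' := fun x y => by ext; simp
          map_zero' := by ext; simp
          map_add' := fun x y => by ext; simp }
      have h4 : aeval (π τ) (Q.map πC) = 0 := by
        rw [aeval_def, eval₂_map]
        have h5 : (algebraMap L k).comp πC = π.comp C.subtype := by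
          ext c; rfl
        rw [h5, ← hom_eval₂, hπ]
        exact hx
      have h6 : Q.map πC = 0 := by
        by_contra hne
        have := hdeg _ hne h4
        have h7 := natDegree_map_le (f := πC) (p := Q)
        omega
      have h8 : Q = 0 := by
        ext n
        have h9 : (Q.map πC).coeff n = 0 := by rw [h6]; simp
        rw [coeff_map] at h9
        have h10 : π (Q.coeff n : B) = 0 := congrArg Subtype.val h9
        have h11 := hCm _ (Q.coeff n).2 ((hπ _).mp h10)
        simpa using h11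
      rw [h8]; simp
  have hle := hCmax.le_of_ge hC'𝒮 hCC'
  have hmem : τ ∈ C := hle hτC'
  exact hτnot τ hmem (by simp)

lemma good_zero {s : ℕ} (hs : ∀ x ∈ maximalIdeal B, x ^ p ^ s = 0) : Good (B := B) p s 0 := by
  have : ∀ j ≤ s, Good (B := B) p s (s - j) := by
    intro j
    induction j with
    | zero => intro _; simpa using good_top p hs
    | succ j ih =>
      intro hj
      have h1 := ih (by omega)
      have h2 : s - j = (s - (j + 1)) + 1 := by omega
      rw [h2] at h1
      exact good_descend p h1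
  simpa using this s le_rfl

end CharP

/-- Existence of a coefficient field, positive characteristic. -/
theorem exists_coeffField_charP {B : Type*} [CommRing B] [IsLocalRing B]
    (hnil : IsNilpotent (maximalIdeal B)) {p : ℕ} (hp : p.Prime) (hpB : (p : B) = 0) :
    ∃ C : Subring B, IsField C ∧ ∀ b : B, ∃ c ∈ C, b - c ∈ maximalIdeal B := by
  have : Fact p.Prime := ⟨hp⟩
  have : CharP B p := (CharP.charP_iff_prime_eq_zero hp).mpr hpB
  obtain ⟨n, hn⟩ := hnil
  obtain ⟨s, hs⟩ : ∃ s, n ≤ p ^ s := ⟨n, (Nat.lt_pow_self hp.one_lt).le⟩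
  have hs' : ∀ x ∈ maximalIdeal B, x ^ p ^ s = 0 := by
    intro x hx
    have h1 : x ^ n ∈ maximalIdeal B ^ n := Ideal.pow_mem_pow hx n
    rw [hn] at h1
    have h2 : x ^ n = 0 := by simpa using h1
    exact pow_eq_zero_of_le hs h2
  obtain ⟨C, hCs, -, hCm, hCb⟩ := good_zero p hs'
  refine ⟨C, ⟨⟨0, 1, ?_⟩, fun x y => mul_comm x y, ?_⟩, fun b => ?_⟩
  · intro h
    have : (0 : B) = 1 := congrArg Subtype.val h
    exact zero_ne_one this
  · intro a ha
    have ha' : (a : B) ≠ 0 := fun h => ha (Subtype.ext h)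
    have hu : IsUnit (a : B) := by
      by_contra hnu
      exact ha' (hCm a a.2 ((mem_maximalIdeal _).mpr hnu))
    obtain ⟨d, hd⟩ := hu.exists_right_inv
    exact ⟨⟨d, inv_mem p hCs a.2 hd⟩, Subtype.ext hd⟩
  · obtain ⟨c, hc, h⟩ := hCb b
    exact ⟨c, hc, by simpa using h⟩

/-- Existence of a coefficient field, residue characteristic zero. -/
theorem exists_coeffField_charZero {B : Type*} [CommRing B] [IsLocalRing B]
    (hnil : IsNilpotent (maximalIdeal B)) (hB : ∀ n : ℕ, n ≠ 0 → IsUnit (n : B)) :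
    ∃ σ : ResidueField B →+* B, ∀ x, residue B (σ x) = x := by
  have : CharZero B := by
    refine ⟨fun a b hab => ?_⟩
    by_contra hne
    rcases lt_or_gt_of_ne hne with h | h
    · have h1 := hB (b - a) (by omega)
      rw [Nat.cast_sub h.le, hab, sub_self] at h1
      exact not_isUnit_zero h1
    · have h1 := hB (a - b) (by omega)
      rw [Nat.cast_sub h.le, hab, sub_self] at h1
      exact not_isUnit_zero h1
  -- `ℚ`-algebra structure
  have hu : ∀ y : Submonoid.powers (1 : ℤ), True := fun _ => trivial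
  let φ : ℚ →+* B := IsLocalization.lift (M := nonZeroDivisors ℤ) (g := Int.castRingHom B) (by
    rintro ⟨z, hz⟩
    have hz0 : z ≠ 0 := nonZeroDivisors.ne_zero hz
    have h1 : IsUnit ((z.natAbs : ℕ) : B) := hB _ (Int.natAbs_ne_zero.mpr hz0)
    change IsUnit ((z : ℤ) : B)
    rcases Int.natAbs_eq z with h | h
    · have h2 : ((z : ℤ) : B) = ((z.natAbs : ℕ) : B) := by
        conv_lhs => rw [h]
        simp
      rw [h2]; exact h1
    · have h2 : ((z : ℤ) : B) = -((z.natAbs : ℕ) : B) := by
        conv_lhs => rw [h]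
        simp
      rw [h2]; exact h1.neg)
  let _ : Algebra ℚ B := φ.toAlgebra
  let k := ResidueField B
  have : CharZero k := charZero_of_injective_algebraMap (algebraMap ℚ k).injective
  have : Algebra.FormallySmooth ℚ k := by
    obtain ⟨s, hs⟩ := exists_isTranscendenceBasis ℚ k
    have := hs.isAlgebraic_field
    have : Algebra.IsSeparable (IntermediateField.adjoin ℚ (Set.range ((↑) : s → k))) k :=
      inferInstance
    exact Algebra.FormallySmooth.of_algebraicIndependent_of_isSeparable hs.1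
  let g : k →+* B ⧸ maximalIdeal B := RingHom.id (B ⧸ maximalIdeal B)
  obtain ⟨f, hf⟩ := Algebra.FormallySmooth.exists_lift (R := ℚ) (A := k) (maximalIdeal B) hnil
    g.toRatAlgHom
  exact ⟨f.toRingHom, fun x => AlgHom.congr_fun hf x⟩

/-- Cohen's theorem for local rings with nilpotent maximal ideal in equal characteristic. -/
theorem exists_coeffField {B : Type*} [CommRing B] [IsLocalRing B]
    (hnil : IsNilpotent (maximalIdeal B))
    (hB : (∃ p : ℕ, p.Prime ∧ (p : B) = 0) ∨ ∀ n : ℕ, n ≠ 0 → IsUnit (n : B)) :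
    ∃ C : Subring B, IsField C ∧ ∀ b : B, ∃ c ∈ C, b - c ∈ maximalIdeal B := by
  rcases hB with ⟨p, hp, hpB⟩ | hB
  · exact exists_coeffField_charP hnil hp hpB
  · obtain ⟨σ, hσ⟩ := exists_coeffField_charZero hnil hB
    refine ⟨σ.range, ?_, fun b => ⟨σ (residue B b), ⟨_, rfl⟩, ?_⟩⟩
    · exact MulEquiv.isField (Field.toIsField (ResidueField B))
        (RingEquiv.ofBijective σ.rangeRestrict ⟨fun x y h => σ.injective (congrArg Subtype.val h),
          σ.rangeRestrict_surjective⟩).symm.toMulEquiv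
    · rw [← residue_eq_zero_iff, map_sub, hσ, sub_self]

end Pool.Agent.Lib.MP_682396_ag
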