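import Mathlib

/-!
# Systems of parameters adapted to a prime
-/

set_option autoImplicit false
set_option linter.unusedSectionVars false

open Module IsLocalRing
open scoped Pointwise

universe u v

namespace Pool.Agent.Lib.MP_682396_ag

variable {R : Type*} [CommRing R] [IsNoetherianRing R]

/-- All minimal primes of the ideal generated by the list have height at least the length. -/
def GoodSeq (ys : List R) : Prop :=
  ∀ P ∈ (Ideal.ofList ys).minimalPrimes, (ys.length : ℕ∞) ≤ P.height

theorem goodSeq_nil : GoodSeq ([] : List R) := fun P _ => by simp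

theorem height_le_length {ys : List R} {P : Ideal R} (hP : P ∈ (Ideal.ofList ys).minimalPrimes) :
    P.height ≤ (ys.length : ℕ∞) := by
  classical
  have h1 : Ideal.ofList ys = Ideal.span (ys.toFinset : Set R) := by
    rw [Ideal.ofList]
    congr 1
    ext t
    simp
  rw [h1] at hP
  refine (Ideal.height_le_card_of_mem_minimalPrimes_span_finset hP).trans ?_
  exact_mod_cast List.toFinset_card_le ys

theorem goodSeq_next {ys : List R} (hys : GoodSeq ys) (q : Ideal R) [q.IsPrime]
    (hq : (ys.length : ℕ∞) < q.height) (N : Ideal R) (hN : ¬ q ≤ N) :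
    ∃ y ∈ q, y ∉ N ∧ GoodSeq (y :: ys) := by
  classical
  have hfin : (Ideal.ofList ys).minimalPrimes.Finite :=
    Ideal.finite_minimalPrimes_of_isNoetherianRing R _
  let s : Finset (Ideal R) := insert N hfin.toFinset
  have h1 : ¬ ((q : Set R) ⊆ ⋃ i ∈ (s : Set (Ideal R)), (i : Set R)) := by
    rw [Ideal.subset_union_prime (f := fun i : Ideal R => i) N N]
    · rintro ⟨i, hi, hqi⟩
      rcases Finset.mem_insert.mp hi with rfl | hi
      · exact hN hqi
      · have hi' : i ∈ (Ideal.ofList ys).minimalPrimes := hfin.mem_toFinset.mp hi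
        have h2 := (Ideal.height_mono hqi).trans (height_le_length hi')
        exact absurd h2 (not_le.mpr hq)
    · intro i hi hiN _
      rcases Finset.mem_insert.mp hi with rfl | hi
      · exact absurd rfl hiN
      · exact (hfin.mem_toFinset.mp hi).1.1
  rw [Set.not_subset] at h1
  obtain ⟨y, hyq, hy⟩ := h1
  simp only [Set.mem_iUnion, not_exists] at hy
  refine ⟨y, hyq, fun h => hy N (by simp [s]) h, ?_⟩
  intro P hP
  have hPp : P.IsPrime := hP.1.1
  have hPle := hP.1.2
  rw [Ideal.ofList_cons] at hPle
  obtain ⟨P', hP', hP'P⟩ := Ideal.exists_minimalPrimes_le (le_sup_right.trans hPle)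
  have hyP : y ∈ P := hPle (Ideal.mem_sup_left (Ideal.mem_span_singleton_self y))
  have hyP' : y ∉ P' := fun h => hy P' (by simp [s, hP']) h
  have hP'p : P'.IsPrime := hP'.1.1
  have hlt : P' < P := lt_of_le_of_ne hP'P (by rintro rfl; exact hyP' hyP)
  have h3 := Ideal.height_add_one_le_of_lt_of_isPrime hlt
  refine le_trans ?_ h3
  rw [List.length_cons]
  push_cast
  exact add_le_add_left (hys P' hP') 1

variable [IsLocalRing R]

theorem goodSeq_extend {ys : List R} (hys : GoodSeq ys) (hmem : ∀ y ∈ ys, y ∈ maximalIdeal R) (k : ℕ)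
    (hk : ((ys.length + k : ℕ) : ℕ∞) ≤ (maximalIdeal R).height) :
    ∃ zs : List R, zs.length = k ∧ (∀ z ∈ zs, z ∈ maximalIdeal R) ∧ GoodSeq (zs ++ ys) := by
  induction k with
  | zero => exact ⟨[], rfl, by simp, hys⟩
  | succ k ih =>
    obtain ⟨zs, hlen, hzs, hgood⟩ := ih (le_trans (by
      exact_mod_cast Nat.le_succ (ys.length + k)) hk)
    have hlt : ((zs ++ ys).length : ℕ∞) < (maximalIdeal R).height := by
      rw [List.length_append, hlen]
      refine lt_of_lt_of_le ?_ hk
      exact_mod_cast (by omega : k + ys.length < ys.length + (k + 1))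
    have hle : Ideal.ofList (zs ++ ys) ≤ maximalIdeal R := by
      rw [Ideal.ofList, Ideal.span_le]
      intro t ht
      rcases List.mem_append.mp ht with h | h
      · exact hzs t h
      · exact hmem t h
    obtain ⟨P₀, hP₀, -⟩ := Ideal.exists_minimalPrimes_le hle
    obtain ⟨z, hz, -, hg⟩ := goodSeq_next hgood (maximalIdeal R) hlt P₀ (by
      intro h
      have h2 := (Ideal.height_mono h).trans (height_le_length hP₀)
      exact absurd h2 (not_le.mpr hlt))
    refine ⟨z :: zs, by simp [hlen], ?_, hg⟩
    intro z' hz'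
    rcases List.mem_cons.mp hz' with rfl | h
    · exact hz
    · exact hzs z' h

/-- GoodSeq lists of length the dimension generate an ideal of definition. -/
theorem le_radical_of_good {ys : List R} (hys : GoodSeq ys)
    (hlen : (maximalIdeal R).height = (ys.length : ℕ∞)) :
    maximalIdeal R ≤ (Ideal.ofList ys).radical := by
  rw [Ideal.radical_eq_sInf]
  refine le_sInf ?_
  rintro P ⟨hP, hPp⟩
  obtain ⟨P', hP', hP'P⟩ := Ideal.exists_minimalPrimes_le hP
  have hP'p : P'.IsPrime := hP'.1.1
  refine le_trans ?_ hP'P
  have h1 := hys P' hP'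
  have h2 : P' ≤ maximalIdeal R := IsLocalRing.le_maximalIdeal hP'p.ne_top
  by_contra h3
  have h4 : P' < maximalIdeal R := lt_of_le_of_ne h2 (by rintro rfl; exact h3 le_rfl)
  have h5 := Ideal.height_add_one_le_of_lt_of_isPrime h4
  rw [hlen] at h5
  have h6 : (ys.length : ℕ∞) + 1 ≤ ys.length := le_trans (add_le_add_left h1 1) h5
  have h7 : ys.length + 1 ≤ ys.length := by exact_mod_cast h6
  omega

/-- Regular primes: generators of the localized maximal ideal can be chosen to be part of a
system of parameters. -/
theorem exists_good_aux (p : Ideal R) [p.IsPrime] (h : ℕ) (hh : p.height = h)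
    (zs : List (Localization.AtPrime p))
    (hzs : ∀ z ∈ zs, z ∈ maximalIdeal (Localization.AtPrime p)) :
    ∀ ys : List R, GoodSeq ys → (∀ y ∈ ys, y ∈ p) →
      ys.length + zs.length ≤ h →
      maximalIdeal (Localization.AtPrime p) ≤
        Ideal.ofList (ys.map (algebraMap R (Localization.AtPrime p))) ⊔ Ideal.ofList zs →
      ∃ ys' : List R, GoodSeq ys' ∧ (∀ y ∈ ys', y ∈ p) ∧ ys'.length ≤ h ∧
        maximalIdeal (Localization.AtPrime p) ≤
          Ideal.ofList (ys'.map (algebraMap R (Localization.AtPrime p))) := by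
  induction zs with
  | nil =>
    intro ys hys hmem hlen hle
    rw [Ideal.ofList_nil, sup_bot_eq] at hle
    exact ⟨ys, hys, hmem, by simpa using hlen, hle⟩
  | cons z zs ih =>
    intro ys hys hmem hlen hle
    replace ih := ih fun t ht => hzs t (List.mem_cons_of_mem z ht)
    rw [List.length_cons] at hlen
    let S := Localization.AtPrime p
    let B : Ideal S := Ideal.ofList (ys.map (algebraMap R S)) ⊔ Ideal.ofList zs
    let N : Ideal R := (B ⊔ maximalIdeal S ^ 2).comap (algebraMap R S)
    by_cases hN : p ≤ N
    · apply ih ys hys hmem (by omega)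
      have h1 : maximalIdeal S ≤ B ⊔ maximalIdeal S • maximalIdeal S := by
        rw [smul_eq_mul, ← pow_two]
        conv_lhs => rw [← Localization.AtPrime.map_eq_maximalIdeal]
        exact Ideal.map_le_iff_le_comap.mpr hN
      exact Submodule.le_of_le_smul_of_le_jacobson_bot (IsNoetherian.noetherian _)
        (IsLocalRing.maximalIdeal_le_jacobson _) h1
    · obtain ⟨y, hyp, hyN, hg⟩ := goodSeq_next hys p (by
        rw [hh]
        exact_mod_cast (by omega : ys.length < h)) N hN
      refine ih (y :: ys) hg ?_ (by rw [List.length_cons]; omega) ?_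
      · intro t ht
        rcases List.mem_cons.mp ht with rfl | ht
        · exact hyp
        · exact hmem t ht
      · -- express `z` through the new element
        have hyS : algebraMap R S y ∈ maximalIdeal S := by
          rw [← Localization.AtPrime.map_eq_maximalIdeal]
          exact Ideal.mem_map_of_mem _ hyp
        have h1 := hle hyS
        rw [Ideal.ofList_cons, ← sup_assoc, sup_comm _ (Ideal.span {z}), sup_assoc,
          Submodule.mem_sup] at h1
        obtain ⟨u, hu, w, hw, huw⟩ := h1
        obtain ⟨c, rfl⟩ := Ideal.mem_span_singleton'.mp hu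
        have hcu : IsUnit c := by
          by_contra hc
          apply hyN
          rw [Ideal.mem_comap, ← huw, add_comm]
          refine Submodule.add_mem_sup hw ?_
          rw [pow_two]
          exact Ideal.mul_mem_mul ((mem_maximalIdeal c).mpr hc) (hzs z List.mem_cons_self)
        obtain ⟨c', hc'⟩ := hcu.exists_left_inv
        have hz : z ∈ Ideal.ofList ((y :: ys).map (algebraMap R S)) ⊔ Ideal.ofList zs := by
          have h2 : z = c' * algebraMap R S y - c' * w := by
            rw [← huw, mul_add, ← mul_assoc, hc', one_mul, add_sub_cancel_right]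
          rw [List.map_cons, Ideal.ofList_cons, sup_assoc, h2]
          refine Submodule.sub_mem _ ?_ ?_
          · exact Ideal.mul_mem_left _ _ (Ideal.mem_sup_left (Ideal.mem_span_singleton_self _))
          · exact Ideal.mul_mem_left _ _ (Ideal.mem_sup_right hw)
        refine hle.trans ?_
        rw [Ideal.ofList_cons]
        refine sup_le ?_ (sup_le ((Ideal.span_singleton_le_iff_mem _).mpr hz) le_sup_right)
        refine le_trans ?_ le_sup_left
        rw [List.map_cons, Ideal.ofList_cons]
        exact le_sup_right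

/-- At a regular prime there is a system of parameters some members of which lie in the prime and
generate its localization. -/
theorem exists_sop (p : Ideal R) [p.IsPrime] [IsRegularLocalRing (Localization.AtPrime p)]
    {d : ℕ} (hd : (maximalIdeal R).height = d) :
    ∃ y : Fin d → R, (∀ l, y l ∈ maximalIdeal R) ∧
      maximalIdeal R ≤ (Ideal.span (Set.range y)).radical ∧
      maximalIdeal (Localization.AtPrime p) ≤
        Ideal.span {t | ∃ l, y l ∈ p ∧ algebraMap R (Localization.AtPrime p) (y l) = t} := by
  have hdim : (((maximalIdeal (Localization.AtPrime p)).spanFinrank : ℕ∞) : WithBot ℕ∞) =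
      ringKrullDim (Localization.AtPrime p) := IsRegularLocalRing.spanFinrank_maximalIdeal
  rw [IsLocalization.AtPrime.ringKrullDim_eq_height p, WithBot.coe_inj] at hdim
  obtain ⟨s, hcard, hspan⟩ := Submodule.FG.exists_span_finset_card_eq_spanFinrank
    (IsNoetherian.noetherian (maximalIdeal (Localization.AtPrime p)))
  have hs : Ideal.ofList s.toList = maximalIdeal (Localization.AtPrime p) := by
    rw [← hspan, Ideal.ofList]
    congr 1
    ext t
    simp
  obtain ⟨ys, hys, hmem, hlen, hgen⟩ := exists_good_aux p _ hdim.symm s.toList (by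
    intro z hz
    rw [← hs]
    exact Ideal.subset_span hz) [] goodSeq_nil (by simp) (by simp [hcard]) (by
      rw [hs]
      exact le_sup_right)
  have hpm : p ≤ maximalIdeal R := IsLocalRing.le_maximalIdeal ‹p.IsPrime›.ne_top
  have hlen' : ys.length ≤ d := by
    have h1 := Ideal.height_mono hpm
    rw [hd, ← hdim] at h1
    exact hlen.trans (by exact_mod_cast h1)
  obtain ⟨zs, hzlen, hzs, hgood⟩ := goodSeq_extend hys (fun y hy => hpm (hmem y hy)) (d - ys.length) (by
    rw [hd, Nat.add_sub_cancel' hlen'])
  have hl : (zs ++ ys).length = d := by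
    rw [List.length_append, hzlen]
    omega
  have hrange : Set.range (fun l : Fin d => (zs ++ ys).get (Fin.cast hl.symm l)) =
      {t | t ∈ zs ++ ys} := by
    ext t
    rw [Set.mem_range, Set.mem_ofPred_eq, List.mem_iff_get]
    constructor
    · rintro ⟨l, hl⟩
      exact ⟨_, hl⟩
    · rintro ⟨l, hl'⟩
      exact ⟨Fin.cast hl l, hl'⟩
  refine ⟨fun l => (zs ++ ys).get (Fin.cast hl.symm l), ?_, ?_, ?_⟩
  · intro l
    rcases List.mem_append.mp (List.get_mem (zs ++ ys) (Fin.cast hl.symm l)) with h | h
    · exact hzs _ h
    · exact hpm (hmem _ h)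
  · rw [hrange]
    exact le_radical_of_good hgood (by rw [hd, hl])
  · refine hgen.trans ?_
    rw [Ideal.ofList, Ideal.span_le]
    intro t ht
    obtain ⟨y, hy, rfl⟩ := List.mem_map.mp ht
    apply Ideal.subset_span
    have h1 : y ∈ Set.range (fun l : Fin d => (zs ++ ys).get (Fin.cast hl.symm l)) := by
      rw [hrange]
      exact List.mem_append_right zs hy
    obtain ⟨l, hl'⟩ := h1
    refine ⟨l, ?_, congrArg _ hl'⟩
    have h2 := hmem y hy
    rw [← hl'] at h2
    exact h2

/-- Existence of systems of parameters. -/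
theorem exists_sop' {d : ℕ} (hd : (maximalIdeal R).height = d) :
    ∃ y : Fin d → R, (∀ l, y l ∈ maximalIdeal R) ∧
      maximalIdeal R ≤ (Ideal.span (Set.range y)).radical := by
  obtain ⟨zs, hl, hzs, hgood⟩ := goodSeq_extend (goodSeq_nil (R := R)) (by simp) d (by
    rw [hd, List.length_nil, zero_add])
  rw [List.append_nil] at hgood
  have hrange : Set.range (fun l : Fin d => zs.get (Fin.cast hl.symm l)) =
      {t | t ∈ zs} := by
    ext t
    rw [Set.mem_range, Set.mem_ofPred_eq, List.mem_iff_get]
    constructor
    · rintro ⟨l, hl⟩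
      exact ⟨_, hl⟩
    · rintro ⟨l, hl'⟩
      exact ⟨Fin.cast hl l, hl'⟩
  refine ⟨fun l => zs.get (Fin.cast hl.symm l), fun l => hzs _ (List.get_mem _ _), ?_⟩
  rw [hrange]
  exact le_radical_of_good hgood (by rw [hd, hl])

end Pool.Agent.Lib.MP_682396_ag
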