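import Pool.Agent.Lib.MP_682396_ag.Stab

/-!
# Stable annihilators from unramified primes
-/

set_option autoImplicit false
set_option linter.unusedSectionVars false

open Module
open scoped TensorProduct

universe u v

namespace Pool.Agent.Lib.MP_682396_ag

section Noether

variable {A : Type*} {R : Type*} [CommRing A] [CommRing R] [Algebra A R]

/-- If an element of `R` kills the differentials, then a power of it is in the Noether
different. -/
theorem exists_noether_different [Module.Finite A R] (f : R)
    (hf : ∀ ω : Ω[R⁄A], f • ω = 0) :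
    ∃ (n : ℕ) (e : R ⊗[A] R), Algebra.TensorProduct.lmul' A e = f ^ n ∧
      ∀ x : R ⊗[A] R, Algebra.TensorProduct.lmul' A x = 0 → e * x = 0 := by
  let I : Ideal (R ⊗[A] R) := KaehlerDifferential.ideal A R
  have hI : ∀ x, x ∈ I ↔ Algebra.TensorProduct.lmul' A x = 0 := fun x => Iff.rfl
  have hfin : Module.Finite (R ⊗[A] R) I := Module.Finite.iff_fg.mpr (KaehlerDifferential.ideal_fg A R)
  let b : R ⊗[A] R := f ⊗ₜ[A] 1
  have hb : ∀ x ∈ I, b * x ∈ I ^ 2 := by
    intro x hx
    have h1 : f • KaehlerDifferential.fromIdeal A R ⟨x, hx⟩ = 0 := hf _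
    have h2 : f • KaehlerDifferential.fromIdeal A R ⟨x, hx⟩ =
        b • KaehlerDifferential.fromIdeal A R ⟨x, hx⟩ := by
      rw [← algebraMap_smul (R ⊗[A] R) f]
      rfl
    rw [h2, ← map_smul] at h1
    exact (Ideal.toCotangent_eq_zero _ _).mp h1
  let φ : Module.End (R ⊗[A] R) I := algebraMap (R ⊗[A] R) _ b
  have hφ : LinearMap.range φ ≤ I • (⊤ : Submodule (R ⊗[A] R) I) := by
    rintro _ ⟨x, rfl⟩
    rw [Submodule.mem_smul_top_iff]
    have h1 : ((φ x : I) : R ⊗[A] R) = b * x := rfl
    rw [h1, smul_eq_mul, ← pow_two]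
    exact hb x x.2
  obtain ⟨p, hp, -, hcoeff, haev⟩ :=
    LinearMap.exists_monic_and_natDegree_eq_and_coeff_mem_pow_and_aeval_eq_zero (R ⊗[A] R) φ I hφ
  refine ⟨p.natDegree, p.eval b, ?_, ?_⟩
  · have h1 : p.map (Algebra.TensorProduct.lmul' A : R ⊗[A] R →ₐ[A] R).toRingHom =
        Polynomial.X ^ p.natDegree := by
      ext k
      rw [Polynomial.coeff_map, Polynomial.coeff_X_pow]
      split_ifs with hk
      · subst hk
        rw [hp.coeff_natDegree, map_one]
      · rcases lt_or_gt_of_ne hk with h | h
        · have h2 : p.coeff k ∈ I := Ideal.pow_le_self (by omega) (hcoeff k)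
          exact (hI _).mp h2
        · rw [Polynomial.coeff_eq_zero_of_natDegree_lt h, map_zero]
    have h2 : (Algebra.TensorProduct.lmul' A : R ⊗[A] R →ₐ[A] R).toRingHom (p.eval b) =
        (p.map (Algebra.TensorProduct.lmul' A : R ⊗[A] R →ₐ[A] R).toRingHom).eval
          ((Algebra.TensorProduct.lmul' A : R ⊗[A] R →ₐ[A] R).toRingHom b) := by
      rw [Polynomial.eval_map, Polynomial.eval₂_at_apply]
    have h3 : (Algebra.TensorProduct.lmul' A : R ⊗[A] R →ₐ[A] R).toRingHom b = f := by
      show Algebra.TensorProduct.lmul' A (f ⊗ₜ[A] (1 : R)) = f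
      rw [Algebra.TensorProduct.lmul'_apply_tmul, mul_one]
    rw [h1, h3, Polynomial.eval_pow, Polynomial.eval_X] at h2
    exact h2
  · intro x hx
    have h1 : (Polynomial.aeval φ p) ⟨x, hx⟩ = 0 := by rw [haev]; rfl
    rw [Polynomial.aeval_algebraMap_apply] at h1
    exact congrArg Subtype.val h1

variable {M : Type*} [AddCommGroup M] [Module R M] [Module A M] [IsScalarTower A R M]

/-- Elements of the Noether different annihilate stably. -/
theorem stabAnn_of_noether (e : R ⊗[A] R)
    (he : ∀ x : R ⊗[A] R, Algebra.TensorProduct.lmul' A x = 0 → e * x = 0)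
    [Module.Free A M] [Module.Finite A M] : StabAnn (Algebra.TensorProduct.lmul' A e) M := by
  -- left multiplication and right multiplication
  let act : M → R →ₗ[A] M := fun y =>
    { toFun := fun s => s • y
      map_add' := fun s t => add_smul s t y
      map_smul' := fun a s => smul_assoc a s y }
  have hact : ∀ y s, act y s = s • y := fun _ _ => rfl
  let α : M →ₗ[R] R ⊗[A] M :=
    { toFun := fun y => LinearMap.lTensor R (act y) e
      map_add' := fun y z => by
        have h1 : act (y + z) = act y + act z := by
          ext s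
          rw [LinearMap.add_apply, hact, hact, hact, smul_add]
        rw [h1, LinearMap.lTensor_add, LinearMap.add_apply]
      map_smul' := fun r y => by
        have h1 : ∀ t : R ⊗[A] R, LinearMap.lTensor R (act (r • y)) t =
            LinearMap.lTensor R (act y) (t * ((1 : R) ⊗ₜ[A] r)) := by
          intro t
          induction t using TensorProduct.induction_on with
          | zero => simp
          | tmul s t =>
            rw [Algebra.TensorProduct.tmul_mul_tmul, mul_one, LinearMap.lTensor_tmul,
              LinearMap.lTensor_tmul, hact, hact, mul_smul]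
          | add s t hs ht => rw [map_add, hs, ht, add_mul, map_add]
        have h2 : ∀ t : R ⊗[A] R, r • LinearMap.lTensor R (act y) t =
            LinearMap.lTensor R (act y) (t * (r ⊗ₜ[A] (1 : R))) := by
          intro t
          induction t using TensorProduct.induction_on with
          | zero => simp
          | tmul s t =>
            rw [Algebra.TensorProduct.tmul_mul_tmul, mul_one, LinearMap.lTensor_tmul,
              LinearMap.lTensor_tmul, hact, TensorProduct.smul_tmul', smul_eq_mul, mul_comm]
          | add s t hs ht => rw [map_add, smul_add, hs, ht, add_mul, map_add]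
        rw [RingHom.id_apply, h1, h2]
        congr 1
        rw [← sub_eq_zero, ← mul_sub]
        apply he
        rw [map_sub, Algebra.TensorProduct.lmul'_apply_tmul, Algebra.TensorProduct.lmul'_apply_tmul,
          one_mul, mul_one, sub_self] }
  let β : R ⊗[A] M →ₗ[R] M := TensorProduct.AlgebraTensorModule.lift
    (LinearMap.toSpanSingleton R (M →ₗ[A] M) LinearMap.id)
  have hβ : ∀ r y, β (r ⊗ₜ[A] y) = r • y := fun _ _ => rfl
  refine stabAnn_of_free α β fun y => ?_
  show β (LinearMap.lTensor R (act y) e) = _
  have h3 : ∀ t : R ⊗[A] R, β (LinearMap.lTensor R (act y) t) =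
      Algebra.TensorProduct.lmul' A t • y := by
    intro t
    induction t using TensorProduct.induction_on with
    | zero => simp
    | tmul s t => rw [LinearMap.lTensor_tmul, hact, hβ, Algebra.TensorProduct.lmul'_apply_tmul,
        mul_smul]
    | add s t hs ht => rw [map_add, map_add, hs, ht, map_add, add_smul]
  exact h3 e

end Noether

section At

variable {A : Type*} {R : Type*} [CommRing A] [CommRing R] [Algebra A R] [Module.Finite A R]

/-- An unramified prime does not contain the uniform stable annihilators. -/
theorem exists_stabAnn_of_isUnramifiedAt (p : Ideal R) [p.IsPrime] [Algebra.IsUnramifiedAt A p] :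
    ∃ z : R, z ∉ p ∧ ∀ (M : Type u) [AddCommGroup M] [Module R M] [Module A M]
      [IsScalarTower A R M] [Module.Free A M] [Module.Finite A M], StabAnn z M := by
  obtain ⟨f, hfp, hf⟩ : ∃ f : R, f ∉ p ∧ ∀ ω : Ω[R⁄A], f • ω = 0 := by
    have h1 : (⟨p, ‹_›⟩ : PrimeSpectrum R) ∈ Algebra.unramifiedLocus A R := by
      show Algebra.IsUnramifiedAt A p
      infer_instance
    rw [Algebra.unramifiedLocus_eq_compl_support, Set.mem_compl_iff,
      Module.mem_support_iff_of_finite, SetLike.not_le_iff_exists] at h1
    obtain ⟨f, hf, hfp⟩ := h1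
    exact ⟨f, hfp, fun ω => Module.mem_annihilator.mp hf ω⟩
  obtain ⟨n, e, hem, he⟩ := exists_noether_different (A := A) f hf
  refine ⟨Algebra.TensorProduct.lmul' A e, ?_, ?_⟩
  · rw [hem]
    exact fun h => hfp (Ideal.IsPrime.mem_of_pow_mem ‹_› n h)
  · intro M _ _ _ _ _ _
    exact stabAnn_of_noether e he

/-- A criterion in characteristic zero. -/
theorem isUnramifiedAt_of_map_eq (p : Ideal R) [p.IsPrime] [Algebra.IsIntegral A R]
    [CharZero A] (q : Ideal A) [q.IsPrime] [p.LiesOver q] [CharZero q.ResidueField]
    (h : IsLocalRing.maximalIdeal (Localization.AtPrime p) ≤ q.map (algebraMap A (Localization.AtPrime p))) :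
    Algebra.IsUnramifiedAt A p := by
  let _ := Localization.AtPrime.algebraOfLiesOver q p
  rw [Algebra.isUnramifiedAt_iff_map_eq A q p]
  refine ⟨?_, ?_⟩
  · infer_instance
  · refine le_antisymm ?_ h
    rw [Ideal.map_le_iff_le_comap]
    intro a ha
    rw [Ideal.mem_comap, IsScalarTower.algebraMap_apply A R (Localization.AtPrime p),
      IsLocalization.AtPrime.to_map_mem_maximal_iff _ p]
    exact (Ideal.mem_of_liesOver p q a).mp ha

end At

end Pool.Agent.Lib.MP_682396_ag
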