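import Pool.Agent.Lib.MP_682396_ag.Noether
import Pool.Agent.Lib.MP_682396_ag.Sop
import Pool.Agent.Lib.MP_682396_ag.Unram

/-!
# Uniform stable annihilators over isolated singularities
-/

set_option autoImplicit false
set_option linter.unusedSectionVars false

open Module IsLocalRing RingTheory.Sequence
open scoped Pointwise

universe u v

namespace Pool.Agent.Lib.MP_682396_ag

variable {R : Type u} [CommRing R] [IsNoetherianRing R] [IsLocalRing R]
  [IsAdicComplete (maximalIdeal R) R]

/-- Structure of algebra over a power series ring given by parameters. -/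
theorem exists_algebra [CharZero (ResidueField R)] {d : ℕ} (y : Fin d → R)
    (hy : ∀ l, y l ∈ maximalIdeal R)
    (hrad : maximalIdeal R ≤ (Ideal.span (Set.range y)).radical) :
    ∃ (_ : Algebra (ResidueField R) R) (_ : Algebra (MvPowerSeries (Fin d) (ResidueField R)) R),
      IsScalarTower (ResidueField R) (MvPowerSeries (Fin d) (ResidueField R)) R ∧
      (∀ l, xs (ResidueField R) d R l = y l) ∧
      (∀ r : R, ∃ c : ResidueField R, r - algebraMap (ResidueField R) R c ∈ maximalIdeal R) ∧
      Module.Finite (MvPowerSeries (Fin d) (ResidueField R)) R := by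
  obtain ⟨σ, hσ⟩ := exists_section (R := R)
  let _ : Algebra (ResidueField R) R := σ.toAlgebra
  obtain ⟨φ, hφ⟩ := exists_eval (K := ResidueField R) (maximalIdeal R) y hy
  let _ : Algebra (MvPowerSeries (Fin d) (ResidueField R)) R := φ.toAlgebra
  have htow : IsScalarTower (ResidueField R) (MvPowerSeries (Fin d) (ResidueField R)) R := by
    apply IsScalarTower.of_algebraMap_eq
    intro c
    show _ = φ _
    rw [← MvPowerSeries.c_eq_algebraMap, ← MvPolynomial.coe_C, hφ, MvPolynomial.aeval_C]
  have hX : ∀ l, xs (ResidueField R) d R l = y l := by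
    intro l
    show φ (MvPowerSeries.X l) = y l
    rw [← MvPolynomial.coe_X, hφ, MvPolynomial.aeval_X]
  have hres : ∀ r : R, ∃ c : ResidueField R,
      r - algebraMap (ResidueField R) R c ∈ maximalIdeal R := by
    intro r
    refine ⟨residue R r, ?_⟩
    rw [← residue_eq_zero_iff, map_sub]
    show residue R r - residue R (σ (residue R r)) = 0
    rw [hσ, sub_self]
  refine ⟨_, _, htow, hX, hres, ?_⟩
  apply finite_over_powerSeries hres
  · intro l
    have := hX l
    rw [xs] at this
    rw [this]
    exact hy l
  · have : (fun l : Fin d => algebraMap (MvPowerSeries (Fin d) (ResidueField R)) R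
        (MvPowerSeries.X l)) = y := funext hX
    rw [this]
    exact hrad

theorem ofList_ofFn {d : ℕ} (y : Fin d → R) :
    Ideal.ofList (List.ofFn y) = Ideal.span (Set.range y) := by
  rw [Ideal.ofList]
  congr 1
  ext t
  rw [Set.mem_ofPred_eq, List.mem_ofFn]
  exact Iff.rfl

/-- The modules under consideration. -/
def HasDepth (R : Type u) [CommRing R] [IsLocalRing R] (d : ℕ) (M : Type u) [AddCommGroup M]
    [Module R M] : Prop :=
  ∃ rs : List R, (∀ r ∈ rs, r ∈ maximalIdeal R) ∧ IsWeaklyRegular M rs ∧ rs.length = d

/-- A regular prime does not contain all uniform stable annihilators. -/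
theorem exists_stabAnn_notMem [CharZero (ResidueField R)] (p : Ideal R) [p.IsPrime]
    [IsRegularLocalRing (Localization.AtPrime p)] {d : ℕ} (hd : (maximalIdeal R).height = d) :
    ∃ z : R, z ∉ p ∧ ∀ (M : Type u) [AddCommGroup M] [Module R M] [Module.Finite R M],
      HasDepth R d M → StabAnn z M := by
  obtain ⟨y, hy, hrad, hgen⟩ := exists_sop p hd
  obtain ⟨_, _, htow, hX, hres, hfin⟩ := exists_algebra y hy hrad
  let K := ResidueField R
  let A := MvPowerSeries (Fin d) K
  let q : Ideal A := p.under A
  have hq : q.IsPrime := inferInstance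
  have hlo : p.LiesOver q := inferInstance
  have hK : CharZero A := charZero_of_injective_algebraMap (algebraMap K A).injective
  have hKq : CharZero q.ResidueField :=
    charZero_of_injective_algebraMap (algebraMap K q.ResidueField).injective
  have hint : Algebra.IsIntegral A R := inferInstance
  have hunr : Algebra.IsUnramifiedAt A p := by
    apply isUnramifiedAt_of_map_eq p q
    refine hgen.trans ?_
    rw [Ideal.span_le]
    rintro _ ⟨l, hl, rfl⟩
    have h1 : y l = algebraMap A R (MvPowerSeries.X l) := (hX l).symm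
    rw [h1, ← IsScalarTower.algebraMap_apply A R (Localization.AtPrime p)]
    apply Ideal.mem_map_of_mem
    rw [Ideal.mem_comap, ← h1]
    exact hl
  obtain ⟨z, hz, hM⟩ := exists_stabAnn_of_isUnramifiedAt.{u} (A := A) p
  refine ⟨z, hz, fun M _ _ _ hdepth => ?_⟩
  obtain ⟨rs, hmem, hreg, hlen⟩ := hdepth
  let _ : Module A M := Module.compHom M (algebraMap A R)
  have _ : IsScalarTower A R M := IsScalarTower.of_algebraMap_smul fun _ _ => rfl
  have hfx : xs K d R = y := funext hX
  obtain ⟨h1, h2⟩ := free_of_depth (K := K) (R := R) (d := d) (fun l => by rw [hX]; exact hy l)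
    (by rw [hfx, ofList_ofFn]; exact hrad) hmem hreg hlen
  exact hM M

/-- Over an isolated singularity there is a system of parameters consisting of uniform stable
annihilators. -/
theorem exists_params [CharZero (ResidueField R)] {d : ℕ} (hd : (maximalIdeal R).height = d)
    (hiso : ∀ (p : Ideal R) [p.IsPrime], p ≠ maximalIdeal R →
      IsRegularLocalRing (Localization.AtPrime p)) :
    ∃ x : Fin d → R, (∀ l, x l ∈ maximalIdeal R) ∧
      maximalIdeal R ≤ (Ideal.span (Set.range x)).radical ∧
      ∀ (M : Type u) [AddCommGroup M] [Module R M] [Module.Finite R M],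
        HasDepth R d M → ∀ l, StabAnn (x l) M := by
  let J : Ideal R :=
    { carrier := {z | ∀ (M : Type u) [AddCommGroup M] [Module R M] [Module.Finite R M],
        HasDepth R d M → StabAnn z M}
      zero_mem' := fun M _ _ _ _ => StabAnn.zero
      add_mem' := fun {a b} ha hb M _ _ _ hM => (ha M hM).add (hb M hM)
      smul_mem' := fun c z hz M _ _ _ hM => (hz M hM).smul c }
  have hJ : maximalIdeal R ≤ J.radical := by
    rw [Ideal.radical_eq_sInf]
    refine le_sInf ?_
    rintro p ⟨hp, hpp⟩
    by_contra hne
    have hpm : p ≠ maximalIdeal R := by rintro rfl; exact hne le_rfl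
    have _ := hiso p hpm
    obtain ⟨z, hz, hM⟩ := exists_stabAnn_notMem p hd
    exact hz (hp hM)
  obtain ⟨y, hy, hrad⟩ := exists_sop' hd
  have h1 : ∀ l, ∃ n, y l ^ n ∈ J := fun l => hJ (hy l)
  choose n hn using h1
  refine ⟨fun l => y l ^ (n l + 1), fun l => Ideal.pow_mem_of_mem _ (hy l) _ (Nat.succ_pos _),
    ?_, ?_⟩
  · refine hrad.trans ?_
    rw [Ideal.radical_le_radical_iff, Ideal.span_le]
    rintro _ ⟨l, rfl⟩
    exact ⟨n l + 1, Ideal.subset_span ⟨l, rfl⟩⟩
  · intro M _ _ _ hM l
    have h2 : y l ^ (n l + 1) ∈ J := by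
      rw [pow_succ']
      exact J.mul_mem_left _ (hn l)
    exact h2 M hM

end Pool.Agent.Lib.MP_682396_ag
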