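import Pool.Agent.Lib.MP_682396_ag.Isolated

/-!
# Sequences of rigid modules over isolated singularities
-/

set_option autoImplicit false
set_option linter.unusedSectionVars false

open Module IsLocalRing RingTheory.Sequence
open scoped Pointwise

universe u v

namespace Pool.Agent.Lib.MP_682396_ag

open Tw

/-- A surjection between torsion-free modules of the same rank is injective. -/
theorem injective_of_surjective_of_finrank_eq {R : Type*} [CommRing R] [IsDomain R]
    [IsNoetherianRing R] {M N : Type*} [AddCommGroup M] [Module R M]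
    [Module.Finite R M] [IsTorsionFree R M] [AddCommGroup N] [Module R N] [Module.Finite R N]
    (h : finrank R M = finrank R N) (φ : M →ₗ[R] N) (hφ : Function.Surjective φ) :
    Function.Injective φ := by
  rw [← LinearMap.ker_eq_bot]
  have h1 := Submodule.finrank_quotient_add_finrank (LinearMap.ker φ)
  have h2 : finrank R (M ⧸ LinearMap.ker φ) = finrank R N :=
    (φ.quotKerEquivOfSurjective hφ).finrank_eq
  have h3 : finrank R (LinearMap.ker φ) = 0 := by omega
  have h4 : Module.IsTorsion R (LinearMap.ker φ) := Module.finrank_eq_zero_iff_isTorsion.mp h3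
  rw [Submodule.eq_bot_iff]
  intro m hm
  obtain ⟨a, ha⟩ := @h4 ⟨m, hm⟩
  have h5 : (a : R) • m = 0 := congrArg Subtype.val ha
  exact (smul_eq_zero_iff_right (nonZeroDivisors.ne_zero a.2)).mp h5

/-- A homomorphism that is surjective modulo the first level is surjective. -/
theorem surjective_of_lev {R : Type*} [CommRing R] [IsLocalRing R] {d : ℕ} {x : Fin d → R}
    (hx : ∀ l, x l ∈ maximalIdeal R) {M N : Type*} [AddCommGroup M] [Module R M]
    [AddCommGroup N] [Module R N] [Module.Finite R N] (ψ : M →ₗ[R] N)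
    (hψ : ∀ n : N, ∃ m : M, n - ψ m ∈ lev x N fun _ => 1) : Function.Surjective ψ := by
  rw [← LinearMap.range_eq_top, ← top_le_iff]
  have hle : (lev x N fun _ => 1) ≤ maximalIdeal R • (⊤ : Submodule R N) := by
    unfold lev
    apply iSup_le
    intro l n hn
    obtain ⟨w, -, rfl⟩ := Submodule.mem_smul_pointwise_iff_exists _ _ _ |>.mp hn
    rw [pow_one]
    exact Submodule.smul_mem_smul (hx l) trivial
  apply Submodule.le_of_le_smul_of_le_jacobson_bot (I := maximalIdeal R) Module.Finite.fg_top
    (IsLocalRing.maximalIdeal_le_jacobson _)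
  intro n _
  obtain ⟨m, hm⟩ := hψ n
  have h1 : n = ψ m + (n - ψ m) := by abel
  rw [h1]
  exact Submodule.add_mem_sup ⟨m, rfl⟩ (hle hm)

theorem exists_iso_of_seq_isolated {R : Type u} [CommRing R] [IsDomain R] [IsNoetherianRing R]
    [IsLocalRing R] [IsAdicComplete (maximalIdeal R) R] [CharZero (ResidueField R)] {d : ℕ}
    (hd : (maximalIdeal R).height = d)
    (hiso : ∀ (p : Ideal R) [p.IsPrime], p ≠ maximalIdeal R →
      IsRegularLocalRing (Localization.AtPrime p))
    (M : ℕ → Type u) [∀ i, AddCommGroup (M i)] [∀ i, Module R (M i)]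
    [∀ i, Module.Finite R (M i)] [∀ i, IsTorsionFree R (M i)] (hdepth : ∀ i, HasDepth R d (M i))
    (n : ℕ) (hn : ∀ i, finrank R (M i) = n)
    (hrig : ∀ i (E : Type u) [AddCommGroup E] [Module R E] (f : M i →ₗ[R] E) (g : E →ₗ[R] M i),
      Function.Injective f → Function.Surjective g →
      LinearMap.range f = LinearMap.ker g → ∃ s : M i →ₗ[R] E, g ∘ₗ s = LinearMap.id) :
    ∃ i j, i ≠ j ∧ Nonempty (M i ≃ₗ[R] M j) := by
  obtain ⟨x, hx, hrad, hst⟩ := exists_params hd hiso
  obtain ⟨_, _, htow, hX, hres, hfin⟩ := exists_algebra x hx hrad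
  let K := ResidueField R
  let A := MvPowerSeries (Fin d) K
  have hfx : xs K d R = x := funext hX
  let _ : ∀ i, Module A (M i) := fun i => Module.compHom (M i) (algebraMap A R)
  have _ : ∀ i, IsScalarTower A R (M i) := fun i => IsScalarTower.of_algebraMap_smul fun _ _ => rfl
  have hfree : ∀ i, Module.Finite A (M i) ∧ Module.Free A (M i) := by
    intro i
    obtain ⟨rs, hmem, hreg, hlen⟩ := hdepth i
    exact free_of_depth (K := K) (R := R) (d := d) (fun l => by rw [hX]; exact hx l)
      (by rw [hfx, ofList_ofFn]; exact hrad) hmem hreg hlen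
  have _ : ∀ i, Module.Finite A (M i) := fun i => (hfree i).1
  have _ : ∀ i, Module.Free A (M i) := fun i => (hfree i).2
  -- the ranks over the power series ring are bounded
  have hbound : ∀ i, finrank A (M i) < finrank A (Fin n → R) + 1 := by
    intro i
    have h1 := exists_embedding (R := R) (M i)
    rw [hn i] at h1
    obtain ⟨f, hf⟩ := h1
    have h2 : Function.Injective (f.restrictScalars A) := hf
    exact Nat.lt_succ_of_le (LinearMap.finrank_le_finrank_of_injective h2)
  obtain ⟨D, hD⟩ := Finite.exists_infinite_fiber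
    (fun i : ℕ => (⟨finrank A (M i), hbound i⟩ : Fin (finrank A (Fin n → R) + 1)))
  let e := Infinite.natEmbedding ((fun i : ℕ => (⟨finrank A (M i), hbound i⟩ :
    Fin (finrank A (Fin n → R) + 1))) ⁻¹' {D})
  have he : ∀ i, finrank A (M (e i)) = D.val := by
    intro i
    have h1 := (e i).2
    rw [Set.mem_preimage, Set.mem_singleton_iff] at h1
    exact congrArg Fin.val h1
  let b : ∀ i, Basis (Fin D.val) A (M (e i)) := fun i => finBasisOfFinrankEq A (M (e i)) (he i)
  let C : ∀ i, Coord K (Fin D.val) (xs K d R) (M (e i)) := fun i =>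
    Classical.choice (exists_coord_of_basis (b i))
  -- a finite spanning set modulo the fifth level
  have hlevle : (lev (xs K d R) R fun _ => 5) ≤ maximalIdeal R := by
    unfold lev
    apply iSup_le
    intro l r hr
    obtain ⟨w, -, rfl⟩ := Submodule.mem_smul_pointwise_iff_exists _ _ _ |>.mp hr
    rw [smul_eq_mul, hfx]
    exact Ideal.mul_mem_right _ _ (Ideal.pow_mem_of_mem _ (hx l) _ (by norm_num))
  have hlevrad : maximalIdeal R ≤ Ideal.radical (lev (xs K d R) R fun _ => 5) := by
    refine hrad.trans ?_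
    rw [Ideal.radical_le_radical_iff, Ideal.span_le]
    rintro _ ⟨l, rfl⟩
    refine ⟨5, ?_⟩
    have h1 := pow_smul_mem_lev (x := xs K d R) (fun _ => 5) l (1 : R)
    rw [smul_eq_mul, mul_one, hfx] at h1
    rw [hfx]
    exact h1
  obtain ⟨N, r, hspan⟩ := exists_span (K := K) hres (lev (xs K d R) R fun _ => 5) hlevle hlevrad
  obtain ⟨i, j, hij, φ, hφ⟩ := exists_surjective_of_seq r hspan (fun i => M (e i)) C
    (fun i => regSys_of_basis (b i))
    (fun i l => by rw [hX]; exact hst (M (e i)) (hdepth _) l) (fun i => hrig (e i))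
  refine ⟨e i, e j, fun h => hij (e.injective (Subtype.ext h)), ?_⟩
  obtain ⟨ψ, hψ⟩ := lift_M (x := xs K d R) (regSys_of_basis (b j))
    (fun l => by rw [hX]; exact hst (M (e i)) (hdepth _) l) (k := 2) (by norm_num) φ
  have hsurj : Function.Surjective ψ := by
    apply surjective_of_lev (x := xs K d R) (fun l => by rw [hX]; exact hx l)
    intro y
    obtain ⟨m, hm⟩ := hφ (Submodule.Quotient.mk y)
    refine ⟨m, ?_⟩
    have h1 := hψ m
    rw [hm] at h1
    exact (Submodule.Quotient.eq _).mp h1.symm
  exact ⟨LinearEquiv.ofBijective ψ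
    ⟨injective_of_surjective_of_finrank_eq (by rw [hn, hn]) ψ hsurj, hsurj⟩⟩

end Pool.Agent.Lib.MP_682396_ag
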