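import Pool.Agent.Lib.MP_682396_ag.Tw

/-!
# Vanishing of obstructions with a uniform loss of levels
-/

set_option autoImplicit false
set_option linter.unusedSectionVars false

open Module
open scoped Pointwise

universe u v

namespace Pool.Agent.Lib.MP_682396_ag

open Tw

section ExtV

variable {R : Type*} [CommRing R] {m : ℕ} (Ω : Submodule R (Fin m → R))

/-- Homomorphisms from `Ω` to `N / P` extend, modulo `P'`, to the free module. -/
def ExtV (N : Type*) [AddCommGroup N] [Module R N] (P P' : Submodule R N) (h : P ≤ P') : Prop :=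
  ∀ g : Ω →ₗ[R] N ⧸ P, ∃ H : (Fin m → R) →ₗ[R] N ⧸ P', ∀ ω : Ω,
    H ω = Submodule.factor h (g ω)

variable {Ω}

theorem ExtV.transfer {N N' : Type*} [AddCommGroup N] [Module R N] [AddCommGroup N'] [Module R N']
    (π : N →ₗ[R] N') (hπ : Function.Surjective π) {P P' : Submodule R N} {Q Q' : Submodule R N'}
    (hP : P = Q.comap π) (hP' : P' = Q'.comap π) (h : P ≤ P') (h' : Q ≤ Q')
    (hext : ExtV Ω N P P' h) : ExtV Ω N' Q Q' h' := by
  subst hP hP'
  let a : (N ⧸ Q.comap π) →ₗ[R] N' ⧸ Q := Submodule.mapQ _ _ π le_rfl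
  let a' : (N ⧸ Q'.comap π) →ₗ[R] N' ⧸ Q' := Submodule.mapQ _ _ π le_rfl
  have ha : Function.Bijective a := by
    constructor
    · rw [← LinearMap.ker_eq_bot, LinearMap.ker_eq_bot']
      intro q hq
      obtain ⟨n, rfl⟩ := Submodule.Quotient.mk_surjective _ q
      rw [Submodule.mapQ_apply, Submodule.Quotient.mk_eq_zero] at hq
      rw [Submodule.Quotient.mk_eq_zero]
      exact hq
    · intro q
      obtain ⟨n', rfl⟩ := Submodule.Quotient.mk_surjective _ q
      obtain ⟨n, rfl⟩ := hπ n'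
      exact ⟨Submodule.Quotient.mk n, rfl⟩
  let e := LinearEquiv.ofBijective a ha
  intro g
  obtain ⟨H, hH⟩ := hext (e.symm.toLinearMap ∘ₗ g)
  refine ⟨a' ∘ₗ H, fun ω => ?_⟩
  rw [LinearMap.comp_apply, hH]
  obtain ⟨n, hn⟩ := Submodule.Quotient.mk_surjective _ (e.symm (g ω))
  have h1 : g ω = Submodule.Quotient.mk (π n) := by
    have h2 : e (e.symm (g ω)) = g ω := e.apply_symm_apply _
    rw [← h2, ← hn]
    rfl
  rw [LinearMap.comp_apply, LinearEquiv.coe_coe, ← hn, h1]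
  rfl

end ExtV

section Lev

variable {R : Type*} [CommRing R] {d : ℕ} {x : Fin d → R} {N : Type*} [AddCommGroup N]
  [Module R N]

theorem lev_anti {c c' : Fin d → ℕ} (h : ∀ l, c l ≤ c' l) : lev x N c' ≤ lev x N c := by
  apply iSup_mono
  intro l n hn
  obtain ⟨w, -, rfl⟩ := Submodule.mem_smul_pointwise_iff_exists _ _ _ |>.mp hn
  rw [Submodule.mem_smul_pointwise_iff_exists]
  refine ⟨x l ^ (c' l - c l) • w, trivial, ?_⟩
  rw [smul_smul, ← pow_add, Nat.add_sub_cancel' (h l)]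

theorem pow_smul_mem_lev (c : Fin d → ℕ) (l : Fin d) (n : N) : x l ^ c l • n ∈ lev x N c :=
  Submodule.mem_iSup_of_mem l (Submodule.smul_mem_pointwise_smul n _ ⊤ trivial)

end Lev

section LiftM

variable {R : Type*} [CommRing R] {d : ℕ} {x : Fin d → R} {M : Type*} [AddCommGroup M] [Module R M]
  {Ω : Type*} [AddCommGroup Ω] [Module R Ω]

/-- Levels restricted to a set of directions. -/
def levS (x : Fin d → R) (N : Type*) [AddCommGroup N] [Module R N] (s : Set (Fin d))
    (c : Fin d → ℕ) : Submodule R N := ⨆ l ∈ s, (x l ^ c l) • (⊤ : Submodule R N)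

/-- Each `x l` is regular modulo powers of any set of the others. -/
def RegSys (x : Fin d → R) (M : Type*) [AddCommGroup M] [Module R M] : Prop :=
  ∀ (s : Set (Fin d)) (c : Fin d → ℕ) (l : Fin d) (m : M), l ∉ s → (∀ l', 0 < c l') →
    x l • m ∈ levS x M s c → m ∈ levS x M s c

theorem levS_mono {N : Type*} [AddCommGroup N] [Module R N] {s t : Set (Fin d)} (h : s ⊆ t)
    (c : Fin d → ℕ) : levS x N s c ≤ levS x N t c :=
  biSup_mono h

theorem levS_le_lev {N : Type*} [AddCommGroup N] [Module R N] (s : Set (Fin d))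
    (c : Fin d → ℕ) : levS x N s c ≤ lev x N c :=
  iSup₂_le fun l _ => le_iSup (fun l => (x l ^ c l) • (⊤ : Submodule R N)) l

theorem levS_univ {N : Type*} [AddCommGroup N] [Module R N]
    (c : Fin d → ℕ) : levS x N Set.univ c = lev x N c := by
  simp [levS, lev]

theorem levS_empty {N : Type*} [AddCommGroup N] [Module R N]
    (c : Fin d → ℕ) : levS x N ∅ c = ⊥ := by
  simp [levS]

theorem levS_insert {N : Type*} [AddCommGroup N] [Module R N] (s : Set (Fin d)) (l : Fin d)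
    (c : Fin d → ℕ) : levS x N (insert l s) c = (x l ^ c l) • ⊤ ⊔ levS x N s c := by
  rw [levS, iSup_insert]; rfl

/-- Regularity with all directions present. -/
theorem RegSys.of_smul_mem (h : RegSys x M) {s : Set (Fin d)} {c : Fin d → ℕ} {l : Fin d} {m : M}
    (hl : l ∉ s) (hc : ∀ l', 0 < c l')
    (hm : x l • m ∈ levS x M (insert l s) c) :
    ∃ w : M, m - x l ^ (c l - 1) • w ∈ levS x M s c := by
  rw [levS_insert] at hm
  obtain ⟨p, hp, q, hq, hpq⟩ := Submodule.mem_sup.mp hm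
  obtain ⟨w, -, rfl⟩ := Submodule.mem_smul_pointwise_iff_exists _ _ _ |>.mp hp
  refine ⟨w, h s c l _ hl hc ?_⟩
  rw [smul_sub, smul_smul, ← pow_succ', Nat.sub_add_cancel (hc l), ← hpq, add_sub_cancel_left]
  exact hq

/-- `lift_chain` with named end terms. -/
theorem lift_chain' {N : Type*} [AddCommGroup N] [Module R N] (hx : ∀ l, StabAnn (x l) Ω)
    (A : Fin (d + 1) → Submodule R N) (B : Fin d → Submodule R N) (C : Submodule R N)
    (hBA : ∀ j, B j ≤ A j.castSucc) (hAB : ∀ j, A j.castSucc ≤ B j ⊔ x j • ⊤)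
    (h1 : ∀ j n, x j • n ∈ B j → n ∈ A j.succ) (h1' : ∀ j, ∀ n ∈ A j.succ, x j • n ∈ B j)
    (hC : ∀ j n, x j • n ∈ A j.castSucc → n ∈ C) (hAC : ∀ j, A j ≤ C)
    {P P' : Submodule R N} (hA0 : A 0 = P) (hAl : A (Fin.last d) = P') (hPC : P ≤ C)
    (hPC' : P' ≤ C) (φ : Ω →ₗ[R] N ⧸ P) :
    ∃ ψ : Ω →ₗ[R] N ⧸ P', ∀ ω, Submodule.factor hPC' (ψ ω) = Submodule.factor hPC (φ ω) := by
  subst hA0 hAl
  exact lift_chain x hx A B C hBA hAB h1 h1' hC hAC φ

theorem exists_lift_of_bot {N : Type*} [AddCommGroup N] [Module R N] {C : Submodule R N}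
    (hC : (⊥ : Submodule R N) ≤ C) (ψ : Ω →ₗ[R] N ⧸ (⊥ : Submodule R N)) :
    ∃ ψ' : Ω →ₗ[R] N, ∀ ω, (Submodule.Quotient.mk (ψ' ω) : N ⧸ C) =
      Submodule.factor hC (ψ ω) := by
  refine ⟨(Submodule.quotEquivOfEqBot _ rfl).toLinearMap ∘ₗ ψ, fun ω => ?_⟩
  obtain ⟨m, hm⟩ := Submodule.Quotient.mk_surjective _ (ψ ω)
  rw [LinearMap.comp_apply, ← hm]
  rfl

theorem lift_M (h : RegSys x M) (hx : ∀ l, StabAnn (x l) Ω) {k : ℕ} (hk : 0 < k)
    (φ : Ω →ₗ[R] M ⧸ lev x M (fun _ => k)) :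
    ∃ ψ : Ω →ₗ[R] M, ∀ ω, (Submodule.Quotient.mk (ψ ω) : M ⧸ lev x M (fun _ => k - 1)) =
      Submodule.factor (lev_anti fun _ => Nat.sub_le k 1) (φ ω) := by
  have hAc : ∀ j : Fin d, {l : Fin d | j.castSucc ≤ l.castSucc} = insert j {l | j < l} := by
    intro j
    ext l
    rw [Set.mem_ofPred_eq, Set.mem_insert_iff, Set.mem_ofPred_eq, Fin.castSucc_le_castSucc_iff,
      le_iff_lt_or_eq, or_comm]
    exact or_congr ⟨Eq.symm, Eq.symm⟩ Iff.rfl
  have hAs : ∀ j : Fin d, {l : Fin d | j.succ ≤ l.castSucc} = {l | j < l} := by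
    intro j
    ext l
    exact Iff.rfl
  have hlevle : lev x M (fun _ => k) ≤ lev x M (fun _ => k - 1) :=
    lev_anti fun _ => Nat.sub_le k 1
  have hj : ∀ j : Fin d, j ∉ {l : Fin d | j < l} := fun j => by simp
  obtain ⟨ψ, hψ⟩ := lift_chain' hx
    (fun j : Fin (d + 1) => levS x M {l | j ≤ l.castSucc} (fun _ => k))
    (fun j : Fin d => levS x M {l | j < l} (fun _ => k)) (lev x M (fun _ => k - 1))
    (fun j => by
      rw [hAc]
      exact levS_mono (Set.subset_insert _ _) _)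
    (fun j => by
      rw [hAc, levS_insert, sup_comm]
      apply sup_le_sup_left
      intro n hn
      obtain ⟨w, -, rfl⟩ := Submodule.mem_smul_pointwise_iff_exists _ _ _ |>.mp hn
      rw [Submodule.mem_smul_pointwise_iff_exists]
      refine ⟨x j ^ (k - 1) • w, trivial, ?_⟩
      rw [smul_smul, ← pow_succ', Nat.sub_add_cancel hk])
    (fun j n hn => by
      rw [hAs]
      exact h _ _ j n (hj j) (fun _ => hk) hn)
    (fun j n hn => by
      rw [hAs] at hn
      exact Submodule.smul_mem _ _ hn)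
    (fun j n hn => by
      rw [hAc] at hn
      obtain ⟨w, hw⟩ := h.of_smul_mem (hj j) (fun _ => hk) hn
      have h1 : n = (n - x j ^ (k - 1) • w) + x j ^ (k - 1) • w := by abel
      rw [h1]
      exact add_mem (hlevle (levS_le_lev _ _ hw)) (pow_smul_mem_lev (fun _ => k - 1) j w))
    (fun j => (levS_le_lev _ _).trans hlevle)
    (P := lev x M (fun _ => k)) (P' := ⊥)
    (by
      rw [← levS_univ]
      congr 1
      ext l
      simp)
    (by
      rw [← levS_empty (x := x) (fun _ => k)]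
      congr 1
      ext l
      simp [Fin.le_def])
    hlevle bot_le φ
  obtain ⟨ψ', hψ'⟩ := exists_lift_of_bot (C := lev x M (fun _ => k - 1)) bot_le ψ
  exact ⟨ψ', fun ω => (hψ' ω).trans (hψ ω)⟩

end LiftM

end Pool.Agent.Lib.MP_682396_ag
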