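import Pool.Agent.Lib.MP_682396_ag.Lengths

/-!
# Reduction of homomorphisms modulo a regular element
-/

set_option autoImplicit false
set_option linter.unusedSectionVars false

open Module IsLocalRing
open scoped Pointwise nonZeroDivisors

universe u

namespace Pool.Agent.Lib.MP_682396_ag

section Theta

variable {R : Type*} [CommRing R] (x : R) {M N : Type*} [AddCommGroup M] [Module R M]
  [AddCommGroup N] [Module R N]

theorem mem_smul_top_iff (m : M) : m ∈ (x • ⊤ : Submodule R M) ↔ ∃ m' : M, m = x • m' := by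
  rw [Submodule.mem_smul_pointwise_iff_exists]
  constructor
  · rintro ⟨m', -, rfl⟩; exact ⟨m', rfl⟩
  · rintro ⟨m', rfl⟩; exact ⟨m', trivial, rfl⟩

/-- The kernel of reduction modulo a regular element. -/
theorem ker_map (hx : IsSMulRegular N x) :
    LinearMap.ker (QuotSMulTop.map x : (M →ₗ[R] N) →ₗ[R] _) =
      (x • ⊤ : Submodule R (M →ₗ[R] N)) := by
  ext f
  rw [LinearMap.mem_ker, mem_smul_top_iff]
  constructor
  · intro hf
    have h1 : ∀ m : M, ∃ n : N, f m = x • n := by
      intro m
      rw [← mem_smul_top_iff, ← Submodule.Quotient.mk_eq_zero, ← QuotSMulTop.map_apply_mk, hf]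
      rfl
    choose g hg using h1
    refine ⟨{ toFun := g, map_add' := fun a b => hx ?_, map_smul' := fun r a => hx ?_ }, ?_⟩
    · show x • g (a + b) = x • (g a + g b)
      rw [← hg, map_add, hg a, hg b, smul_add]
    · show x • g (r • a) = x • (r • g a)
      rw [← hg, map_smul, hg a, smul_comm]
    · ext m
      exact hg m
  · rintro ⟨g, rfl⟩
    refine LinearMap.ext fun q => ?_
    obtain ⟨m, rfl⟩ := Submodule.Quotient.mk_surjective _ q
    show (Submodule.Quotient.mk ((x • g) m) : QuotSMulTop x N) = 0
    rw [Submodule.Quotient.mk_eq_zero, mem_smul_top_iff]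
    exact ⟨g m, rfl⟩

theorem length_range_map (hx : IsSMulRegular N x) :
    length R (QuotSMulTop x (M →ₗ[R] N)) =
      length R (LinearMap.range (QuotSMulTop.map x : (M →ₗ[R] N) →ₗ[R] _)) := by
  exact ((Submodule.quotEquivOfEq _ _ (ker_map x hx).symm).trans
    (QuotSMulTop.map x : (M →ₗ[R] N) →ₗ[R] _).quotKerEquivRange).length_eq

theorem length_hom_le (hx : IsSMulRegular N x) :
    length R (QuotSMulTop x (M →ₗ[R] N)) ≤
      length R (QuotSMulTop x M →ₗ[R] QuotSMulTop x N) := by
  rw [length_range_map x hx]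
  exact length_le_of_injective (Submodule.subtype _) (Submodule.subtype_injective _)

theorem surjective_of_length_eq (hx : IsSMulRegular N x)
    (hfin : IsFiniteLength R (QuotSMulTop x M →ₗ[R] QuotSMulTop x N))
    (h : length R (QuotSMulTop x M →ₗ[R] QuotSMulTop x N) =
      length R (QuotSMulTop x (M →ₗ[R] N))) :
    Function.Surjective (QuotSMulTop.map x : (M →ₗ[R] N) →ₗ[R] _) := by
  rw [length_range_map x hx] at h
  rw [← LinearMap.range_eq_top]
  by_contra hne
  obtain ⟨h1, h2⟩ := isFiniteLength_iff_isNoetherian_isArtinian.mp hfin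
  exact absurd h (Submodule.length_lt hne).ne'

/-- Endomorphisms of the reduction of a rigid module lift. -/
theorem surjective_of_rigid {R : Type*} [CommRing R] (x : R) {M : Type u} [AddCommGroup M]
    [Module R M] (hx : IsSMulRegular M x)
    (hrig : ∀ (E : Type u) [AddCommGroup E] [Module R E] (f : M →ₗ[R] E) (g : E →ₗ[R] M),
      Function.Injective f → Function.Surjective g →
      LinearMap.range f = LinearMap.ker g → ∃ s : M →ₗ[R] E, g ∘ₗ s = LinearMap.id) :
    Function.Surjective (QuotSMulTop.map x : (M →ₗ[R] M) →ₗ[R] _) := by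
  intro φ
  let δ : (M × M) →ₗ[R] QuotSMulTop x M :=
    φ ∘ₗ Submodule.mkQ _ ∘ₗ LinearMap.fst R M M - Submodule.mkQ _ ∘ₗ LinearMap.snd R M M
  have hδ : ∀ p : M × M, δ p = φ (Submodule.Quotient.mk p.1) - Submodule.Quotient.mk p.2 :=
    fun p => rfl
  let f : M →ₗ[R] LinearMap.ker δ :=
    LinearMap.codRestrict _ (LinearMap.inr R M M ∘ₗ LinearMap.lsmul R M x) (by
      intro m
      rw [LinearMap.mem_ker, hδ]
      show φ (Submodule.Quotient.mk (0 : M)) - Submodule.Quotient.mk (x • m) = 0
      have h1 : (Submodule.Quotient.mk (x • m) : QuotSMulTop x M) = 0 := by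
        rw [Submodule.Quotient.mk_eq_zero, mem_smul_top_iff]
        exact ⟨m, rfl⟩
      rw [h1, Submodule.Quotient.mk_zero, map_zero, sub_zero])
  have hf : ∀ m, ((f m : LinearMap.ker δ) : M × M) = (0, x • m) := fun m => rfl
  let g : LinearMap.ker δ →ₗ[R] M := LinearMap.fst R M M ∘ₗ Submodule.subtype _
  have hg : ∀ p : LinearMap.ker δ, g p = (p : M × M).1 := fun p => rfl
  obtain ⟨s, hs⟩ := hrig (LinearMap.ker δ) f g (by
      intro a b hab
      have h1 := congrArg (fun p : LinearMap.ker δ => (p : M × M).2) hab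
      simp only [hf] at h1
      exact hx h1) (by
      intro m
      obtain ⟨m', hm'⟩ := Submodule.Quotient.mk_surjective _ (φ (Submodule.Quotient.mk m))
      exact ⟨⟨(m, m'), by rw [LinearMap.mem_ker, hδ]; simp [hm']⟩, rfl⟩) (by
      ext p
      rw [LinearMap.mem_range, LinearMap.mem_ker, hg]
      constructor
      · rintro ⟨m, rfl⟩
        rw [hf]
      · intro hp
        have h1 := p.2
        rw [LinearMap.mem_ker, hδ, hp, Submodule.Quotient.mk_zero, map_zero, zero_sub,
          neg_eq_zero, Submodule.Quotient.mk_eq_zero, mem_smul_top_iff] at h1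
        obtain ⟨m', hm'⟩ := h1
        refine ⟨m', Subtype.ext ?_⟩
        rw [hf, ← hm', ← hp])
  refine ⟨LinearMap.snd R M M ∘ₗ Submodule.subtype _ ∘ₗ s, LinearMap.ext fun q => ?_⟩
  obtain ⟨m, rfl⟩ := Submodule.Quotient.mk_surjective _ q
  rw [QuotSMulTop.map_apply_mk]
  have h1 := (s m).2
  rw [LinearMap.mem_ker, hδ, sub_eq_zero] at h1
  have h2 : ((s m : LinearMap.ker δ) : M × M).1 = m := by
    have := LinearMap.congr_fun hs m
    exact this
  rw [h2] at h1
  rw [h1]
  rfl

end Theta

section Pi

variable {R : Type*} [CommRing R] {N : Type*} [AddCommGroup N] [Module R N]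

theorem length_quotSMulTop_pi (x : R) (n : ℕ) :
    length R (QuotSMulTop x (Fin n → N)) = n * length R (QuotSMulTop x N) := by
  have h1 : (x • ⊤ : Submodule R (Fin n → N)) =
      Submodule.pi Set.univ (fun _ => (x • ⊤ : Submodule R N)) := by
    ext g
    rw [mem_smul_top_iff, Submodule.mem_pi]
    constructor
    · rintro ⟨g', rfl⟩ i -
      exact (mem_smul_top_iff x _).mpr ⟨g' i, rfl⟩
    · intro h
      have h2 : ∀ i, ∃ m, g i = x • m := fun i => (mem_smul_top_iff x _).mp (h i trivial)
      choose g' hg' using h2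
      exact ⟨g', funext hg'⟩
  rw [((Submodule.quotEquivOfEq _ _ h1).trans (Submodule.quotientPi _)).length_eq,
    length_pi]
  simp

end Pi

section TorsionFree

variable {R : Type*} [CommRing R] [IsDomain R] [IsNoetherianRing R] [Ring.KrullDimLE 1 R]
variable {M N : Type*} [AddCommGroup M] [Module R M] [Module.Finite R M]
  [AddCommGroup N] [Module R N] [Module.Finite R N]

/-- Every finitely generated module contains a free submodule of full rank, and the quotient
is killed by a nonzero element. -/
theorem exists_free_sub (R : Type*) [CommRing R] [IsDomain R] [IsNoetherianRing R] (M : Type*)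
    [AddCommGroup M] [Module R M] [Module.Finite R M] :
    ∃ f : (Fin (finrank R M) → R) →ₗ[R] M, Function.Injective f ∧
      ∃ c ∈ R⁰, ∀ m : M, ∃ l, c • m = f l := by
  obtain ⟨v, hv⟩ := exists_linearIndependent_of_le_finrank (le_refl (finrank R M))
  let f : (Fin (finrank R M) → R) →ₗ[R] M := Fintype.linearCombination R v
  have hf : Function.Injective f := by
    exact linearIndependent_iff_injective_fintypeLinearCombination.mp hv
  have hr : finrank R (LinearMap.range f) = finrank R M := by
    rw [LinearMap.finrank_range_of_inj hf, finrank_fin_fun]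
  have h0 : finrank R (M ⧸ LinearMap.range f) = 0 := by
    have := Submodule.finrank_quotient_add_finrank (LinearMap.range f)
    omega
  have htor : Module.IsTorsion R (M ⧸ LinearMap.range f) := by
    exact Module.finrank_eq_zero_iff_isTorsion.mp h0
  obtain ⟨c, hc, hc'⟩ := Submodule.annihilator_top_inter_nonZeroDivisors htor
  refine ⟨f, hf, c, hc', fun m => ?_⟩
  have h1 := (Submodule.mem_annihilator.mp hc) (Submodule.Quotient.mk m) trivial
  rw [← Submodule.Quotient.mk_smul, Submodule.Quotient.mk_eq_zero] at h1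
  obtain ⟨l, hl⟩ := h1
  exact ⟨l, hl.symm⟩

theorem length_quotSMulTop_of_torsionFree {x : R} (hx0 : x ≠ 0) [IsTorsionFree R N] :
    length R (QuotSMulTop x N) = finrank R N * length R (QuotSMulTop x R) := by
  obtain ⟨f, hf, c, hc, hfc⟩ := exists_free_sub R N
  have h1 := length_quotSMulTop_eq x f hf (IsSMulRegular.of_ne_zero hx0)
    (isFiniteLength_of_smul_eq_zero hc (by
      intro q
      obtain ⟨m, rfl⟩ := Submodule.Quotient.mk_surjective _ q
      obtain ⟨l, hl⟩ := hfc m
      rw [← Submodule.Quotient.mk_smul, Submodule.Quotient.mk_eq_zero]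
      exact ⟨l, hl.symm⟩))
  rw [← h1, length_quotSMulTop_pi]

theorem length_hom_quotSMulTop {x : R} (hx0 : x ≠ 0) [IsTorsionFree R M] [IsTorsionFree R N] :
    length R (QuotSMulTop x (M →ₗ[R] N)) =
      finrank R M * (finrank R N * length R (QuotSMulTop x R)) := by
  obtain ⟨f, hf, c, hc, hfc⟩ := exists_free_sub R M
  have hc0 : c ≠ 0 := nonZeroDivisors.ne_zero hc
  let e : Fin (finrank R M) → M := fun i => f (Pi.single i 1)
  let ρ : (M →ₗ[R] N) →ₗ[R] (Fin (finrank R M) → N) := LinearMap.pi fun i =>
    LinearMap.applyₗ (e i)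
  have hρ : ∀ g i, ρ g i = g (f (Pi.single i 1)) := fun g i => rfl
  have hρi : Function.Injective ρ := by
    rw [← LinearMap.ker_eq_bot, LinearMap.ker_eq_bot']
    intro g hg
    have h1 : g ∘ₗ f = 0 := by
      ext i
      have := congrFun hg i
      rw [hρ] at this
      simpa using this
    ext m
    obtain ⟨l, hl⟩ := hfc m
    have h2 : c • g m = 0 := by
      rw [← map_smul, hl]
      exact LinearMap.congr_fun h1 l
    simpa using (smul_eq_zero_iff_right hc0).mp h2
  -- the inverse on multiples of `c`
  have h3 : ∀ m, ∃ l, c • m = f l := hfc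
  choose s hs using h3
  let σ : M →ₗ[R] (Fin (finrank R M) → R) :=
    { toFun := s
      map_add' := fun a b => hf (by rw [← hs, map_add, ← hs, ← hs, smul_add])
      map_smul' := fun r a => hf (by rw [← hs, map_smul, ← hs, smul_comm]; rfl) }
  have hσ : ∀ l, σ (f l) = c • l := fun l => hf (by
    show f (s (f l)) = _
    rw [← hs, map_smul])
  have hcok : IsFiniteLength R ((Fin (finrank R M) → N) ⧸ LinearMap.range ρ) := by
    apply isFiniteLength_of_smul_eq_zero hc
    intro q
    obtain ⟨g, rfl⟩ := Submodule.Quotient.mk_surjective _ q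
    rw [← Submodule.Quotient.mk_smul, Submodule.Quotient.mk_eq_zero]
    refine ⟨Fintype.linearCombination R g ∘ₗ σ, ?_⟩
    ext i
    rw [hρ, LinearMap.comp_apply, hσ, map_smul, Fintype.linearCombination_apply_single]
    simp
  rw [length_quotSMulTop_eq x ρ hρi (IsSMulRegular.of_ne_zero hx0) hcok, length_quotSMulTop_pi,
    length_quotSMulTop_of_torsionFree hx0]

end TorsionFree

end Pool.Agent.Lib.MP_682396_ag
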