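import Pool.Agent.Lib.MP_682396_ag.FiniteIso
import Pool.Agent.Lib.MP_682396_ag.CoeffField
import Pool.Agent.Lib.MP_682396_ag.Reduction

/-!
# Rigid torsion-free modules over one-dimensional local domains
-/

set_option autoImplicit false
set_option linter.unusedSectionVars false

open Module IsLocalRing
open scoped Pointwise nonZeroDivisors

universe u

namespace Pool.Agent.Lib.MP_682396_ag

section Seq

variable {R : Type u} [CommRing R] [IsDomain R] [IsNoetherianRing R] [IsLocalRing R]
  [Ring.KrullDimLE 1 R]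

theorem isFiniteLength_hom {x : R} (hx0 : x ≠ 0) (M N : Type u) [AddCommGroup M] [Module R M]
    [Module.Finite R M] [AddCommGroup N] [Module R N] [Module.Finite R N] :
    IsFiniteLength R (QuotSMulTop x M →ₗ[R] QuotSMulTop x N) := by
  apply isFiniteLength_of_smul_eq_zero (mem_nonZeroDivisors_of_ne_zero hx0)
  intro f
  refine LinearMap.ext fun m => ?_
  exact Module.mem_annihilator.mp (QuotSMulTop.mem_annihilator N x) (f m)

theorem isFiniteLength_quotSMulTop {x : R} (hx0 : x ≠ 0) (M : Type u) [AddCommGroup M] [Module R M]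
    [Module.Finite R M] : IsFiniteLength R (QuotSMulTop x M) := by
  apply isFiniteLength_of_smul_eq_zero (mem_nonZeroDivisors_of_ne_zero hx0)
  intro m
  exact Module.mem_annihilator.mp (QuotSMulTop.mem_annihilator M x) m

/-- A surjection between torsion-free modules of the same rank is injective. -/
theorem injective_of_surjective {M N : Type u} [AddCommGroup M] [Module R M]
    [Module.Finite R M] [IsTorsionFree R M] [AddCommGroup N] [Module R N] [Module.Finite R N]
    (h : finrank R M = finrank R N) (φ : M →ₗ[R] N) (hφ : Function.Surjective φ) :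
    Function.Injective φ := by
  rw [← LinearMap.ker_eq_bot]
  have h1 := Submodule.finrank_quotient_add_finrank (LinearMap.ker φ)
  have h2 : finrank R (M ⧸ LinearMap.ker φ) = finrank R N :=
    (φ.quotKerEquivOfSurjective hφ).finrank_eq
  have h3 : finrank R (LinearMap.ker φ) = 0 := by omega
  have h4 : Module.IsTorsion R (LinearMap.ker φ) := Module.finrank_eq_zero_iff_isTorsion.mp h3
  rw [Submodule.eq_bot_iff]
  intro m hm
  obtain ⟨a, ha⟩ := @h4 ⟨m, hm⟩
  have h5 : (a : R) • m = 0 := congrArg Subtype.val ha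
  exact (smul_eq_zero_iff_right (nonZeroDivisors.ne_zero a.2)).mp h5

theorem length_hom_quot {x : R} (M N : Type u) [AddCommGroup M] [Module R M]
    [AddCommGroup N] [Module R N] :
    length (R ⧸ Ideal.span {x}) (QuotSMulTop x M →ₗ[R ⧸ Ideal.span {x}] QuotSMulTop x N) =
      length R (QuotSMulTop x M →ₗ[R] QuotSMulTop x N) := by
  have hsurj : Function.Surjective (algebraMap R (R ⧸ Ideal.span {x})) :=
    Ideal.Quotient.mk_surjective
  rw [← Module.length_eq_of_surjective (S := R) (R := R ⧸ Ideal.span {x}) hsurj]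
  exact (LinearMap.extendScalarsOfSurjectiveEquiv hsurj).length_eq.symm

theorem exists_iso_of_seq_aux {x : R} (hx0 : x ≠ 0) (hxm : x ∈ maximalIdeal R)
    [IsLocalRing (R ⧸ Ideal.span {x})]
    (F : Type*) [Field F] [Algebra F (R ⧸ Ideal.span {x})]
    (hres : ∀ b : R ⧸ Ideal.span {x}, ∃ c : F,
      b - algebraMap F (R ⧸ Ideal.span {x}) c ∈ maximalIdeal (R ⧸ Ideal.span {x}))
    (M : ℕ → Type u) [∀ i, AddCommGroup (M i)] [∀ i, Module R (M i)]
    [∀ i, Module.Finite R (M i)] [∀ i, IsTorsionFree R (M i)]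
    (n : ℕ) (hn : ∀ i, finrank R (M i) = n)
    (hrig : ∀ i, Function.Surjective (QuotSMulTop.map x : (M i →ₗ[R] M i) →ₗ[R] _)) :
    ∃ i j, i ≠ j ∧ Nonempty (M i ≃ₗ[R] M j) := by
  have hsurj : Function.Surjective (algebraMap R (R ⧸ Ideal.span {x})) :=
    Ideal.Quotient.mk_surjective
  let _ : ∀ i, Module F (QuotSMulTop x (M i)) := fun i =>
    Module.compHom _ (algebraMap F (R ⧸ Ideal.span {x}))
  have _ : ∀ i, IsScalarTower F (R ⧸ Ideal.span {x}) (QuotSMulTop x (M i)) := fun i =>
    IsScalarTower.of_algebraMap_smul (fun _ _ => rfl)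
  have hfinR : ∀ (V : Type u) [AddCommGroup V] [Module R V] [Module (R ⧸ Ideal.span {x}) V]
      [IsScalarTower R (R ⧸ Ideal.span {x}) V], IsFiniteLength R V →
      IsFiniteLength (R ⧸ Ideal.span {x}) V := by
    intro V _ _ _ _ hV
    rw [← Module.length_ne_top_iff] at hV ⊢
    rwa [Module.length_eq_of_surjective (S := R) (R := R ⧸ Ideal.span {x}) hsurj] at hV
  have hx : ∀ i, IsSMulRegular (M i) x := fun i => IsSMulRegular.of_ne_zero hx0
  have hVfin : ∀ i, IsFiniteLength (R ⧸ Ideal.span {x}) (QuotSMulTop x (M i)) := fun i =>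
    hfinR _ (isFiniteLength_quotSMulTop hx0 (M i))
  have hHfin : ∀ i j, IsFiniteLength (R ⧸ Ideal.span {x})
      (QuotSMulTop x (M i) →ₗ[R ⧸ Ideal.span {x}] QuotSMulTop x (M j)) := fun i j => by
    rw [← Module.length_ne_top_iff, length_hom_quot, Module.length_ne_top_iff]
    exact isFiniteLength_hom hx0 _ _
  have hVF := fun i => finite_of_coeffField hres (hVfin i)
  have hHF := fun i j => finite_of_coeffField hres (hHfin i j)
  have _ : ∀ i, Module.Finite F (QuotSMulTop x (M i)) := fun i => (hVF i).1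
  -- the length of `R / x`
  obtain ⟨ℓ, hℓ⟩ := ENat.ne_top_iff_exists.mp
    (Module.length_ne_top_iff.mpr (isFiniteLength_quotSMulTop hx0 R))
  have hBF := (finite_of_coeffField hres (hfinR (R ⧸ Ideal.span {x})
    (isFiniteLength_quotient_span_singleton R (mem_nonZeroDivisors_of_ne_zero hx0)))).1
  have hlenV : ∀ i, finrank F (QuotSMulTop x (M i)) = n * ℓ := by
    intro i
    have h1 := (hVF i).2
    rw [← Module.length_eq_of_surjective (S := R) (R := R ⧸ Ideal.span {x}) hsurj,
      length_quotSMulTop_of_torsionFree hx0, hn, ← hℓ] at h1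
    exact_mod_cast h1
  have hlenH : ∀ i j, n * (n * ℓ) ≤
      finrank F (QuotSMulTop x (M i) →ₗ[R ⧸ Ideal.span {x}] QuotSMulTop x (M j)) := by
    intro i j
    have h1 := (hHF i j).2
    have h2 := length_hom_le (M := M i) x (hx j)
    rw [length_hom_quotSMulTop hx0, hn, hn, ← hℓ, ← length_hom_quot, ← h1] at h2
    exact_mod_cast h2
  have hlenE : ∀ i,
      finrank F (QuotSMulTop x (M i) →ₗ[R ⧸ Ideal.span {x}] QuotSMulTop x (M i)) =
        n * (n * ℓ) := by
    intro i
    have h1 := (hHF i i).2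
    have h2 := length_range_map (M := M i) x (hx i)
    rw [LinearMap.range_eq_top.mpr (hrig i), length_top, ← length_hom_quot, ← h1,
      length_hom_quotSMulTop hx0, hn, ← hℓ] at h2
    exact_mod_cast h2.symm
  obtain ⟨i, j, hij, ⟨e⟩⟩ := exists_linearEquiv (F := F) (B := R ⧸ Ideal.span {x})
    (fun i => QuotSMulTop x (M i)) hlenV hlenH hlenE
  refine ⟨i, j, hij, ?_⟩
  let e' : QuotSMulTop x (M i) ≃ₗ[R] QuotSMulTop x (M j) := e.restrictScalars R
  have hsj : Function.Surjective (QuotSMulTop.map x : (M i →ₗ[R] M j) →ₗ[R] _) := by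
    apply surjective_of_length_eq x (hx j) (isFiniteLength_hom hx0 _ _)
    rw [← (LinearEquiv.congrRight e' : (QuotSMulTop x (M i) →ₗ[R] _) ≃ₗ[R] _).length_eq,
      length_hom_quotSMulTop hx0, hn j]
    have h2 := length_range_map (M := M i) x (hx i)
    rw [LinearMap.range_eq_top.mpr (hrig i), length_top, length_hom_quotSMulTop hx0, hn i] at h2
    rw [← h2, hn]
  obtain ⟨φ, hφ⟩ := hsj e'.toLinearMap
  have hφs : Function.Surjective φ := by
    apply LinearMap.surjective_of_surjective_comp_mkQ φ (Ideal.span {x})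
    · rw [Ideal.span_singleton_le_iff_mem, IsLocalRing.jacobson_eq_maximalIdeal ⊥ bot_ne_top]
      exact hxm
    · rw [Submodule.ideal_span_singleton_smul]
      have h3 : (x • ⊤ : Submodule R (M j)).mkQ ∘ₗ φ =
          e'.toLinearMap ∘ₗ (x • ⊤ : Submodule R (M i)).mkQ := by
        rw [← hφ]
        exact (QuotSMulTop.map_comp_mkQ x φ).symm
      rw [h3]
      exact e'.surjective.comp (Submodule.mkQ_surjective _)
  exact ⟨LinearEquiv.ofBijective φ
    ⟨injective_of_surjective (by rw [hn, hn]) φ hφs, hφs⟩⟩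

theorem exists_iso_of_seq {x : R} (hx0 : x ≠ 0) (hxm : x ∈ maximalIdeal R)
    (hB : (∃ p : ℕ, p.Prime ∧ (p : R ⧸ Ideal.span {x}) = 0) ∨
      ∀ n : ℕ, n ≠ 0 → IsUnit (n : R ⧸ Ideal.span {x}))
    (M : ℕ → Type u) [∀ i, AddCommGroup (M i)] [∀ i, Module R (M i)]
    [∀ i, Module.Finite R (M i)] [∀ i, IsTorsionFree R (M i)]
    (n : ℕ) (hn : ∀ i, finrank R (M i) = n)
    (hrig : ∀ i, Function.Surjective (QuotSMulTop.map x : (M i →ₗ[R] M i) →ₗ[R] _)) :
    ∃ i j, i ≠ j ∧ Nonempty (M i ≃ₗ[R] M j) := by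
  have hxtop : Ideal.span {x} ≠ ⊤ := by
    rw [Ne, Ideal.span_singleton_eq_top]
    exact hxm
  have hnt : Nontrivial (R ⧸ Ideal.span {x}) := Ideal.Quotient.nontrivial_iff.mpr hxtop
  have hsurj : Function.Surjective (algebraMap R (R ⧸ Ideal.span {x})) :=
    Ideal.Quotient.mk_surjective
  have hloc : IsLocalRing (R ⧸ Ideal.span {x}) := IsLocalRing.of_surjective' _ hsurj
  have hBfin : IsFiniteLength R (R ⧸ Ideal.span {x}) :=
    isFiniteLength_quotient_span_singleton R (mem_nonZeroDivisors_of_ne_zero hx0)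
  have hBart : IsArtinianRing (R ⧸ Ideal.span {x}) := by
    have h1 := (isFiniteLength_iff_isNoetherian_isArtinian.mp hBfin).2
    exact isArtinian_of_tower R h1
  have hnil : IsNilpotent (maximalIdeal (R ⧸ Ideal.span {x})) := by
    rw [← IsLocalRing.jacobson_eq_maximalIdeal ⊥ bot_ne_top]
    exact IsArtinianRing.isNilpotent_jacobson_bot
  obtain ⟨C, hC, hCB⟩ := exists_coeffField hnil hB
  let _ : Field C := hC.toField
  let _ : Algebra C (R ⧸ Ideal.span {x}) := C.subtype.toAlgebra
  exact exists_iso_of_seq_aux hx0 hxm C (fun b => by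
    obtain ⟨c, hc, hcb⟩ := hCB b
    exact ⟨⟨c, hc⟩, hcb⟩) M n hn hrig

end Seq

end Pool.Agent.Lib.MP_682396_ag
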