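import Mathlib

/-!
# Finitely many isomorphism classes from a Hom-dimension bound

Let `F` be a field and let `ρ i` (for `i : ℕ`) be `g`-tuples of `n × n` matrices over `F`.
If all spaces of intertwiners `ρ i → ρ j` have dimension at least `a`, with equality for `i = j`,
then two different `ρ i`, `ρ j` are simultaneously similar.
The proof only uses the Hilbert basis theorem.
-/

set_option autoImplicit false
set_option linter.unusedSectionVars false

open Module

namespace Pool.Agent.Lib.MP_682396_ag

section Matrices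

variable {F : Type*} [Field F] {g n : Type*} [Finite g] [Fintype n] [DecidableEq n]

/-- The linear map `φ ↦ (φ x_l - z_l φ)_l`. -/
def intMap (x z : g → Matrix n n F) : Matrix n n F →ₗ[F] (g → Matrix n n F) :=
  LinearMap.pi fun l => LinearMap.mulRight F (x l) - LinearMap.mulLeft F (z l)

omit [Finite g] in
@[simp] lemma intMap_apply (x z : g → Matrix n n F) (φ : Matrix n n F) (l : g) :
    intMap x z φ l = φ * x l - z l * φ := by
  simp [intMap]

/-- The space of intertwiners. -/
def inter (x z : g → Matrix n n F) : Submodule F (Matrix n n F) :=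
  LinearMap.ker (intMap x z)

omit [Finite g] in
lemma mem_inter {x z : g → Matrix n n F} {φ : Matrix n n F} :
    φ ∈ inter x z ↔ ∀ l, φ * x l = z l * φ := by
  simp [inter, funext_iff, sub_eq_zero]

/-- The algebra of polynomial functions on the space of `g`-tuples of matrices. -/
def polyFun (F : Type*) [Field F] (g n : Type*) : Subalgebra F ((g → Matrix n n F) → F) :=
  Algebra.adjoin F (Set.range fun (s : g × n × n) => fun z : g → Matrix n n F => z s.1 s.2.1 s.2.2)

omit [DecidableEq n] in
lemma polyFun_isNoetherianRing : IsNoetherianRing (polyFun F g n) := by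
  apply isNoetherianRing_of_fg
  exact Subalgebra.fg_def.mpr ⟨_, Set.finite_range _, rfl⟩

omit [Finite g] [Fintype n] [DecidableEq n] in
lemma coord_mem (l : g) (p q : n) : (fun z : g → Matrix n n F => z l p q) ∈ polyFun F g n :=
  Algebra.subset_adjoin ⟨(l, p, q), rfl⟩

/-- Evaluation of a polynomial function at a point. -/
def ev (z : g → Matrix n n F) : polyFun F g n →+* F :=
  (Pi.evalRingHom (fun _ : g → Matrix n n F => F) z).comp (polyFun F g n).val.toRingHom

omit [Finite g] [Fintype n] [DecidableEq n] in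
@[simp] lemma ev_apply (z : g → Matrix n n F) (f : polyFun F g n) : ev z f = f.1 z := rfl

/-- Every function of `z` obtained by applying a linear functional to `intMap x z u`
is polynomial. -/
lemma functional_mem (x : g → Matrix n n F) (u : Matrix n n F)
    (ℓ : (g → Matrix n n F) →ₗ[F] F) :
    (fun z : g → Matrix n n F => ℓ (intMap x z u)) ∈ polyFun F g n := by
  classical
  cases nonempty_fintype g
  -- write `ℓ` in coordinates
  have key : ∀ w : g → Matrix n n F, ℓ w = ∑ l, ∑ p, ∑ q, w l p q *
      ℓ (Pi.single l (Matrix.single p q 1)) := by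
    intro w
    have hw : w = ∑ l, ∑ p, ∑ q, w l p q • (Pi.single l (Matrix.single p q (1 : F)) :
      g → Matrix n n F) := by
      funext l
      ext p q
      simp only [Finset.sum_apply, Matrix.sum_apply, Pi.smul_apply, Matrix.smul_apply,
        Pi.single_apply, smul_eq_mul]
      rw [Finset.sum_eq_single l]
      · rw [Finset.sum_eq_single p]
        · rw [Finset.sum_eq_single q]
          · simp
          · intro q' _ hq'
            simp [Matrix.single, hq']
          · simp
        · intro p' _ hp'
          apply Finset.sum_eq_zero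
          intro q' _
          simp [Matrix.single, hp']
        · simp
      · intro l' _ hl'
        apply Finset.sum_eq_zero
        intro p' _
        apply Finset.sum_eq_zero
        intro q' _
        simp [Ne.symm hl']
      · simp
    conv_lhs => rw [hw]
    simp [map_sum]
  have : (fun z : g → Matrix n n F => ℓ (intMap x z u)) =
      ∑ l, ∑ p, ∑ q, ((algebraMap F ((g → Matrix n n F) → F) ((u * x l) p q)
        - ∑ s, (fun z : g → Matrix n n F => z l p s) *
            algebraMap F ((g → Matrix n n F) → F) (u s q)) *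
        algebraMap F ((g → Matrix n n F) → F) (ℓ (Pi.single l (Matrix.single p q 1)))) := by
    funext z
    rw [key]
    simp only [Finset.sum_apply, Pi.mul_apply, Pi.sub_apply, Pi.algebraMap_apply, intMap_apply,
      Matrix.sub_apply, Algebra.algebraMap_self, RingHom.id_apply]
    refine Finset.sum_congr rfl fun l _ => Finset.sum_congr rfl fun p _ =>
      Finset.sum_congr rfl fun q _ => ?_
    rw [Matrix.mul_apply (M := z l)]
  rw [this]
  refine sum_mem fun l _ => sum_mem fun p _ => sum_mem fun q _ => mul_mem (sub_mem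
    (Subalgebra.algebraMap_mem _ _) (sum_mem fun s _ => mul_mem (coord_mem l p s)
    (Subalgebra.algebraMap_mem _ _))) (Subalgebra.algebraMap_mem _ _)

/-- The vanishing ideal of a set of points of a sequence. -/
def vanish (ρ : ℕ → g → Matrix n n F) (S : Set ℕ) : Ideal (polyFun F g n) :=
  ⨅ i ∈ S, RingHom.ker (ev (ρ i))

omit [Finite g] [Fintype n] [DecidableEq n] in
lemma mem_vanish {ρ : ℕ → g → Matrix n n F} {S : Set ℕ} {f : polyFun F g n} :
    f ∈ vanish ρ S ↔ ∀ i ∈ S, f.1 (ρ i) = 0 := by
  simp [vanish, Submodule.mem_iInf, RingHom.mem_ker]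

omit [Finite g] [Fintype n] [DecidableEq n] in
lemma vanish_anti {ρ : ℕ → g → Matrix n n F} {S S' : Set ℕ} (h : S' ⊆ S) :
    vanish ρ S ≤ vanish ρ S' := by
  intro f hf
  rw [mem_vanish] at hf ⊢
  exact fun i hi => hf i (h hi)

theorem exists_similar (ρ : ℕ → g → Matrix n n F) (a : ℕ)
    (hge : ∀ i j, a ≤ finrank F (inter (ρ i) (ρ j)))
    (heq : ∀ i, finrank F (inter (ρ i) (ρ i)) = a) :
    ∃ i j, i ≠ j ∧ ∃ φ : Matrix n n F, IsUnit φ.det ∧ ∀ l, φ * ρ i l = ρ j l * φ := by
  classical
  have hN : IsNoetherianRing (polyFun F g n) := polyFun_isNoetherianRing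
  -- choose an infinite set of indices with maximal vanishing ideal
  obtain ⟨J, ⟨S, hSinf, rfl⟩, hmax⟩ := set_has_maximal_iff_noetherian.mpr hN
    {J | ∃ S : Set ℕ, S.Infinite ∧ vanish ρ S = J} ⟨_, Set.univ, Set.infinite_univ, rfl⟩
  have hmax' : ∀ S' ⊆ S, S'.Infinite → vanish ρ S' = vanish ρ S := by
    intro S' hS' hinf
    by_contra hne
    exact hmax _ ⟨S', hinf, rfl⟩ (lt_of_le_of_ne (vanish_anti hS') (Ne.symm hne))
  obtain ⟨i₀, hi₀⟩ := hSinf.nonempty
  set x := ρ i₀ with hx
  -- complement of the commutant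
  obtain ⟨U, hU⟩ := Submodule.exists_isCompl (inter x x)
  set r := finrank F U with hr
  have hdim : a + r = finrank F (Matrix n n F) := by
    rw [hr, ← heq i₀]; exact Submodule.finrank_add_eq_of_isCompl hU
  let b : Basis (Fin r) F U := finBasis F U
  -- the map `F^r → (g → Matrix n n F)`
  let m₀ : (Fin r → F) →ₗ[F] (g → Matrix n n F) :=
    (intMap x x) ∘ₗ U.subtype ∘ₗ b.equivFun.symm.toLinearMap
  have hm₀ : LinearMap.ker m₀ = ⊥ := by
    rw [LinearMap.ker_eq_bot']
    intro c hc
    have h1 : (U.subtype (b.equivFun.symm c)) ∈ inter x x := hc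
    have h2 : (U.subtype (b.equivFun.symm c)) ∈ U := (b.equivFun.symm c).2
    have h3 : (U.subtype (b.equivFun.symm c)) = 0 := by
      have := hU.disjoint.le_bot (show _ ∈ inter x x ⊓ U from ⟨h1, h2⟩)
      simpa using this
    have h4 : b.equivFun.symm c = 0 := by
      apply Subtype.ext
      simpa using h3
    exact (LinearEquiv.map_eq_zero_iff _).mp h4
  obtain ⟨π, hπ⟩ := LinearMap.exists_leftInverse_of_injective m₀ hm₀
  have hπ' : ∀ j i, π (intMap x x (b j : Matrix n n F)) i = (1 : Matrix (Fin r) (Fin r) F) i j := by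
    intro j i
    have h1 : intMap x x (b j : Matrix n n F) = m₀ (Pi.single j 1) := by
      simp [m₀]
    rw [h1, ← LinearMap.comp_apply, hπ]
    simp [Pi.single_apply, Matrix.one_apply]
  -- polynomial matrices
  let T : Matrix (Fin r) (Fin r) (polyFun F g n) := fun i j =>
    ⟨fun z => π (intMap x z (b j : Matrix n n F)) i,
      functional_mem x (b j : Matrix n n F) ((LinearMap.proj i) ∘ₗ π)⟩
  let v : Fin r → polyFun F g n := fun i =>
    ⟨fun z => π (intMap x z 1) i, functional_mem x 1 ((LinearMap.proj i) ∘ₗ π)⟩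
  let c : Fin r → polyFun F g n := T.adjugate.mulVec v
  let Φ : Matrix n n (polyFun F g n) :=
    T.det • (1 : Matrix n n (polyFun F g n)) -
      ∑ j, c j • ((b j : Matrix n n F).map (algebraMap F (polyFun F g n)))
  let f : polyFun F g n := T.det * Φ.det
  -- evaluation
  have evT : ∀ z, ∀ i j, (T i j).1 z = π (intMap x z (b j : Matrix n n F)) i := fun _ _ _ => rfl
  have evv : ∀ z, ∀ i, (v i).1 z = π (intMap x z 1) i := fun _ _ => rfl
  let Tz : (g → Matrix n n F) → Matrix (Fin r) (Fin r) F := fun z => T.map (ev z)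
  have hTz : ∀ z i j, Tz z i j = π (intMap x z (b j : Matrix n n F)) i := fun _ _ _ => rfl
  have hdetT : ∀ z, (T.det).1 z = (Tz z).det := by
    intro z
    have := RingHom.map_det (ev z) T
    simpa using this
  have hc : ∀ z j, (c j).1 z = ((Tz z).adjugate.mulVec (fun i => π (intMap x z 1) i)) j := by
    intro z j
    have h1 : ev z (c j) = ((Tz z).adjugate.mulVec (fun i => π (intMap x z 1) i)) j := by
      have h2 : (T.adjugate).map (ev z) = (Tz z).adjugate := by
        have := RingHom.map_adjugate (ev z) T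
        simpa using this
      simp only [c, Matrix.mulVec, dotProduct, map_sum, map_mul]
      refine Finset.sum_congr rfl fun i _ => ?_
      rw [← h2]
      rfl
    simpa using h1
  let Φz : (g → Matrix n n F) → Matrix n n F := fun z =>
    (Tz z).det • (1 : Matrix n n F) -
      ∑ j, ((Tz z).adjugate.mulVec (fun i => π (intMap x z 1) i)) j • (b j : Matrix n n F)
  have hΦz : ∀ z, Φ.map (ev z) = Φz z := by
    intro z
    ext p q
    simp only [Φ, Φz, Matrix.map_apply, Matrix.sub_apply, Matrix.smul_apply, Matrix.sum_apply,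
      smul_eq_mul, map_sub, map_mul, map_sum]
    congr 1
    · rw [← hdetT]
      congr 1
      simp [Matrix.one_apply, apply_ite (ev z)]
    · refine Finset.sum_congr rfl fun j _ => ?_
      rw [← hc z j]
      rfl
  have hf : ∀ z, f.1 z = (Tz z).det * (Φz z).det := by
    intro z
    have h1 : ev z f = (Tz z).det * (Φz z).det := by
      rw [show ev z f = ev z T.det * ev z Φ.det from map_mul _ _ _, RingHom.map_det (ev z) T,
        RingHom.map_det (ev z) Φ]
      rw [show (ev z).mapMatrix Φ = Φ.map (ev z) from rfl, hΦz z]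
      rfl
    simpa using h1
  -- at the base point
  have hT0 : Tz x = 1 := by
    ext i j
    rw [hTz, hπ']
  have h1mem : intMap x x 1 = 0 := by
    funext l
    simp
  have hΦ0 : Φz x = 1 := by
    simp [Φz, hT0, h1mem]
  have hf0 : f.1 x ≠ 0 := by
    rw [hf, hT0, hΦ0]; simp
  have hfJ : f ∉ vanish ρ S := fun h => hf0 (mem_vanish.mp h i₀ hi₀)
  -- points where `f` vanishes form a finite set
  have hfin : {i ∈ S | f.1 (ρ i) = 0}.Finite := by
    by_contra hinf
    have h1 := hmax' {i ∈ S | f.1 (ρ i) = 0} (Set.sep_subset _ _) hinf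
    apply hfJ
    rw [← h1, mem_vanish]
    exact fun i hi => hi.2
  obtain ⟨i₁, hi₁S, hi₁⟩ : ∃ i ∈ S, i ∉ insert i₀ {i ∈ S | f.1 (ρ i) = 0} :=
    hSinf.exists_notMem_finite (hfin.insert i₀)
  rw [Set.mem_insert_iff, not_or] at hi₁
  have hfi₁ : f.1 (ρ i₁) ≠ 0 := fun h => hi₁.2 ⟨hi₁S, h⟩
  rw [hf] at hfi₁
  have hTdet : (Tz (ρ i₁)).det ≠ 0 := left_ne_zero_of_mul hfi₁
  have hΦdet : (Φz (ρ i₁)).det ≠ 0 := right_ne_zero_of_mul hfi₁
  refine ⟨i₀, i₁, Ne.symm hi₁.1, Φz (ρ i₁), isUnit_iff_ne_zero.mpr hΦdet, ?_⟩
  -- the kernel of `π ∘ intMap` equals the intertwiners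
  set z := ρ i₁ with hz
  have hker : LinearMap.ker (π ∘ₗ intMap x z) = inter x z := by
    symm
    apply Submodule.eq_of_le_of_finrank_le
    · intro φ hφ
      have : intMap x z φ = 0 := hφ
      simp [LinearMap.mem_ker, this]
    · refine le_trans ?_ (hge i₀ i₁)
      -- the composite is surjective
      have hsurj : LinearMap.range (π ∘ₗ intMap x z) = ⊤ := by
        rw [LinearMap.range_eq_top]
        intro w
        have hunit : IsUnit (Tz z).det := isUnit_iff_ne_zero.mpr hTdet
        refine ⟨∑ j, ((Tz z)⁻¹.mulVec w) j • (b j : Matrix n n F), ?_⟩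
        rw [map_sum]
        funext i
        simp only [LinearMap.comp_apply, map_smul, Finset.sum_apply, Pi.smul_apply, smul_eq_mul]
        have : ∑ j, ((Tz z)⁻¹.mulVec w) j * π (intMap x z (b j : Matrix n n F)) i =
            ((Tz z).mulVec ((Tz z)⁻¹.mulVec w)) i := by
          simp only [Matrix.mulVec, dotProduct]
          refine Finset.sum_congr rfl fun j _ => ?_
          rw [hTz]; ring
        rw [this, Matrix.mulVec_mulVec, Matrix.mul_nonsing_inv _ hunit, Matrix.one_mulVec]
      have h2 := LinearMap.finrank_range_add_finrank_ker (π ∘ₗ intMap x z)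
      rw [hsurj, finrank_top, finrank_fin_fun, ← hdim] at h2
      omega
  have hmem : Φz z ∈ LinearMap.ker (π ∘ₗ intMap x z) := by
    rw [LinearMap.mem_ker]
    funext i
    simp only [Φz, LinearMap.comp_apply, map_sub, map_smul, map_sum, Pi.sub_apply, Pi.smul_apply,
      Finset.sum_apply, smul_eq_mul, Pi.zero_apply]
    have : ∑ j, ((Tz z).adjugate.mulVec (fun i => π (intMap x z 1) i)) j *
        π (intMap x z (b j : Matrix n n F)) i =
        ((Tz z).mulVec ((Tz z).adjugate.mulVec (fun i => π (intMap x z 1) i))) i := by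
      simp only [Matrix.mulVec, dotProduct]
      refine Finset.sum_congr rfl fun j _ => ?_
      rw [hTz]; ring
    rw [this, Matrix.mulVec_mulVec, Matrix.mul_adjugate, Matrix.smul_mulVec, Matrix.one_mulVec]
    simp
  rw [hker] at hmem
  exact mem_inter.mp hmem

end Matrices

section Modules

variable {F B : Type*} [Field F] [CommRing B] [Algebra F B] [Module.Finite F B]

/-- Module version of `exists_similar`. -/
theorem exists_linearEquiv (V : ℕ → Type*) [∀ i, AddCommGroup (V i)] [∀ i, Module F (V i)]
    [∀ i, Module B (V i)] [∀ i, IsScalarTower F B (V i)] [∀ i, Module.Finite F (V i)] {D a : ℕ}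
    (hD : ∀ i, finrank F (V i) = D)
    (hge : ∀ i j, a ≤ finrank F (V i →ₗ[B] V j))
    (heq : ∀ i, finrank F (V i →ₗ[B] V i) = a) :
    ∃ i j, i ≠ j ∧ Nonempty (V i ≃ₗ[B] V j) := by
  classical
  let bV : ∀ i, Basis (Fin D) F (V i) := fun i => finBasisOfFinrankEq F (V i) (hD i)
  let β := finBasis F B
  let ρ : ℕ → Fin (finrank F B) → Matrix (Fin D) (Fin D) F := fun i l =>
    LinearMap.toMatrix (bV i) (bV i) (Algebra.lsmul F F (V i) (β l))
  -- comparison map
  let comp : ∀ i j, (V i →ₗ[B] V j) →ₗ[F] Matrix (Fin D) (Fin D) F := fun i j =>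
    (LinearMap.toMatrix (bV i) (bV j)).toLinearMap ∘ₗ
      (LinearMap.restrictScalarsₗ F B (V i) (V j) F)
  have hcomp : ∀ i j (φ : V i →ₗ[B] V j), comp i j φ =
      LinearMap.toMatrix (bV i) (bV j) (φ.restrictScalars F) := fun _ _ _ => rfl
  have hinj : ∀ i j, Function.Injective (comp i j) := by
    intro i j φ ψ h
    rw [hcomp, hcomp] at h
    have := (LinearMap.toMatrix (bV i) (bV j)).injective h
    ext v
    exact LinearMap.congr_fun this v
  have hrange : ∀ i j, LinearMap.range (comp i j) = inter (ρ i) (ρ j) := by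
    intro i j
    ext M
    rw [mem_inter]
    constructor
    · rintro ⟨φ, rfl⟩ l
      rw [hcomp, ← LinearMap.toMatrix_comp, ← LinearMap.toMatrix_comp]
      congr 1
      ext v
      simp
    · intro h
      let φ : V i →ₗ[F] V j := Matrix.toLin (bV i) (bV j) M
      have hφ : LinearMap.toMatrix (bV i) (bV j) φ = M := LinearMap.toMatrix_toLin _ _ _
      have h1 : ∀ l (v : V i), φ (β l • v) = β l • φ v := by
        intro l v
        have h2 := h l
        rw [← hφ, ← LinearMap.toMatrix_comp, ← LinearMap.toMatrix_comp] at h2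
        have h3 := (LinearMap.toMatrix (bV i) (bV j)).injective h2
        simpa using LinearMap.congr_fun h3 v
      have h2 : ∀ (c : B) (v : V i), φ (c • v) = c • φ v := by
        intro c v
        rw [← β.sum_repr c, Finset.sum_smul, map_sum, Finset.sum_smul]
        refine Finset.sum_congr rfl fun l _ => ?_
        rw [smul_assoc, map_smul, h1, smul_assoc]
      refine ⟨{ φ with map_smul' := h2 }, ?_⟩
      rw [hcomp, ← hφ]
      congr 1
  have hfr : ∀ i j, finrank F (inter (ρ i) (ρ j)) = finrank F (V i →ₗ[B] V j) := by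
    intro i j
    rw [← hrange, LinearMap.finrank_range_of_inj (hinj i j)]
  obtain ⟨i, j, hij, φ, hφ, hφ'⟩ := exists_similar ρ a
    (fun i j => by rw [hfr]; exact hge i j) (fun i => by rw [hfr]; exact heq i)
  refine ⟨i, j, hij, ?_⟩
  have hmem : φ ∈ LinearMap.range (comp i j) := by
    rw [hrange, mem_inter]; exact hφ'
  obtain ⟨ψ, hψ⟩ := hmem
  have hbij : Function.Bijective ψ := by
    have h1 : LinearMap.toMatrix (bV i) (bV j) (ψ.restrictScalars F) = φ := hψ
    let e := LinearEquiv.ofIsUnitDet (f := ψ.restrictScalars F) (v := bV i) (v' := bV j)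
      (by rw [h1]; exact hφ)
    have : ⇑e = ⇑ψ := rfl
    rw [← this]
    exact e.bijective
  exact ⟨LinearEquiv.ofBijective ψ hbij⟩

end Modules

end Pool.Agent.Lib.MP_682396_ag
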