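import Pool.Agent.Lib.MP_682396_ag.Sequence

/-!
# Modules that are free over a power series ring
-/

set_option autoImplicit false
set_option linter.unusedSectionVars false

open Module
open scoped Pointwise

universe u v w

namespace Pool.Agent.Lib.MP_682396_ag

open Tw

section Decomp

variable {K : Type*} [Field K] {d : ℕ}

open MvPowerSeries in
theorem exists_decomp (s : Finset (Fin d)) (c : Fin d → ℕ) (f : MvPowerSeries (Fin d) K)
    (h : ∀ α : Fin d →₀ ℕ, (∀ l ∈ s, α l < c l) → coeff α f = 0) :
    ∃ g : Fin d → MvPowerSeries (Fin d) K, f = ∑ l ∈ s, X l ^ c l * g l := by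
  classical
  induction s using Finset.induction_on generalizing f with
  | empty =>
    refine ⟨0, ?_⟩
    rw [Finset.sum_empty]
    ext α
    rw [h α (by simp), coeff_zero]
  | insert l s hl ih =>
    let f₁ : MvPowerSeries (Fin d) K := fun α => if α l < c l then 0 else coeff α f
    let f₂ : MvPowerSeries (Fin d) K := fun α => if α l < c l then coeff α f else 0
    have h₁ : ∀ α, coeff α f₁ = if α l < c l then 0 else coeff α f := fun _ => rfl
    have h₂ : ∀ α, coeff α f₂ = if α l < c l then coeff α f else 0 := fun _ => rfl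
    have hsum : f = f₁ + f₂ := by
      ext α
      rw [map_add, h₁, h₂]
      split_ifs <;> simp
    obtain ⟨g₁, hg₁⟩ : X l ^ c l ∣ f₁ := by
      rw [X_pow_dvd_iff]
      intro α hα
      rw [h₁, if_pos hα]
    obtain ⟨g₂, hg₂⟩ := ih f₂ (by
      intro α hα
      rw [h₂]
      split_ifs with h3
      · apply h
        intro l' hl'
        rcases Finset.mem_insert.mp hl' with rfl | h4
        · exact h3
        · exact hα l' h4
      · rfl)
    refine ⟨fun l' => if l' = l then g₁ else g₂ l', ?_⟩
    rw [Finset.sum_insert hl]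
    simp only [if_true]
    rw [hsum, hg₁]
    congr 1
    rw [hg₂]
    refine Finset.sum_congr rfl fun l' hl' => ?_
    rw [if_neg]
    rintro rfl
    exact hl hl'

open MvPowerSeries in
theorem coeff_X_mul' (α : Fin d →₀ ℕ) (l : Fin d) (f : MvPowerSeries (Fin d) K) :
    coeff α (X l * f) = if 0 < α l then coeff (α - Finsupp.single l 1) f else 0 := by
  rw [X_def, coeff_monomial_mul]
  have : Finsupp.single l 1 ≤ α ↔ 0 < α l := by
    rw [Finsupp.single_le_iff]
    exact Nat.succ_le_iff
  simp only [this, one_mul]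

end Decomp

section Free

variable {K : Type*} [Field K] {d : ℕ} {R : Type u} [CommRing R]
  [Algebra (MvPowerSeries (Fin d) K) R] {M : Type u} [AddCommGroup M] [Module R M]
  [Module (MvPowerSeries (Fin d) K) M] [IsScalarTower (MvPowerSeries (Fin d) K) R M]
  {Q : Type*} [Fintype Q] (b : Basis Q (MvPowerSeries (Fin d) K) M)

/-- The images of the variables. -/
noncomputable def xs (K : Type*) [Field K] (d : ℕ) (R : Type u) [CommRing R]
    [Algebra (MvPowerSeries (Fin d) K) R] (l : Fin d) : R :=
  algebraMap (MvPowerSeries (Fin d) K) R (MvPowerSeries.X l)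

theorem xs_pow_smul (l : Fin d) (k : ℕ) (m : M) :
    xs K d R l ^ k • m = (MvPowerSeries.X l : MvPowerSeries (Fin d) K) ^ k • m := by
  rw [xs, ← map_pow, algebraMap_smul]

theorem xs_smul (l : Fin d) (m : M) :
    xs K d R l • m = (MvPowerSeries.X l : MvPowerSeries (Fin d) K) • m := by
  rw [xs, algebraMap_smul]

theorem mem_levS_iff (s : Set (Fin d)) (c : Fin d → ℕ) (m : M) :
    m ∈ levS (xs K d R) M s c ↔
      ∀ (q : Q) (α : Fin d →₀ ℕ), (∀ l ∈ s, α l < c l) → (b.repr m q).coeff α = 0 := by
  classical
  constructor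
  · intro hm q α hα
    unfold levS at hm
    induction hm using Submodule.iSup_induction' with
    | mem l w hw =>
      by_cases hl : l ∈ s
      · rw [iSup_pos hl] at hw
        obtain ⟨w', -, rfl⟩ := Submodule.mem_smul_pointwise_iff_exists _ _ _ |>.mp hw
        rw [xs_pow_smul, map_smul, Finsupp.smul_apply, smul_eq_mul]
        exact MvPowerSeries.X_pow_dvd_iff.mp ⟨_, rfl⟩ α (hα l hl)
      · rw [iSup_neg hl, Submodule.mem_bot] at hw
        rw [hw, map_zero, Finsupp.zero_apply, map_zero]
    | zero => rw [map_zero, Finsupp.zero_apply, map_zero]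
    | add w w' _ _ h h' => rw [map_add, Finsupp.add_apply, map_add, h, h', add_zero]
  · intro h
    rw [← b.sum_repr m]
    refine Submodule.sum_mem _ fun q _ => ?_
    obtain ⟨g, hg⟩ := exists_decomp s.toFinset c (b.repr m q) (by
      intro α hα
      exact h q α fun l hl => hα l (Set.mem_toFinset.mpr hl))
    rw [hg, Finset.sum_smul]
    refine Submodule.sum_mem _ fun l hl => ?_
    rw [mul_smul, ← xs_pow_smul (R := R)]
    have h1 : (xs K d R l ^ c l) • (⊤ : Submodule R M) ≤ levS (xs K d R) M s c :=
      le_biSup (fun l => (xs K d R l ^ c l) • (⊤ : Submodule R M)) (Set.mem_toFinset.mp hl)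
    exact h1 (Submodule.smul_mem_pointwise_smul _ _ ⊤ trivial)

theorem mem_lev_iff' (c : Fin d → ℕ) (m : M) :
    m ∈ lev (xs K d R) M c ↔
      ∀ (q : Q) (α : Fin d →₀ ℕ), (∀ l, α l < c l) → (b.repr m q).coeff α = 0 := by
  rw [← levS_univ, mem_levS_iff b]
  simp only [Set.mem_univ, forall_true_left]

theorem coeff_xs_smul (l : Fin d) (m : M) (q : Q) (α : Fin d →₀ ℕ) :
    (b.repr (xs K d R l • m) q).coeff α =
      if 0 < α l then (b.repr m q).coeff (α - Finsupp.single l 1) else 0 := by
  rw [xs_smul, map_smul, Finsupp.smul_apply, smul_eq_mul, coeff_X_mul']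

include b in
theorem regSys_of_basis : RegSys (xs K d R) M := by
  intro s c l m hl hc hm
  rw [mem_levS_iff b] at hm ⊢
  intro q α hα
  have h1 := hm q (α + Finsupp.single l 1) (by
    intro l' hl'
    have : l ≠ l' := by rintro rfl; exact hl hl'
    rw [Finsupp.add_apply, Finsupp.single_eq_of_ne this.symm, add_zero]
    exact hα l' hl')
  rw [coeff_xs_smul, if_pos, add_tsub_cancel_right] at h1
  · exact h1
  · rw [Finsupp.add_apply, Finsupp.single_eq_same]
    omega

end Free

section MkCoord

variable {K : Type*} [Field K] {R : Type u} [CommRing R] [Algebra K R] {Q : Type*} [Fintype Q]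
  [DecidableEq Q] {d : ℕ} {x : Fin d → R} {M : Type u} [AddCommGroup M] [Module R M]

/-- Coordinates determine the action. -/
theorem exists_coord (θ : M →+ (Q × (Fin d → Fin 5) → K))
    (hK : ∀ (c : K) (m : M) (a : Q × (Fin d → Fin 5)), θ (algebraMap K R c • m) a = c * θ m a)
    (surj : Function.Surjective θ) (ker : ∀ m, θ m = 0 ↔ m ∈ lev x M fun _ => 5)
    (hs : ∀ (l : Fin d) (m : M) (a : Q × (Fin d → Fin 5)), θ (x l • m) a =
      if 0 < (a.2 l).val then
        θ m (a.1, Function.update a.2 l ⟨(a.2 l).val - 1, by omega⟩) else 0) :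
    Nonempty (Coord K Q x M) := by
  choose mb hmb using fun b : Q × (Fin d → Fin 5) => surj (Pi.single b 1)
  have hsmul : ∀ (r : R) (m : M) (a : Q × (Fin d → Fin 5)),
      θ (r • m) a = ∑ b, θ (r • mb b) a * θ m b := by
    intro r m a
    have h1 : θ (m - ∑ b, algebraMap K R (θ m b) • mb b) = 0 := by
      funext a'
      rw [map_sub, map_sum, Pi.sub_apply, Finset.sum_apply, Finset.sum_eq_single a']
      · rw [hK, hmb, Pi.single_eq_same, mul_one, sub_self]
        rfl
      · intro b _ hb
        rw [hK, hmb, Pi.single_eq_of_ne hb.symm, mul_zero]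
      · intro h
        exact absurd (Finset.mem_univ _) h
    have h2 : θ (r • (m - ∑ b, algebraMap K R (θ m b) • mb b)) = 0 :=
      (ker _).mpr (Submodule.smul_mem _ r ((ker _).mp h1))
    have h3 := congrFun h2 a
    rw [smul_sub, map_sub, Finset.smul_sum, map_sum, Pi.sub_apply, Finset.sum_apply,
      Pi.zero_apply, sub_eq_zero] at h3
    rw [h3]
    refine Finset.sum_congr rfl fun b _ => ?_
    rw [smul_comm, hK, mul_comm]
  have hsingle : ∀ a b : Q × (Fin d → Fin 5), θ (mb b) a = if a = b then 1 else 0 := by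
    intro a b
    rw [hmb, Pi.single_apply]
  let ρ : R →+* Matrix (Q × (Fin d → Fin 5)) (Q × (Fin d → Fin 5)) K :=
    { toFun := fun r => Matrix.of fun a b => θ (r • mb b) a
      map_one' := by
        ext a b
        rw [Matrix.of_apply, one_smul, hsingle, Matrix.one_apply]
      map_mul' := fun p q => by
        ext a b
        rw [Matrix.of_apply, mul_smul, hsmul, Matrix.mul_apply]
        rfl
      map_zero' := by
        ext a b
        rw [Matrix.of_apply, zero_smul, map_zero]
        rfl
      map_add' := fun p q => by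
        ext a b
        rw [Matrix.of_apply, add_smul, map_add]
        rfl }
  have hρ : ∀ r a b, ρ r a b = θ (r • mb b) a := fun _ _ _ => rfl
  refine ⟨⟨ρ, θ, ?_, ?_, ?_, surj, ker⟩⟩
  · intro l
    ext a b
    rw [hρ, hs]
    unfold shiftMat
    by_cases h0 : 0 < (a.2 l).val
    · rw [if_pos h0, hsingle]
      congr 1
      rw [eq_iff_iff]
      constructor
      · intro h
        rw [← h]
        exact ⟨rfl, h0, rfl⟩
      · rintro ⟨h1, -, h2⟩
        exact Prod.ext h1 h2.symm
    · rw [if_neg h0, if_neg]
      exact fun h => h0 h.2.1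
  · intro c a b
    rw [hρ, hK, hsingle]
    split_ifs
    · rw [mul_one]
    · rw [mul_zero]
  · intro r m a
    exact hsmul r m a

end MkCoord

section Free2

variable {K : Type*} [Field K] {d : ℕ} {R : Type u} [CommRing R] [Algebra K R]
  [Algebra (MvPowerSeries (Fin d) K) R] [IsScalarTower K (MvPowerSeries (Fin d) K) R]
  {M : Type u} [AddCommGroup M] [Module R M]
  [Module (MvPowerSeries (Fin d) K) M] [IsScalarTower (MvPowerSeries (Fin d) K) R M]
  {Q : Type*} [Fintype Q] [DecidableEq Q] (b : Basis Q (MvPowerSeries (Fin d) K) M)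

/-- The exponent attached to an index. -/
noncomputable def expo (β : Fin d → Fin 5) : Fin d →₀ ℕ :=
  Finsupp.equivFunOnFinite.symm fun l => (β l).val

theorem expo_apply (β : Fin d → Fin 5) (l : Fin d) : expo β l = (β l).val := rfl

theorem exists_expo {α : Fin d →₀ ℕ} (h : ∀ l, α l < 5) : ∃ β : Fin d → Fin 5, expo β = α :=
  ⟨fun l => ⟨α l, h l⟩, Finsupp.ext fun _ => rfl⟩

include b in
theorem exists_coord_of_basis : Nonempty (Coord K Q (xs K d R) M) := by
  let θ : M →+ (Q × (Fin d → Fin 5) → K) :=
    { toFun := fun m a => (b.repr m a.1).coeff (expo a.2)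
      map_zero' := by
        funext a
        rw [map_zero, Finsupp.zero_apply, map_zero]
        rfl
      map_add' := fun m m' => by
        funext a
        rw [map_add, Finsupp.add_apply, map_add]
        rfl }
  have hθ : ∀ m a, θ m a = (b.repr m a.1).coeff (expo a.2) := fun _ _ => rfl
  apply exists_coord θ
  · intro c m a
    rw [hθ, hθ, IsScalarTower.algebraMap_apply K (MvPowerSeries (Fin d) K) R, algebraMap_smul,
      map_smul, Finsupp.smul_apply, ← MvPowerSeries.c_eq_algebraMap, smul_eq_mul,
      MvPowerSeries.coeff_C_mul]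
  · intro v
    let f : Q → MvPowerSeries (Fin d) K := fun q α =>
      if h : ∀ l, α l < 5 then v (q, fun l => ⟨α l, h l⟩) else 0
    refine ⟨b.equivFun.symm f, ?_⟩
    funext a
    rw [hθ, ← b.equivFun_apply, LinearEquiv.apply_symm_apply]
    show (if h : ∀ l, expo a.2 l < 5 then v (a.1, fun l => ⟨expo a.2 l, h l⟩) else 0) = v a
    rw [dif_pos fun l => by rw [expo_apply]; exact (a.2 l).isLt]
    rfl
  · intro m
    rw [mem_lev_iff' b]
    constructor
    · intro h q α hα
      obtain ⟨β, rfl⟩ := exists_expo hα
      exact congrFun h (q, β)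
    · intro h
      funext a
      exact h a.1 (expo a.2) fun l => by rw [expo_apply]; exact (a.2 l).isLt
  · intro l m a
    rw [hθ, coeff_xs_smul, expo_apply]
    split_ifs with h0
    · rw [hθ]
      congr 1
      congr 1
      ext l'
      rw [Finsupp.tsub_apply, expo_apply, expo_apply, update_val]
      by_cases h1 : l' = l
      · subst h1
        rw [Finsupp.single_eq_same, if_pos rfl]
      · rw [Finsupp.single_eq_of_ne h1, if_neg h1, Nat.sub_zero]
    · rfl

end Free2

end Pool.Agent.Lib.MP_682396_ag
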