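import Pool.Agent.Lib.MP_682396_ag.MCM
import Pool.Agent.Lib.MP_682396_ag.PowerSeries

/-!
# Maximal Cohen-Macaulay modules are free over a power series ring
-/

set_option autoImplicit false
set_option linter.unusedSectionVars false

open Module IsLocalRing RingTheory.Sequence
open scoped Pointwise nonZeroDivisors

universe u v

namespace Pool.Agent.Lib.MP_682396_ag

/-- A module on which generators of the maximal ideal form a regular sequence is free. -/
theorem free_of_isWeaklyRegular (n : ℕ) : ∀ (A : Type u) [CommRing A] [IsNoetherianRing A]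
    [IsLocalRing A] (M : Type v) [AddCommGroup M] [Module A M] [Module.Finite A M] (ys : List A),
    ys.length = n → Ideal.ofList ys = maximalIdeal A → IsWeaklyRegular M ys →
    Module.Free A M := by
  induction n with
  | zero =>
    intro A _ _ _ M _ _ _ ys hlen hmax _
    rw [List.length_eq_zero_iff] at hlen
    subst hlen
    rw [Ideal.ofList_nil] at hmax
    have hf : IsField A := IsLocalRing.isField_iff_maximalIdeal_eq.mpr hmax.symm
    let _ : Field A := hf.toField
    infer_instance
  | succ n ih =>
    intro A _ _ _ M _ _ _ ys hlen hmax hreg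
    obtain ⟨y, ys, rfl⟩ : ∃ y ys', ys = y :: ys' := by
      cases ys with
      | nil => simp at hlen
      | cons y ys => exact ⟨y, ys, rfl⟩
    rw [isWeaklyRegular_cons_iff'] at hreg
    obtain ⟨hy, hys⟩ := hreg
    have hym : y ∈ maximalIdeal A := by
      rw [← hmax, Ideal.ofList_cons]
      exact (le_sup_left : Ideal.span {y} ≤ _) (Ideal.mem_span_singleton_self y)
    have hne : Ideal.span {y} ≠ (⊤ : Ideal A) := by
      intro h
      rw [Ideal.span_singleton_eq_top] at h
      exact hym h
    have hnt : Nontrivial (A ⧸ Ideal.span {y}) := Ideal.Quotient.nontrivial_iff.mpr hne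
    have hloc : IsLocalRing (A ⧸ Ideal.span {y}) :=
      IsLocalRing.of_surjective' _ Ideal.Quotient.mk_surjective
    have hmaxq : (maximalIdeal A).map (Ideal.Quotient.mk (Ideal.span {y})) =
        maximalIdeal (A ⧸ Ideal.span {y}) := by
      have h1 : ((maximalIdeal (A ⧸ Ideal.span {y})).comap
          (Ideal.Quotient.mk (Ideal.span {y}))).IsMaximal :=
        Ideal.comap_isMaximal_of_surjective _ Ideal.Quotient.mk_surjective
      rw [← IsLocalRing.eq_maximalIdeal h1,
        Ideal.map_comap_of_surjective _ Ideal.Quotient.mk_surjective]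
    have hfin : Module.Finite (A ⧸ Ideal.span {y}) (QuotSMulTop y M) :=
      Module.Finite.of_restrictScalars_finite A (A ⧸ Ideal.span {y}) (QuotSMulTop y M)
    have h2 : Module.Free (A ⧸ Ideal.span {y}) (QuotSMulTop y M) := by
      refine ih (A ⧸ Ideal.span {y}) (QuotSMulTop y M)
        (ys.map (Ideal.Quotient.mk (Ideal.span {y}))) ?_ ?_ hys
      · rw [List.length_map]
        simpa using hlen
      · rw [← hmaxq, ← hmax, ← Ideal.map_ofList, Ideal.ofList_cons, Ideal.map_sup,
          Ideal.map_quotient_self, bot_sup_eq]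
    have hpres : Module.FinitePresentation A M := Module.finitePresentation_of_finite A M
    refine (Module.free_quotSMulTop_iff_free A M (x := y) ?_ hy).mp h2
    rw [IsLocalRing.jacobson_eq_maximalIdeal ⊥ bot_ne_top]
    exact hym

section Depth

variable {R : Type u} [CommRing R] [IsDomain R] [IsNoetherianRing R] [IsLocalRing R]

/-- Modules of maximal depth over a domain are torsion-free. -/
theorem isTorsionFree_of_depth {M : Type u} [AddCommGroup M] [Module R M] [Module.Finite R M]
    {rs : List R} (hmem : ∀ r ∈ rs, r ∈ maximalIdeal R) (hreg : IsWeaklyRegular M rs)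
    (hlen : ((rs.length : ℕ∞) : WithBot ℕ∞) = ringKrullDim R) : IsTorsionFree R M := by
  refine ⟨fun a ha => ?_⟩
  have ha0 : a ≠ 0 := ha.ne_zero
  by_contra hcon
  have h1 : ∃ m : M, m ≠ 0 ∧ a • m = 0 := by
    by_contra h2
    push Not at h2
    apply hcon
    intro m m' hab
    by_contra hne
    exact h2 (m - m') (sub_ne_zero.mpr hne) (by
      rw [smul_sub]
      exact sub_eq_zero.mpr hab)
  have h2 : a ∈ ⋃ p ∈ associatedPrimes R M, (p : Set R) := by
    rw [biUnion_associatedPrimes_eq_zero_divisors]
    exact h1
  simp only [Set.mem_iUnion] at h2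
  obtain ⟨p, hp, hap⟩ := h2
  have hpp := IsAssociatedPrime.isPrime hp
  have h3 := le_dim_of_mem_ass rs M hmem hreg p hp
  have h4 : ringKrullDim (R ⧸ p) + 1 ≤ ringKrullDim R :=
    ringKrullDim_succ_le_of_surjective (Ideal.Quotient.mk p) Ideal.Quotient.mk_surjective
      (mem_nonZeroDivisors_of_ne_zero ha0) (Ideal.Quotient.eq_zero_iff_mem.mpr hap)
  have h5 : ((rs.length : ℕ∞) : WithBot ℕ∞) + 1 ≤ ((rs.length : ℕ∞) : WithBot ℕ∞) := by
    conv_rhs => rw [hlen]
    exact le_trans (by gcongr) h4
  have h6 : rs.length + 1 ≤ rs.length := by exact_mod_cast h5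
  omega

end Depth

section Embed

variable {R : Type*} [CommRing R] [IsDomain R] [IsNoetherianRing R]

/-- A torsion-free module embeds in a free module of the same rank. -/
theorem exists_embedding (M : Type*) [AddCommGroup M] [Module R M] [Module.Finite R M]
    [IsTorsionFree R M] : ∃ f : M →ₗ[R] (Fin (finrank R M) → R), Function.Injective f := by
  obtain ⟨v, hv⟩ := exists_linearIndependent_of_le_finrank (le_refl (finrank R M))
  let f : (Fin (finrank R M) → R) →ₗ[R] M := Fintype.linearCombination R v
  have hf : Function.Injective f := by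
    exact linearIndependent_iff_injective_fintypeLinearCombination.mp hv
  have hr : finrank R (LinearMap.range f) = finrank R M := by
    rw [LinearMap.finrank_range_of_inj hf, finrank_fin_fun]
  have h0 : finrank R (M ⧸ LinearMap.range f) = 0 := by
    have := Submodule.finrank_quotient_add_finrank (LinearMap.range f)
    omega
  have htor : Module.IsTorsion R (M ⧸ LinearMap.range f) := by
    exact Module.finrank_eq_zero_iff_isTorsion.mp h0
  obtain ⟨c, hc, hc'⟩ := Submodule.annihilator_top_inter_nonZeroDivisors htor
  have hmem : ∀ m : M, (c • LinearMap.id : M →ₗ[R] M) m ∈ LinearMap.range f := by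
    intro m
    have h1 := (Submodule.mem_annihilator.mp hc) (Submodule.Quotient.mk m) trivial
    rw [← Submodule.Quotient.mk_smul, Submodule.Quotient.mk_eq_zero] at h1
    exact h1
  let e := LinearEquiv.ofInjective f hf
  refine ⟨e.symm.toLinearMap ∘ₗ LinearMap.codRestrict (LinearMap.range f) _ hmem, ?_⟩
  refine e.symm.injective.comp ?_
  intro m m' h
  have h2 : c • m = c • m' := congrArg Subtype.val h
  exact smul_right_injective M (nonZeroDivisors.ne_zero hc') h2

end Embed

section PowerSeries

variable {K : Type*} [Field K] {d : ℕ}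

theorem ofList_X : Ideal.ofList (List.ofFn fun l : Fin d => (MvPowerSeries.X l :
    MvPowerSeries (Fin d) K)) = maximalIdeal (MvPowerSeries (Fin d) K) := by
  apply le_antisymm
  · rw [Ideal.ofList, Ideal.span_le]
    intro f hf
    simp only [Set.mem_ofPred_eq, List.mem_ofFn] at hf
    obtain ⟨l, rfl⟩ := hf
    rw [SetLike.mem_coe, mem_maximalIdeal, mem_nonunits_iff, MvPowerSeries.isUnit_iff_constantCoeff,
      MvPowerSeries.constantCoeff_X]
    exact not_isUnit_zero
  · intro f hf
    rw [mem_maximalIdeal, mem_nonunits_iff, MvPowerSeries.isUnit_iff_constantCoeff,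
      isUnit_iff_ne_zero, not_not] at hf
    obtain ⟨g, hg⟩ := exists_decomp (Finset.univ : Finset (Fin d)) (fun _ => 1) f (by
      intro α hα
      have h0 : α = 0 := by
        ext l
        have := hα l (Finset.mem_univ l)
        rw [Finsupp.zero_apply]
        omega
      rw [h0, MvPowerSeries.coeff_zero_eq_constantCoeff_apply, hf])
    rw [hg]
    refine Ideal.sum_mem _ fun l _ => ?_
    rw [pow_one]
    apply Ideal.mul_mem_right
    apply Ideal.subset_span
    simp only [Set.mem_ofPred_eq, List.mem_ofFn]
    exact ⟨l, rfl⟩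

/-- Modules of maximal depth are free over a power series ring given by a system of
parameters. -/
theorem free_of_depth {R : Type u} [CommRing R] [IsNoetherianRing R] [IsLocalRing R]
    [Algebra (MvPowerSeries (Fin d) K) R] [Module.Finite (MvPowerSeries (Fin d) K) R]
    [IsNoetherianRing (MvPowerSeries (Fin d) K)]
    (hx : ∀ l, xs K d R l ∈ maximalIdeal R)
    (hrad : maximalIdeal R ≤ (Ideal.ofList (List.ofFn (xs K d R))).radical)
    {M : Type u} [AddCommGroup M] [Module R M] [Module.Finite R M]
    [Module (MvPowerSeries (Fin d) K) M] [IsScalarTower (MvPowerSeries (Fin d) K) R M]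
    {rs : List R} (hmem : ∀ r ∈ rs, r ∈ maximalIdeal R) (hreg : IsWeaklyRegular M rs)
    (hlen : rs.length = d) :
    Module.Finite (MvPowerSeries (Fin d) K) M ∧ Module.Free (MvPowerSeries (Fin d) K) M := by
  have hfin : Module.Finite (MvPowerSeries (Fin d) K) M := Module.Finite.trans R M
  refine ⟨hfin, ?_⟩
  have h1 : IsWeaklyRegular M (List.ofFn (xs K d R)) := by
    apply isWeaklyRegular_of_sop (List.ofFn (xs K d R)) M rs _ hmem hreg
    · intro y hy
      rw [List.mem_ofFn] at hy
      obtain ⟨l, rfl⟩ := hy
      exact hx l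
    · exact hrad.trans (Ideal.radical_mono le_sup_right)
    · rw [hlen, List.length_ofFn]
  have h2 : List.ofFn (xs K d R) = (List.ofFn fun l : Fin d => (MvPowerSeries.X l :
      MvPowerSeries (Fin d) K)).map (algebraMap (MvPowerSeries (Fin d) K) R) := by
    rw [List.map_ofFn]
    rfl
  rw [h2, isWeaklyRegular_map_algebraMap_iff] at h1
  exact free_of_isWeaklyRegular d (MvPowerSeries (Fin d) K) M _ (List.length_ofFn) ofList_X h1

end PowerSeries

end Pool.Agent.Lib.MP_682396_ag
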