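import Mathlib

/-!
# Systems of parameters are regular on maximal Cohen-Macaulay modules
-/

set_option autoImplicit false
set_option linter.unusedSectionVars false

open Module IsLocalRing RingTheory.Sequence CategoryTheory CategoryTheory.Abelian
  CategoryTheory.Limits
open scoped Pointwise nonZeroDivisors

universe u

namespace Pool.Agent.Lib.MP_682396_ag

variable {R : Type u} [CommRing R] [IsNoetherianRing R] [IsLocalRing R]

/-- The length of a regular sequence is at most the dimension at each associated prime. -/
theorem le_dim_of_mem_ass (rs : List R) : ∀ (M : Type u) [AddCommGroup M] [Module R M]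
    [Module.Finite R M], (∀ r ∈ rs, r ∈ maximalIdeal R) → IsWeaklyRegular M rs →
    ∀ p : Ideal R, IsAssociatedPrime p M → ((rs.length : ℕ∞) : WithBot ℕ∞) ≤
      ringKrullDim (R ⧸ p) := by
  induction rs with
  | nil =>
    intro M _ _ _ _ _ p hp
    have := hp.isPrime
    simp only [List.length_nil, CharP.cast_eq_zero, WithBot.coe_zero]
    exact ringKrullDim_nonneg_of_nontrivial
  | cons x rs ih =>
    intro M _ _ _ hmem hreg p hp
    have hpp := hp.isPrime
    obtain ⟨-, z₀, hz₀⟩ := isAssociatedPrime_iff.mp hp
    have hz₀' : ∀ a, a ∈ p ↔ a • z₀ = 0 := by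
      intro a
      rw [hz₀, Submodule.mem_colon_singleton, Submodule.mem_bot]
    rw [isWeaklyRegular_cons_iff] at hreg
    obtain ⟨hx, hrs⟩ := hreg
    have hxm : x ∈ maximalIdeal R := hmem x List.mem_cons_self
    have hxp : x ∉ p := by
      intro h
      have h1 : z₀ = 0 := by
        apply hx
        simp only [smul_zero]
        exact (hz₀' x).mp h
      apply hpp.ne_top
      rw [Ideal.eq_top_iff_one, hz₀', h1, smul_zero]
    -- the submodule killed by `p`
    let U : Submodule R M := Submodule.torsionBySet R M p
    have hU : ∀ m, m ∈ U ↔ ∀ a ∈ p, a • m = 0 := by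
      intro m
      rw [Submodule.mem_torsionBySet_iff]
      exact ⟨fun h a ha => h ⟨a, ha⟩, fun h a => h a.1 a.2⟩
    have hz₀U : z₀ ∈ U := (hU z₀).mpr fun a ha => (hz₀' a).mp ha
    obtain ⟨z, hzU, hz⟩ : ∃ z ∈ U, z ∉ (x • ⊤ : Submodule R M) := by
      by_contra hcon
      push Not at hcon
      have h1 : U ≤ maximalIdeal R • U := by
        intro u hu
        obtain ⟨m, -, rfl⟩ := Submodule.mem_smul_pointwise_iff_exists _ _ _ |>.mp (hcon u hu)
        apply Submodule.smul_mem_smul hxm
        rw [hU] at hu ⊢
        intro a ha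
        apply hx
        simp only [smul_zero]
        rw [smul_comm]
        exact hu a ha
      have h2 : U = ⊥ := Submodule.eq_bot_of_le_smul_of_le_jacobson_bot (maximalIdeal R) U
        (IsNoetherian.noetherian U) h1 (IsLocalRing.maximalIdeal_le_jacobson _)
      have h3 : z₀ = 0 := by
        rw [h2] at hz₀U
        exact (Submodule.mem_bot R).mp hz₀U
      apply hpp.ne_top
      rw [Ideal.eq_top_iff_one, hz₀', h3, smul_zero]
    have hz' : (Submodule.Quotient.mk z : QuotSMulTop x M) ≠ 0 := by
      intro h
      exact hz ((Submodule.Quotient.mk_eq_zero _).mp h)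
    obtain ⟨q, hq, hle⟩ := exists_le_isAssociatedPrime_of_isNoetherianRing R _ hz'
    have hqp := hq.isPrime
    have hpq : p ≤ q := by
      intro a ha
      apply hle
      rw [Submodule.mem_colon_singleton, Submodule.mem_bot, ← Submodule.Quotient.mk_smul,
        (hU z).mp hzU a ha, Submodule.Quotient.mk_zero]
    have hxq : x ∈ q := by
      apply hle
      rw [Submodule.mem_colon_singleton, Submodule.mem_bot, ← Submodule.Quotient.mk_smul]
      exact (Submodule.Quotient.mk_eq_zero _).mpr (Submodule.smul_mem_pointwise_smul _ _ ⊤ trivial)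
    have h4 := ih (QuotSMulTop x M) (fun r hr => hmem r (List.mem_cons_of_mem x hr)) hrs q hq
    have h5 : ringKrullDim (R ⧸ q) + 1 ≤ ringKrullDim (R ⧸ p) := by
      apply ringKrullDim_succ_le_of_surjective (Ideal.Quotient.factor hpq)
        (Ideal.Quotient.factor_surjective hpq) (r := Ideal.Quotient.mk p x)
      · apply mem_nonZeroDivisors_of_ne_zero
        rw [Ne, Ideal.Quotient.eq_zero_iff_mem]
        exact hxp
      · rw [Ideal.Quotient.factor_mk, Ideal.Quotient.eq_zero_iff_mem]
        exact hxq
    refine le_trans ?_ h5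
    rw [List.length_cons]
    push_cast
    exact add_le_add_left h4 1

theorem ext_quot (N M : ModuleCat.{u} R) {y : R} (hy : IsSMulRegular M y) {n : ℕ}
    (hext : ∀ i < n + 1, Subsingleton (Ext N M i)) :
    ∀ i < n, Subsingleton (Ext N (ModuleCat.of R (QuotSMulTop y M)) i) := by
  intro i hi
  have zero1 := AddCommGrpCat.isZero_of_iff_subsingleton.mpr (hext i (by omega))
  have zero2 := AddCommGrpCat.isZero_of_iff_subsingleton.mpr (hext (i + 1) (by omega))
  exact AddCommGrpCat.subsingleton_of_isZero <| ShortComplex.Exact.isZero_of_both_zeros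
    ((Ext.covariant_sequence_exact₃' N hy.smulShortComplex_shortExact) i (i + 1) rfl)
    (zero1.eq_zero_of_src _) (zero2.eq_zero_of_tgt _)

theorem smul_top_lt (L : Type u) [AddCommGroup L] [Module R L] [Module.Finite R L]
    [Nontrivial L] : maximalIdeal R • (⊤ : Submodule R L) < ⊤ := by
  rw [lt_top_iff_ne_top]
  exact (Submodule.top_ne_ideal_smul_of_le_jacobson_annihilator
    (maximalIdeal_le_jacobson _)).symm

/-- The depth drops by at most one modulo a regular element. -/
theorem exists_regular_quot {M : Type u} [AddCommGroup M] [Module R M] [Module.Finite R M]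
    [Nontrivial M] {rs : List R} {n : ℕ} (hlen : rs.length = n + 1)
    (hmem : ∀ r ∈ rs, r ∈ maximalIdeal R) (hreg : IsWeaklyRegular M rs) {y : R}
    (hy : y ∈ maximalIdeal R) (hyreg : IsSMulRegular M y) :
    ∃ rs' : List R, rs'.length = n ∧ (∀ r ∈ rs', r ∈ maximalIdeal R) ∧
      IsWeaklyRegular (QuotSMulTop y M) rs' := by
  have hreg' : IsRegular M rs :=
    (IsLocalRing.isRegular_iff_isWeaklyRegular_of_subset_maximalIdeal hmem).mpr hreg
  have hN : Module.support R (ModuleCat.of R (R ⧸ maximalIdeal R)) =
      PrimeSpectrum.zeroLocus (maximalIdeal R : Set R) := by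
    show Module.support R (R ⧸ maximalIdeal R) = _
    rw [Module.support_eq_zeroLocus, Ideal.annihilator_quotient]
  have hext := ModuleCat.subsingleton_ext_of_exists_isRegular (maximalIdeal R)
    (ModuleCat.of R (R ⧸ maximalIdeal R)) hN.subset (ModuleCat.of R M) (smul_top_lt M) rs hmem
    hreg'
  rw [hlen] at hext
  have := nontrivial_quotSMulTop_of_mem_maximalIdeal M hy
  obtain ⟨rs', hlen', hmem', hreg''⟩ := ModuleCat.exists_isRegular_of_exists_subsingleton_ext
    (maximalIdeal R) n (ModuleCat.of R (QuotSMulTop y M)) (smul_top_lt (QuotSMulTop y M))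
    (ModuleCat.of R (R ⧸ maximalIdeal R)) hN (ext_quot _ (ModuleCat.of R M) hyreg hext)
  exact ⟨rs', hlen', hmem', hreg''.toIsWeaklyRegular⟩

/-- The dimension of a quotient is at most the number of generators of an ideal of definition. -/
theorem dim_le_length (p : Ideal R) [hp : p.IsPrime] (ys : List R)
    (hys : ∀ y ∈ ys, y ∈ maximalIdeal R) (h : maximalIdeal R ≤ (p ⊔ Ideal.ofList ys).radical) :
    ringKrullDim (R ⧸ p) ≤ ((ys.length : ℕ∞) : WithBot ℕ∞) := by
  have hloc : IsLocalRing (R ⧸ p) := IsLocalRing.of_surjective' _ Ideal.Quotient.mk_surjective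
  rw [← IsLocalRing.maximalIdeal_height_eq_ringKrullDim, WithBot.coe_le_coe]
  classical
  let s : Finset (R ⧸ p) := (ys.map (Ideal.Quotient.mk p)).toFinset
  have hmax : maximalIdeal R = (maximalIdeal (R ⧸ p)).comap (Ideal.Quotient.mk p) := by
    have : ((maximalIdeal (R ⧸ p)).comap (Ideal.Quotient.mk p)).IsMaximal :=
      Ideal.comap_isMaximal_of_surjective _ Ideal.Quotient.mk_surjective
    exact (IsLocalRing.eq_maximalIdeal this).symm
  have hspan : Ideal.span (s : Set (R ⧸ p)) = (Ideal.ofList ys).map (Ideal.Quotient.mk p) := by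
    rw [Ideal.ofList, Ideal.map_span]
    congr 1
    ext t
    simp [s]
  have hmin : maximalIdeal (R ⧸ p) ∈ (Ideal.span (s : Set (R ⧸ p))).minimalPrimes := by
    refine ⟨⟨inferInstance, ?_⟩, ?_⟩
    · rw [hspan, Ideal.map_le_iff_le_comap, ← hmax, Ideal.ofList, Ideal.span_le]
      exact hys
    · rintro J ⟨hJ, hJle⟩ -
      rw [hspan, Ideal.map_le_iff_le_comap] at hJle
      have h1 : p ≤ J.comap (Ideal.Quotient.mk p) := by
        intro a ha
        rw [Ideal.mem_comap, Ideal.Quotient.eq_zero_iff_mem.mpr ha]
        exact J.zero_mem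
      have h2 : (J.comap (Ideal.Quotient.mk p)).IsPrime := Ideal.comap_isPrime _ _
      have h3 : maximalIdeal R ≤ J.comap (Ideal.Quotient.mk p) :=
        h.trans (h2.radical_le_iff.mpr (sup_le h1 hJle))
      rw [← Ideal.map_comap_of_surjective _ (Ideal.Quotient.mk_surjective (I := p))
        (maximalIdeal (R ⧸ p)), ← hmax, Ideal.map_le_iff_le_comap]
      exact h3
  refine (Ideal.height_le_card_of_mem_minimalPrimes_span_finset hmin).trans ?_
  have : s.card ≤ ys.length := (List.toFinset_card_le _).trans (by simp)
  exact_mod_cast this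

theorem isWeaklyRegular_of_subsingleton (ys : List R) : ∀ (M : Type u) [AddCommGroup M]
    [Module R M] [Subsingleton M], IsWeaklyRegular M ys := by
  induction ys with
  | nil =>
    intro M _ _ _
    exact IsWeaklyRegular.nil R M
  | cons y ys ih =>
    intro M _ _ _
    rw [isWeaklyRegular_cons_iff]
    have : Subsingleton (QuotSMulTop y M) := inferInstance
    exact ⟨fun a b _ => Subsingleton.elim a b, ih _⟩

/-- Systems of parameters are regular on modules of maximal depth. -/
theorem isWeaklyRegular_of_sop (ys : List R) : ∀ (M : Type u) [AddCommGroup M] [Module R M]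
    [Module.Finite R M] (rs : List R), rs.length = ys.length → (∀ r ∈ rs, r ∈ maximalIdeal R) →
    IsWeaklyRegular M rs → (∀ y ∈ ys, y ∈ maximalIdeal R) →
    maximalIdeal R ≤ (Module.annihilator R M ⊔ Ideal.ofList ys).radical →
    IsWeaklyRegular M ys := by
  induction ys with
  | nil =>
    intro M _ _ _ _ _ _ _ _ _
    exact IsWeaklyRegular.nil R M
  | cons y ys ih =>
    intro M _ _ _ rs hlen hmem hreg hymem hrad
    have hy : y ∈ maximalIdeal R := hymem y List.mem_cons_self
    have hys : ∀ z ∈ ys, z ∈ maximalIdeal R := fun z hz => hymem z (List.mem_cons_of_mem y hz)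
    rcases subsingleton_or_nontrivial M with hM | hM
    · exact isWeaklyRegular_of_subsingleton _ M
    have hyreg : IsSMulRegular M y := by
      by_contra hcon
      have h1 : ∃ m : M, m ≠ 0 ∧ y • m = 0 := by
        by_contra h2
        push Not at h2
        apply hcon
        intro a b hab
        by_contra hne
        exact h2 (a - b) (sub_ne_zero.mpr hne) (by
          rw [smul_sub]
          exact sub_eq_zero.mpr hab)
      have h2 : y ∈ ⋃ p ∈ associatedPrimes R M, (p : Set R) := by
        rw [biUnion_associatedPrimes_eq_zero_divisors]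
        exact h1
      simp only [Set.mem_iUnion] at h2
      obtain ⟨p, hp, hyp⟩ := h2
      have hpp := IsAssociatedPrime.isPrime hp
      have h3 := le_dim_of_mem_ass rs M hmem hreg p hp
      have h4 := dim_le_length p ys hys (by
        refine hrad.trans (Ideal.radical_mono ?_)
        rw [Ideal.ofList_cons]
        have h7 : Module.annihilator R M ≤ p := by
          rw [← Submodule.annihilator_top]
          exact IsAssociatedPrime.annihilator_le hp
        refine sup_le (h7.trans le_sup_left) (sup_le ?_ le_sup_right)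
        exact ((Ideal.span_singleton_le_iff_mem _).mpr hyp).trans le_sup_left)
      have h5 := h3.trans h4
      rw [hlen, List.length_cons] at h5
      have h6 : ys.length + 1 ≤ ys.length := by exact_mod_cast h5
      omega
    rw [isWeaklyRegular_cons_iff]
    refine ⟨hyreg, ?_⟩
    obtain ⟨rs', hlen', hmem', hreg'⟩ := exists_regular_quot (by
      rw [hlen, List.length_cons]) hmem hreg hy hyreg
    refine ih (QuotSMulTop y M) rs' hlen' hmem' hreg' hys ?_
    refine hrad.trans (Ideal.radical_mono ?_)
    rw [Ideal.ofList_cons, ← sup_assoc]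
    refine sup_le_sup_right (sup_le ?_ ?_) _
    · exact LinearMap.annihilator_le_of_surjective (Submodule.mkQ _) (Submodule.mkQ_surjective _)
    · rw [Ideal.span_singleton_le_iff_mem]
      exact QuotSMulTop.mem_annihilator M y

end Pool.Agent.Lib.MP_682396_ag
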