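import Mathlib

/-!
# Elements whose multiplication factors through a free module, and lifting of homomorphisms
-/

set_option autoImplicit false
set_option linter.unusedSectionVars false

open Module
open scoped Pointwise

universe u

namespace Pool.Agent.Lib.MP_682396_ag

/-- Multiplication by `z` on `M` factors through a finite free module. -/
def StabAnn {R : Type*} [CommRing R] (z : R) (M : Type*) [AddCommGroup M] [Module R M] : Prop :=
  ∃ (n : ℕ) (α : M →ₗ[R] (Fin n → R)) (β : (Fin n → R) →ₗ[R] M), ∀ m, β (α m) = z • m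

section Stab

variable {R : Type*} [CommRing R] {M : Type*} [AddCommGroup M] [Module R M]

theorem StabAnn.zero : StabAnn (0 : R) M := ⟨0, 0, 0, fun m => by simp⟩

theorem StabAnn.smul {z : R} (h : StabAnn z M) (r : R) : StabAnn (r * z) M := by
  obtain ⟨n, α, β, h⟩ := h
  exact ⟨n, α, r • β, fun m => by simp [h, mul_smul]⟩

theorem StabAnn.add {z w : R} (hz : StabAnn z M) (hw : StabAnn w M) : StabAnn (z + w) M := by
  obtain ⟨n, α, β, h⟩ := hz
  obtain ⟨n', α', β', h'⟩ := hw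
  let e : (Fin (n + n') → R) ≃ₗ[R] (Fin n → R) × (Fin n' → R) :=
    (LinearEquiv.funCongrLeft R R finSumFinEquiv).trans (LinearEquiv.sumArrowLequivProdArrow _ _ R R)
  refine ⟨n + n', e.symm.toLinearMap ∘ₗ (α.prod α'), (β.coprod β') ∘ₗ e.toLinearMap, fun m => ?_⟩
  simp [h, h', add_smul]

theorem stabAnn_of_free {z : R} {F : Type*} [AddCommGroup F] [Module R F] [Module.Free R F]
    [Module.Finite R F] (α : M →ₗ[R] F) (β : F →ₗ[R] M) (h : ∀ m, β (α m) = z • m) :
    StabAnn z M := by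
  rcases subsingleton_or_nontrivial R with h0 | h0
  · have := Module.subsingleton R M
    exact ⟨0, 0, 0, fun m => Subsingleton.elim _ _⟩
  let b := Module.finBasis R F
  exact ⟨finrank R F, b.equivFun.toLinearMap ∘ₗ α, β ∘ₗ b.equivFun.symm.toLinearMap,
    fun m => by simp [h]⟩

/-- The property passes to a first syzygy. -/
theorem StabAnn.syzygy {z : R} (h : StabAnn z M) {m : ℕ} (π : (Fin m → R) →ₗ[R] M)
    (hπ : Function.Surjective π) : StabAnn z (LinearMap.ker π) := by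
  obtain ⟨n, α, β, h⟩ := h
  obtain ⟨β', hβ'⟩ := Module.projective_lifting_property π β hπ
  have hβ'' : ∀ v, π (β' v) = β v := fun v => LinearMap.congr_fun hβ' v
  let γ : (Fin m → R) →ₗ[R] LinearMap.ker π :=
    LinearMap.codRestrict _ (z • LinearMap.id - β' ∘ₗ α ∘ₗ π) (by
      intro v
      rw [LinearMap.mem_ker]
      simp [hβ'', h])
  refine ⟨m, Submodule.subtype _, γ, fun v => ?_⟩
  apply Subtype.ext
  have h1 : π (v : Fin m → R) = 0 := v.2
  show (z • (v : Fin m → R)) - β' (α (π v)) = z • (v : Fin m → R)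
  rw [h1]
  simp

end Stab

section Lift

variable {R : Type*} [CommRing R] {Ω : Type*} [AddCommGroup Ω] [Module R Ω]
  {N : Type*} [AddCommGroup N] [Module R N]

/-- One step of lifting: `P₁ ≤ P₀`, `P₁ ≤ P₁'`. -/
theorem lift_one {x : R} (hx : StabAnn x Ω) {P₀ P₁ P₁' C : Submodule R N}
    (h10 : P₁ ≤ P₀) (h0 : P₀ ≤ P₁ ⊔ x • ⊤) (h1 : ∀ n, x • n ∈ P₁ → n ∈ P₁')
    (h1' : ∀ n ∈ P₁', x • n ∈ P₁) (h0C : ∀ n, x • n ∈ P₀ → n ∈ C) (hP₀C : P₀ ≤ C)
    (hP₁C : P₁' ≤ C) (φ : Ω →ₗ[R] N ⧸ P₀) :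
    ∃ ψ : Ω →ₗ[R] N ⧸ P₁', ∀ ω, Submodule.factor hP₁C (ψ ω) = Submodule.factor hP₀C (φ ω) := by
  obtain ⟨n, α, β, hαβ⟩ := hx
  obtain ⟨g, hg⟩ := Module.projective_lifting_property (Submodule.factor h10) (φ ∘ₗ β)
    (Submodule.factor_surjective h10)
  have hg' : ∀ v, Submodule.factor h10 (g v) = φ (β v) := fun v => LinearMap.congr_fun hg v
  -- multiplication by `x` from `N / P₁'` to `N / P₁`
  let μ : N ⧸ P₁' →ₗ[R] N ⧸ P₁ := Submodule.mapQ P₁' P₁ (LinearMap.lsmul R N x) (by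
    intro m hm
    exact h1' m hm)
  have hμ : ∀ m : N, μ (Submodule.Quotient.mk m) = Submodule.Quotient.mk (x • m) := fun m => rfl
  have hμi : Function.Injective μ := by
    rw [← LinearMap.ker_eq_bot, LinearMap.ker_eq_bot']
    intro q hq
    obtain ⟨m, rfl⟩ := Submodule.Quotient.mk_surjective _ q
    rw [hμ, Submodule.Quotient.mk_eq_zero] at hq
    rw [Submodule.Quotient.mk_eq_zero]
    exact h1 m hq
  have hrange : ∀ ω, g (α ω) ∈ LinearMap.range μ := by
    intro ω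
    obtain ⟨m, hm⟩ := Submodule.Quotient.mk_surjective _ (g (α ω))
    obtain ⟨m', hm'⟩ := Submodule.Quotient.mk_surjective _ (φ ω)
    have h2 : (Submodule.Quotient.mk m : N ⧸ P₀) = Submodule.Quotient.mk (x • m') := by
      have h3 := hg' (α ω)
      rw [hαβ, map_smul, ← hm, ← hm'] at h3
      exact h3
    rw [Submodule.Quotient.eq] at h2
    obtain ⟨p, hp, q, hq, hpq⟩ := Submodule.mem_sup.mp (h0 h2)
    obtain ⟨w, -, hw⟩ := Submodule.mem_smul_pointwise_iff_exists _ _ _ |>.mp hq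
    refine ⟨Submodule.Quotient.mk (m' + w), ?_⟩
    rw [hμ, ← hm, Submodule.Quotient.eq]
    have h4 : x • (m' + w) - m = -p := by
      rw [smul_add, hw]
      have : m = x • m' + (p + q) := by rw [hpq]; abel
      rw [this]; abel
    rw [h4]
    exact P₁.neg_mem hp
  let e := LinearEquiv.ofInjective μ hμi
  let G : Ω →ₗ[R] LinearMap.range μ := LinearMap.codRestrict _ (g ∘ₗ α) hrange
  refine ⟨e.symm.toLinearMap ∘ₗ G, fun ω => ?_⟩
  obtain ⟨m, hm⟩ := Submodule.Quotient.mk_surjective _ (e.symm (G ω))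
  obtain ⟨m', hm'⟩ := Submodule.Quotient.mk_surjective _ (φ ω)
  have h5 : μ (Submodule.Quotient.mk m) = g (α ω) := by
    rw [hm]
    have h6 : (e (e.symm (G ω)) : N ⧸ P₁) = (G ω : N ⧸ P₁) := by rw [LinearEquiv.apply_symm_apply]
    exact h6
  have h7 : (Submodule.Quotient.mk (x • m) : N ⧸ P₀) = Submodule.Quotient.mk (x • m') := by
    have h3 := hg' (α ω)
    rw [hαβ, map_smul, ← h5, hμ, ← hm'] at h3
    exact h3
  rw [Submodule.Quotient.eq, ← smul_sub] at h7
  have h8 := h0C _ h7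
  show Submodule.factor hP₁C (e.symm (G ω)) = _
  rw [← hm, ← hm']
  show (Submodule.Quotient.mk m : N ⧸ C) = Submodule.Quotient.mk m'
  rw [Submodule.Quotient.eq]
  exact h8

/-- Iterated lifting along a chain of levels. -/
theorem lift_chain {d : ℕ} (x : Fin d → R) (hx : ∀ l, StabAnn (x l) Ω)
    (A : Fin (d + 1) → Submodule R N) (B : Fin d → Submodule R N) (C : Submodule R N)
    (hBA : ∀ j, B j ≤ A j.castSucc) (hAB : ∀ j, A j.castSucc ≤ B j ⊔ x j • ⊤)
    (h1 : ∀ j n, x j • n ∈ B j → n ∈ A j.succ) (h1' : ∀ j, ∀ n ∈ A j.succ, x j • n ∈ B j)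
    (hC : ∀ j n, x j • n ∈ A j.castSucc → n ∈ C) (hAC : ∀ j, A j ≤ C)
    (φ : Ω →ₗ[R] N ⧸ A 0) :
    ∃ ψ : Ω →ₗ[R] N ⧸ A (Fin.last d), ∀ ω, Submodule.factor (hAC _) (ψ ω) =
      Submodule.factor (hAC _) (φ ω) := by
  have key : ∀ j : Fin (d + 1), ∃ ψ : Ω →ₗ[R] N ⧸ A j, ∀ ω, Submodule.factor (hAC _) (ψ ω) =
      Submodule.factor (hAC _) (φ ω) := by
    intro j
    induction j using Fin.induction with
    | zero => exact ⟨φ, fun ω => rfl⟩
    | succ j ih =>
      obtain ⟨ψ, hψ⟩ := ih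
      obtain ⟨ψ', hψ'⟩ := lift_one (hx j) (hBA j) (hAB j) (h1 j) (h1' j) (hC j) (hAC _) (hAC _) ψ
      exact ⟨ψ', fun ω => (hψ' ω).trans (hψ ω)⟩
  exact key _

end Lift

end Pool.Agent.Lib.MP_682396_ag
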