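import Pool.Agent.Lib.MP_682396_ag.Deform

/-!
# Extension of homomorphisms from the syzygy of a rigid module
-/

set_option autoImplicit false
set_option linter.unusedSectionVars false

open Module
open scoped Pointwise

universe u v

namespace Pool.Agent.Lib.MP_682396_ag

open Tw

section Rigid

variable {R : Type u} [CommRing R] {M : Type u} [AddCommGroup M] [Module R M]

/-- If all self-extensions of `M` split, homomorphisms from a first syzygy of `M` to `M` extend. -/
theorem extend_of_rigid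
    (hrig : ∀ (E : Type u) [AddCommGroup E] [Module R E] (f : M →ₗ[R] E) (g : E →ₗ[R] M),
      Function.Injective f → Function.Surjective g →
      LinearMap.range f = LinearMap.ker g → ∃ s : M →ₗ[R] E, g ∘ₗ s = LinearMap.id)
    {m : ℕ} (π : (Fin m → R) →ₗ[R] M) (hπ : Function.Surjective π)
    (g : LinearMap.ker π →ₗ[R] M) : ∃ H : (Fin m → R) →ₗ[R] M, ∀ ω : LinearMap.ker π,
      H ω = g ω := by
  let K : Submodule R (M × (Fin m → R)) :=
    LinearMap.range (g.prod (-(LinearMap.ker π).subtype))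
  have hK : ∀ p : M × (Fin m → R), p ∈ K ↔ ∃ ω : LinearMap.ker π, p = (g ω, -(ω : Fin m → R)) := by
    intro p
    constructor
    · rintro ⟨ω, rfl⟩; exact ⟨ω, rfl⟩
    · rintro ⟨ω, rfl⟩; exact ⟨ω, rfl⟩
  let f : M →ₗ[R] (M × (Fin m → R)) ⧸ K := K.mkQ ∘ₗ LinearMap.inl R M (Fin m → R)
  let gE : ((M × (Fin m → R)) ⧸ K) →ₗ[R] M := K.liftQ (π ∘ₗ LinearMap.snd R M (Fin m → R)) (by
    intro p hp
    obtain ⟨ω, rfl⟩ := (hK p).mp hp
    rw [LinearMap.mem_ker]
    show π (-(ω : Fin m → R)) = 0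
    rw [map_neg, ω.2, neg_zero])
  have hfi : Function.Injective f := by
    rw [← LinearMap.ker_eq_bot, LinearMap.ker_eq_bot']
    intro a ha
    have h1 : ((a, 0) : M × (Fin m → R)) ∈ K := (Submodule.Quotient.mk_eq_zero K).mp ha
    obtain ⟨ω, hω⟩ := (hK _).mp h1
    have h2 := congrArg Prod.snd hω
    have h3 := congrArg Prod.fst hω
    simp only at h2 h3
    have h4 : ω = 0 := by
      apply Subtype.ext
      have : (ω : Fin m → R) = 0 := by
        rw [← neg_eq_zero]; exact h2.symm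
      simpa using this
    rw [h3, h4, map_zero]
  have hgs : Function.Surjective gE := by
    intro a
    obtain ⟨v, rfl⟩ := hπ a
    exact ⟨K.mkQ (0, v), rfl⟩
  obtain ⟨s, hs⟩ := hrig _ f gE hfi hgs (by
    ext q
    obtain ⟨⟨a, v⟩, rfl⟩ := Submodule.Quotient.mk_surjective _ q
    rw [LinearMap.mem_range, LinearMap.mem_ker]
    constructor
    · rintro ⟨b, hb⟩
      rw [← hb]
      show π 0 = 0
      exact map_zero π
    · intro hv
      have hv' : π v = 0 := hv
      refine ⟨a + g ⟨v, hv'⟩, ?_⟩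
      show (Submodule.Quotient.mk (a + g ⟨v, hv'⟩, 0) : (M × (Fin m → R)) ⧸ K) = _
      rw [Submodule.Quotient.eq, hK]
      refine ⟨⟨v, hv'⟩, ?_⟩
      ext <;> simp)
  have hs' : ∀ a, gE (s a) = a := fun a => LinearMap.congr_fun hs a
  let e := LinearEquiv.ofInjective f hfi
  have hrange : ∀ q, q - s (gE q) ∈ LinearMap.range f := by
    intro q
    obtain ⟨⟨a, v⟩, hav⟩ := Submodule.Quotient.mk_surjective _ (q - s (gE q))
    have h1 : gE (q - s (gE q)) = 0 := by rw [map_sub, hs', sub_self]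
    rw [← hav] at h1 ⊢
    have hv' : π v = 0 := h1
    refine ⟨a + g ⟨v, hv'⟩, ?_⟩
    show (Submodule.Quotient.mk (a + g ⟨v, hv'⟩, 0) : (M × (Fin m → R)) ⧸ K) = _
    rw [Submodule.Quotient.eq, hK]
    refine ⟨⟨v, hv'⟩, ?_⟩
    ext <;> simp
  let r : ((M × (Fin m → R)) ⧸ K) →ₗ[R] M := e.symm.toLinearMap ∘ₗ
    LinearMap.codRestrict (LinearMap.range f) (LinearMap.id - s ∘ₗ gE) hrange
  have hr : ∀ a, r (f a) = a := by
    intro a
    have h1 : gE (f a) = 0 := by
      show π 0 = 0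
      exact map_zero π
    apply e.injective
    show e (e.symm _) = e a
    rw [LinearEquiv.apply_symm_apply]
    apply Subtype.ext
    show f a - s (gE (f a)) = f a
    rw [h1, map_zero, sub_zero]
  refine ⟨r ∘ₗ K.mkQ ∘ₗ LinearMap.inr R M (Fin m → R), fun ω => ?_⟩
  have h1 : K.mkQ (LinearMap.inr R M (Fin m → R) ω) = f (g ω) := by
    show (Submodule.Quotient.mk (0, (ω : Fin m → R)) : (M × (Fin m → R)) ⧸ K) =
      Submodule.Quotient.mk (g ω, 0)
    rw [Submodule.Quotient.eq, hK]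
    refine ⟨-ω, ?_⟩
    ext <;> simp
  show r (K.mkQ (LinearMap.inr R M (Fin m → R) ω)) = g ω
  rw [h1, hr]

theorem extV_of_rigid {d : ℕ} {x : Fin d → R} (h : RegSys x M) (hx : ∀ l, StabAnn (x l) M)
    (hrig : ∀ (E : Type u) [AddCommGroup E] [Module R E] (f : M →ₗ[R] E) (g : E →ₗ[R] M),
      Function.Injective f → Function.Surjective g →
      LinearMap.range f = LinearMap.ker g → ∃ s : M →ₗ[R] E, g ∘ₗ s = LinearMap.id)
    {m : ℕ} (π : (Fin m → R) →ₗ[R] M) (hπ : Function.Surjective π) (k : ℕ) :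
    ExtV (LinearMap.ker π) M (lev x M fun _ => k + 1) (lev x M fun _ => k)
      (lev_anti fun _ => Nat.le_succ k) := by
  intro g
  obtain ⟨ψ, hψ⟩ := lift_M h (fun l => (hx l).syzygy π hπ) (Nat.succ_pos k) g
  obtain ⟨H, hH⟩ := extend_of_rigid hrig π hπ ψ
  refine ⟨Submodule.mkQ _ ∘ₗ H, fun ω => ?_⟩
  rw [LinearMap.comp_apply, hH]
  exact hψ ω

end Rigid

end Pool.Agent.Lib.MP_682396_ag
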