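import Pool.Agent.Lib.MP_682396_ag.Infinitesimal

/-!
# From infinitesimal to global intertwiners
-/

set_option autoImplicit false
set_option linter.unusedSectionVars false

open Module
open scoped Pointwise

universe u v w

namespace Pool.Agent.Lib.MP_682396_ag

open Tw

section Krull

variable {A : Type*} [CommRing A] [IsNoetherianRing A] (P : Ideal A) {X T : Type*} [Fintype X]
  [Fintype T]

omit [IsNoetherianRing A] in
theorem mem_smul_top_pi [DecidableEq T] {J : Ideal A} {e : T → A} (he : ∀ t, e t ∈ J) :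
    e ∈ (J • ⊤ : Submodule A (T → A)) := by
  rw [← Finset.univ_sum_single e]
  refine Submodule.sum_mem _ fun t _ => ?_
  have : (Pi.single t (e t) : T → A) = e t • Pi.single t 1 := by
    rw [← Pi.single_smul, smul_eq_mul, mul_one]
  rw [this]
  exact Submodule.smul_mem_smul (he t) trivial

/-- If a linear map `L` has approximate zeros congruent to `u` modulo `P`, then it has a zero
congruent to `u` modulo `P`. -/
theorem exists_zero_of_approx (L : (X → A) →ₗ[A] (T → A)) (u : X → A)
    (h : ∀ s : ℕ, ∃ g : X → A, (∀ i, g i - u i ∈ P) ∧ ∀ t, L g t ∈ P ^ s) :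
    ∃ g : X → A, (∀ i, g i - u i ∈ P) ∧ L g = 0 := by
  classical
  let E : Submodule A (X → A) := Submodule.pi Set.univ fun _ => P
  have hE : ∀ e, e ∈ E ↔ ∀ i, e i ∈ P := by
    intro e
    simp [E, Submodule.mem_pi]
  let N : Submodule A (T → A) := E.map L
  have h1 : N.mkQ (L u) ∈ (⨅ s : ℕ, P ^ s • ⊤ : Submodule A ((T → A) ⧸ N)) := by
    rw [Submodule.mem_iInf]
    intro s
    obtain ⟨g, hg, hL⟩ := h s
    have h2 : N.mkQ (L u) = N.mkQ (L g) := by
      rw [← sub_eq_zero, ← map_sub, ← map_sub, Submodule.mkQ_apply,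
        Submodule.Quotient.mk_eq_zero]
      refine ⟨u - g, ?_, rfl⟩
      rw [SetLike.mem_coe, hE]
      intro i
      rw [Pi.sub_apply, ← neg_sub]
      exact P.neg_mem (hg i)
    rw [h2]
    have h3 : L g ∈ (P ^ s • ⊤ : Submodule A (T → A)) := mem_smul_top_pi hL
    have h4 : N.mkQ (L g) ∈ (P ^ s • ⊤ : Submodule A (T → A)).map N.mkQ := ⟨_, h3, rfl⟩
    rw [Submodule.map_smul''] at h4
    exact Submodule.smul_mono le_rfl le_top h4
  rw [Ideal.mem_iInf_smul_pow_eq_bot_iff] at h1
  obtain ⟨r, hr⟩ := h1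
  rw [← map_smul, ← sub_eq_zero, ← map_sub, Submodule.mkQ_apply,
    Submodule.Quotient.mk_eq_zero, ← map_smul, ← map_sub] at hr
  obtain ⟨e, he, hLe⟩ := hr
  rw [SetLike.mem_coe, hE] at he
  refine ⟨u - (r : A) • u + e, ?_, ?_⟩
  · intro i
    have : (u - (r : A) • u + e) i - u i = e i - r * u i := by
      simp only [Pi.add_apply, Pi.sub_apply, Pi.smul_apply, smul_eq_mul]
      ring
    rw [this]
    exact P.sub_mem (he i) (P.mul_mem_right _ r.2)
  · rw [map_add, hLe, ← map_add]
    have : u - (r : A) • u + ((r : A) • u - u) = 0 := by abel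
    rw [this, map_zero]

end Krull

section Family

variable {K : Type*} [Field K] {A : Type*} [CommRing A] [Algebra K A] {ε : A →ₐ[K] K}
  {R : Type u} [CommRing R] [Algebra K R] {Q : Type*} [Fintype Q] [DecidableEq Q] {d : ℕ}
  {ρ : R →+* Matrix (Q × (Fin d → Fin 5)) (Q × (Fin d → Fin 5)) A} {x : Fin d → R}
  {M : Type u} [AddCommGroup M] [Module R M]

/-- The linear map measuring the failure of the intertwining property. -/
def defect (ε : A →ₐ[K] K)
    (ρ : R →+* Matrix (Q × (Fin d → Fin 5)) (Q × (Fin d → Fin 5)) A) {n : ℕ} (r : Fin n → R) :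
    (Ix2 Q d × Ix2 Q d → A) →ₗ[A] (Fin n × Ix2 Q d × Ix2 Q d → A) where
  toFun g t := ∑ b', ρ (r t.1) t.2.1.1 b'.1 * g (b', t.2.2) -
        ∑ b', g (t.2.1, b') * algebraMap K A (ε (ρ (r t.1) b'.1 t.2.2.1))
  map_add' g g' := by
    funext t
    simp only [Pi.add_apply, mul_add, add_mul, Finset.sum_add_distrib]
    ring
  map_smul' c g := by
    funext t
    simp only [Pi.smul_apply, smul_eq_mul, RingHom.id_apply, mul_sub, Finset.mul_sum]
    congr 1
    · exact Finset.sum_congr rfl fun b' _ => by ring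
    · exact Finset.sum_congr rfl fun b' _ => by ring

/-- Intertwiners over the base ring of the family. -/
theorem exists_intertwiner [IsNoetherianRing A] (hx : ∀ l, ρ (x l) = shiftMat A Q l)
    (hρK : ∀ (c : K) (a b : Q × (Fin d → Fin 5)), ρ (algebraMap K R c) a b =
      if a = b then algebraMap K A c else 0)
    (F : Fiber ε ρ x M) [Module.Finite R M] (hreg : RegSys x M) (hst : ∀ l, StabAnn (x l) M)
    (hrig : ∀ (E : Type u) [AddCommGroup E] [Module R E] (f : M →ₗ[R] E) (g : E →ₗ[R] M),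
      Function.Injective f → Function.Surjective g →
      LinearMap.range f = LinearMap.ker g → ∃ s : M →ₗ[R] E, g ∘ₗ s = LinearMap.id)
    {n : ℕ} (r : Fin n → R) :
    ∃ g : Matrix (Ix2 Q d) (Ix2 Q d) A, (∀ a b, ε (g a b) = if a = b then 1 else 0) ∧
      ∀ (k : Fin n) (a b : Ix2 Q d), ∑ b', ρ (r k) a.1 b'.1 * g b' b =
        ∑ b', g a b' * algebraMap K A (ε (ρ (r k) b'.1 b.1)) := by
  have hε : ∀ c : K, ε (algebraMap K A c) = c := fun c => AlgHom.commutes ε c
  obtain ⟨g, hg, hL⟩ := exists_zero_of_approx (RingHom.ker ε) (defect ε ρ r)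
    (fun i => if i.1 = i.2 then 1 else 0) (by
    intro s
    obtain ⟨g, hg, hgr⟩ := exists_inf_intertwiner hx hρK F hreg hst hrig s
    refine ⟨fun i => g i.1 i.2, fun i => ?_, fun t => ?_⟩
    · rw [RingHom.mem_ker, map_sub, hg]
      split_ifs
      · rw [map_one, sub_self]
      · rw [map_zero, sub_self]
    · exact Ideal.pow_le_pow_right (Nat.le_succ s) (hgr (r t.1) t.2.1 t.2.2))
  refine ⟨fun a b => g (a, b), fun a b => ?_, fun k a b => ?_⟩
  · have h1 := hg (a, b)
    rw [RingHom.mem_ker, map_sub, sub_eq_zero] at h1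
    rw [h1]
    simp only
    split_ifs
    · rw [map_one]
    · rw [map_zero]
  · have h1 := congrFun hL (k, a, b)
    exact sub_eq_zero.mp h1

end Family

end Pool.Agent.Lib.MP_682396_ag
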