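import Pool.Agent.Lib.MP_682396_ag.TwLift

/-!
# Infinitesimal triviality of matrix families through a rigid module
-/

set_option autoImplicit false
set_option linter.unusedSectionVars false

open Module
open scoped Pointwise

universe u v w

namespace Pool.Agent.Lib.MP_682396_ag

open Tw

/-- The indices below level two. -/
abbrev Ix2 (Q : Type*) (d : ℕ) : Type _ := {a : Q × (Fin d → Fin 5) // ∀ l, (a.2 l).val < 2}

section Block

variable {R Λ Q : Type*} [CommRing R] [CommRing Λ] [Fintype Q] [DecidableEq Q] {d : ℕ}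
  {ρ : R →+* Matrix (Q × (Fin d → Fin 5)) (Q × (Fin d → Fin 5)) Λ} {x : Fin d → R}

theorem smul_single_apply (r : R) (a b : Q × (Fin d → Fin 5)) :
    (r • (single ρ b (1 : Λ) : Tw ρ Λ)) a = ρ r a b := by
  rw [Tw.smul_apply, Finset.sum_eq_single b]
  · rw [single_apply, if_pos rfl, smul_eq_mul, mul_one]
  · intro b' _ hb'
    rw [single_apply, if_neg hb', smul_zero]
  · intro h
    exact absurd (Finset.mem_univ _) h

theorem rho_block (hx : ∀ l, ρ (x l) = shiftMat Λ Q l) (r : R) (a b : Q × (Fin d → Fin 5))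
    (ha : ∀ l, (a.2 l).val < 2) (hb : ¬ ∀ l, (b.2 l).val < 2) : ρ r a b = 0 := by
  have h1 : (single ρ b (1 : Λ) : Tw ρ Λ) ∈ lev x (Tw ρ Λ) (fun _ => 2) := by
    rw [mem_lev_iff hx]
    intro a' ha'
    rw [single_apply, if_neg]
    rintro rfl
    exact hb ha'
  have h2 := (mem_lev_iff hx _ _).mp (Submodule.smul_mem _ r h1) a ha
  rwa [smul_single_apply] at h2

theorem rho_lev5 (hx : ∀ l, ρ (x l) = shiftMat Λ Q l) {r : R}
    (hr : r ∈ lev x R (fun _ => 5)) (a b : Q × (Fin d → Fin 5)) : ρ r a b = 0 := by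
  have h1 : ∀ v : Tw ρ Λ, r • v ∈ lev x (Tw ρ Λ) (fun _ => 5) := by
    intro v
    unfold lev at hr
    induction hr using Submodule.iSup_induction' with
    | mem l w hw =>
      obtain ⟨w', -, rfl⟩ := Submodule.mem_smul_pointwise_iff_exists _ _ _ |>.mp hw
      rw [smul_eq_mul, mul_smul]
      exact pow_smul_mem_lev (fun _ => 5) l _
    | zero => rw [zero_smul]; exact zero_mem _
    | add w w' _ _ h h' => rw [add_smul]; exact add_mem h h'
  have h2 := (mem_lev_iff hx _ _).mp (h1 (single ρ b (1 : Λ))) a (fun l => (a.2 l).isLt)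
  rwa [smul_single_apply] at h2

theorem sum_block (hx : ∀ l, ρ (x l) = shiftMat Λ Q l) (r : R) (a : Ix2 Q d)
    {W : Type*} [AddCommGroup W] [Module Λ W] (v : Tw ρ W) :
    (r • v) a.1 = ∑ b : Ix2 Q d, ρ r a.1 b.1 • v b.1 := by
  rw [Tw.smul_apply, ← Fintype.sum_subtype_add_sum_subtype
    (fun b : Q × (Fin d → Fin 5) => ∀ l, (b.2 l).val < 2)]
  rw [add_eq_left]
  apply Finset.sum_eq_zero
  intro b _
  rw [rho_block hx r a.1 b.1 a.2 b.2, zero_smul]

theorem comap_lev {N N' : Type*} [AddCommGroup N] [Module R N] [AddCommGroup N'] [Module R N']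
    (π : N →ₗ[R] N') (hπ : Function.Surjective π) {c : Fin d → ℕ}
    (h : LinearMap.ker π ≤ lev x N c) : lev x N c = (lev x N' c).comap π := by
  have h1 : lev x N' c = (lev x N c).map π := by
    unfold lev
    rw [Submodule.map_iSup]
    congr 1
    funext l
    ext y
    rw [Submodule.mem_smul_pointwise_iff_exists, Submodule.mem_map]
    constructor
    · rintro ⟨w, -, rfl⟩
      obtain ⟨w', rfl⟩ := hπ w
      exact ⟨x l ^ c l • w', Submodule.smul_mem_pointwise_smul _ _ ⊤ trivial, map_smul _ _ _⟩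
    · rintro ⟨w, hw, rfl⟩
      obtain ⟨w', -, rfl⟩ := Submodule.mem_smul_pointwise_iff_exists _ _ _ |>.mp hw
      exact ⟨π w', trivial, (map_smul _ _ _).symm⟩
  rw [h1, Submodule.comap_map_eq, sup_eq_left.mpr h]

end Block

section FiniteLength

theorem isFiniteLength_quot_pow {A : Type*} [CommRing A] [IsNoetherianRing A] (I : Ideal A)
    [hI : I.IsMaximal] (s : ℕ) : IsFiniteLength A (A ⧸ I ^ s) := by
  have h0 : Ring.KrullDimLE 0 (A ⧸ I ^ s) := Ring.krullDimLE_zero_iff.mpr fun J hJ => by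
    have h1 : (J.comap (Ideal.Quotient.mk (I ^ s))).IsPrime := Ideal.comap_isPrime _ _
    have h2 : I ^ s ≤ J.comap (Ideal.Quotient.mk (I ^ s)) := by
      intro a ha
      rw [Ideal.mem_comap, Ideal.Quotient.eq_zero_iff_mem.mpr ha]
      exact J.zero_mem
    have h3 : I = J.comap (Ideal.Quotient.mk (I ^ s)) :=
      hI.eq_of_le h1.ne_top (h1.le_of_pow_le h2)
    have h4 : (J.comap (Ideal.Quotient.mk (I ^ s))).IsMaximal := h3 ▸ hI
    have h5 : J = (J.comap (Ideal.Quotient.mk (I ^ s))).map (Ideal.Quotient.mk (I ^ s)) :=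
      (Ideal.map_comap_of_surjective _ Ideal.Quotient.mk_surjective J).symm
    rw [h5]
    refine Ideal.IsMaximal.map_of_surjective_of_ker_le Ideal.Quotient.mk_surjective ?_
    rw [Ideal.mk_ker]
    exact h2
  have h1 : IsArtinianRing (A ⧸ I ^ s) := IsNoetherianRing.isArtinianRing_of_krullDimLE_zero
  rw [isFiniteLength_iff_isNoetherian_isArtinian]
  refine ⟨inferInstance, ?_⟩
  exact isArtinian_of_surjective_algebraMap (S := A) (R := A ⧸ I ^ s) Ideal.Quotient.mk_surjective

end FiniteLength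

section Family

variable {K : Type*} [Field K] {A : Type*} [CommRing A] [Algebra K A] (ε : A →ₐ[K] K)
  {R : Type u} [CommRing R] [Algebra K R] {Q : Type*} [Fintype Q] [DecidableEq Q] {d : ℕ}
  {ρ : R →+* Matrix (Q × (Fin d → Fin 5)) (Q × (Fin d → Fin 5)) A} {x : Fin d → R}
  {M : Type u} [AddCommGroup M] [Module R M]

/-- The reduction of the family at the base point. -/
structure Fiber (ε : A →ₐ[K] K) (ρ : R →+* Matrix (Q × (Fin d → Fin 5)) (Q × (Fin d → Fin 5)) A)
    (x : Fin d → R) (M : Type u) [AddCommGroup M] [Module R M] where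
  /-- Coordinates on the quotient by the fifth level. -/
  θ : M →+ (Q × (Fin d → Fin 5) → K)
  smul : ∀ (r : R) (m : M) (a : Q × (Fin d → Fin 5)), θ (r • m) a = ∑ b, ε (ρ r a b) * θ m b
  surj : Function.Surjective θ
  ker : ∀ m, θ m = 0 ↔ m ∈ lev x M fun _ => 5

variable {ε}

/-- The linear map of a fiber into the family with coefficients in the residue field. -/
def Fiber.toTw (F : Fiber ε ρ x M) : M →ₗ[R] Tw ρ (A ⧸ RingHom.ker ε) where
  toFun m a := Ideal.Quotient.mk (RingHom.ker ε) (algebraMap K A (F.θ m a))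
  map_add' m m' := by
    apply Tw.ext
    intro a
    show Ideal.Quotient.mk (RingHom.ker ε) (algebraMap K A (F.θ (m + m') a)) =
      Ideal.Quotient.mk (RingHom.ker ε) (algebraMap K A (F.θ m a)) +
      Ideal.Quotient.mk (RingHom.ker ε) (algebraMap K A (F.θ m' a))
    rw [map_add, Pi.add_apply, map_add, map_add]
  map_smul' r m := by
    apply Tw.ext
    intro a
    show Ideal.Quotient.mk (RingHom.ker ε) (algebraMap K A (F.θ (r • m) a)) =
      ∑ b, ρ r a b • Ideal.Quotient.mk (RingHom.ker ε) (algebraMap K A (F.θ m b))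
    rw [F.smul, map_sum, map_sum]
    refine Finset.sum_congr rfl fun b _ => ?_
    have h : ∀ c : K, ε (algebraMap K A c) = c := fun c => AlgHom.commutes ε c
    show Ideal.Quotient.mk (RingHom.ker ε) (algebraMap K A (ε (ρ r a b) * F.θ m b)) =
      Ideal.Quotient.mk (RingHom.ker ε) (ρ r a b * algebraMap K A (F.θ m b))
    rw [Ideal.Quotient.eq, RingHom.mem_ker, map_sub, map_mul, map_mul, map_mul, h, h, sub_self]

theorem Fiber.toTw_apply (F : Fiber ε ρ x M) (m : M) (a : Q × (Fin d → Fin 5)) :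
    F.toTw m a = Ideal.Quotient.mk (RingHom.ker ε) (algebraMap K A (F.θ m a)) := rfl

theorem Fiber.toTw_surjective (F : Fiber ε ρ x M) : Function.Surjective F.toTw := by
  intro v
  choose o ho using fun a => Ideal.Quotient.mk_surjective (v a)
  obtain ⟨m, hm⟩ := F.surj fun a => ε (o a)
  refine ⟨m, Tw.ext fun a => ?_⟩
  rw [F.toTw_apply, hm, ← ho a, Ideal.Quotient.eq, RingHom.mem_ker, map_sub]
  have h : ∀ c : K, ε (algebraMap K A c) = c := fun c => AlgHom.commutes ε c
  rw [h, sub_self]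

theorem Fiber.ker_toTw (F : Fiber ε ρ x M) : LinearMap.ker F.toTw = lev x M fun _ => 5 := by
  ext m
  rw [LinearMap.mem_ker, ← F.ker]
  have h : ∀ c : K, ε (algebraMap K A c) = c := fun c => AlgHom.commutes ε c
  constructor
  · intro hm
    funext a
    have h1 : F.toTw m a = 0 := by rw [hm]; rfl
    rw [F.toTw_apply, Ideal.Quotient.eq_zero_iff_mem, RingHom.mem_ker, h] at h1
    exact h1
  · intro hm
    apply Tw.ext
    intro a
    rw [F.toTw_apply, hm]
    simp [Tw.zero_apply]

theorem Fiber.comap_lev (F : Fiber ε ρ x M) {c : Fin d → ℕ} (hc : ∀ l, c l ≤ 5) :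
    lev x M c = (lev x (Tw ρ (A ⧸ RingHom.ker ε)) c).comap F.toTw :=
  Pool.Agent.Lib.MP_682396_ag.comap_lev F.toTw F.toTw_surjective
    (F.ker_toTw.le.trans (lev_anti hc))

theorem ker_isMaximal (ε : A →ₐ[K] K) : (RingHom.ker ε).IsMaximal :=
  RingHom.ker_isMaximal_of_surjective ε fun c => ⟨algebraMap K A c, AlgHom.commutes ε c⟩

theorem eq_zero_of_mem_lev {N : Type*} [AddCommGroup N] [Module R N] {c : Fin d → ℕ}
    (f : M →ₗ[R] N ⧸ lev x N c) {m : M} (hm : m ∈ lev x M c) : f m = 0 := by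
  unfold lev at hm
  induction hm using Submodule.iSup_induction' with
  | mem l w hw =>
    obtain ⟨w', -, rfl⟩ := Submodule.mem_smul_pointwise_iff_exists _ _ _ |>.mp hw
    obtain ⟨n, hn⟩ := Submodule.Quotient.mk_surjective _ (f w')
    rw [map_smul, ← hn, ← Submodule.Quotient.mk_smul, Submodule.Quotient.mk_eq_zero]
    exact pow_smul_mem_lev c l n
  | zero => exact map_zero f
  | add w w' _ _ h h' => rw [map_add, h, h', add_zero]

/-- Infinitesimal intertwiners. -/
theorem exists_inf_intertwiner [IsNoetherianRing A] (hx : ∀ l, ρ (x l) = shiftMat A Q l)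
    (hρK : ∀ (c : K) (a b : Q × (Fin d → Fin 5)), ρ (algebraMap K R c) a b =
      if a = b then algebraMap K A c else 0)
    (F : Fiber ε ρ x M) [Module.Finite R M] (hreg : RegSys x M) (hst : ∀ l, StabAnn (x l) M)
    (hrig : ∀ (E : Type u) [AddCommGroup E] [Module R E] (f : M →ₗ[R] E) (g : E →ₗ[R] M),
      Function.Injective f → Function.Surjective g →
      LinearMap.range f = LinearMap.ker g → ∃ s : M →ₗ[R] E, g ∘ₗ s = LinearMap.id)
    (s : ℕ) : ∃ g : Ix2 Q d → Ix2 Q d → A, (∀ a b, ε (g a b) = if a = b then 1 else 0) ∧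
      ∀ (r : R) (a b : Ix2 Q d), ∑ b', ρ r a.1 b'.1 * g b' b -
        ∑ b', g a b' * algebraMap K A (ε (ρ r b'.1 b.1)) ∈ (RingHom.ker ε) ^ (s + 1) := by
  have hmax := ker_isMaximal ε
  have hε : ∀ c : K, ε (algebraMap K A c) = c := fun c => AlgHom.commutes ε c
  obtain ⟨m, π, hπ⟩ := Module.Finite.exists_fin' R M
  have hΩ : ∀ l, StabAnn (x l) (LinearMap.ker π) := fun l => (hst l).syzygy π hπ
  -- extension for the residue field
  have hS : ExtV (LinearMap.ker π) (Tw ρ (A ⧸ RingHom.ker ε))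
      (lev x (Tw ρ (A ⧸ RingHom.ker ε)) fun _ => 4)
      (lev x (Tw ρ (A ⧸ RingHom.ker ε)) fun _ => 3) (lev_anti fun _ => by norm_num) :=
    ExtV.transfer F.toTw F.toTw_surjective (F.comap_lev fun _ => by norm_num)
      (F.comap_lev fun _ => by norm_num) _ _ (extV_of_rigid hreg hst hrig π hπ 3)
  have hle : (RingHom.ker ε) ^ (s + 1) ≤ RingHom.ker ε := Ideal.pow_le_self (Nat.succ_ne_zero s)
  let q : (A ⧸ (RingHom.ker ε) ^ (s + 1)) →ₗ[A] (A ⧸ RingHom.ker ε) := Submodule.factor hle
  have hq : Function.Surjective q := Submodule.factor_surjective hle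
  have hext := extV_Tw hx hΩ (RingHom.ker ε) hS (LinearMap.ker q)
    ((isFiniteLength_quot_pow (RingHom.ker ε) (s + 1)).of_injective
      (LinearMap.ker q).injective_subtype) (s + 1) (by
      rintro a ha ⟨w, hw⟩
      obtain ⟨w, rfl⟩ := Submodule.Quotient.mk_surjective _ w
      apply Subtype.ext
      show a • (Submodule.Quotient.mk w : A ⧸ (RingHom.ker ε) ^ (s + 1)) = 0
      rw [← Submodule.Quotient.mk_smul, Submodule.Quotient.mk_eq_zero, smul_eq_mul]
      exact Ideal.mul_mem_right _ _ ha)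
  obtain ⟨Ψ, hΨ⟩ := exists_lift π hπ hx q hq hext (Submodule.mkQ _ ∘ₗ F.toTw)
  -- test elements
  choose mb hmb using fun b : Ix2 Q d => F.surj (Pi.single b.1 1)
  choose v hv using fun b : Ix2 Q d => Submodule.Quotient.mk_surjective _ (Ψ (mb b))
  choose g hg using fun a b : Ix2 Q d => Submodule.Quotient.mk_surjective _ (v b a.1)
  refine ⟨g, ?_, ?_⟩
  · intro a b
    have h1 := hΨ (mb b)
    rw [← hv b, mapLev_mk, LinearMap.comp_apply, Submodule.mkQ_apply] at h1
    have h2 : map ρ q (v b) - F.toTw (mb b) ∈ lev x (Tw ρ (A ⧸ RingHom.ker ε)) fun _ => 2 :=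
      (Submodule.Quotient.eq _).mp h1
    have h3 := (mem_lev_iff hx _ _).mp h2 a.1 a.2
    rw [Tw.sub_apply, map_apply, ← hg a b, F.toTw_apply, hmb b] at h3
    have h4 : g a b - algebraMap K A ((Pi.single b.1 1 : Q × (Fin d → Fin 5) → K) a.1) ∈
        RingHom.ker ε := (Submodule.Quotient.eq _).mp (sub_eq_zero.mp h3)
    rw [RingHom.mem_ker, map_sub, hε, sub_eq_zero] at h4
    rw [h4, Pi.single_apply]
    simp only [Subtype.ext_iff]
  · intro r a b
    -- the relation in `M`
    have hsm : ∀ (c : K) (y : M) (a' : Q × (Fin d → Fin 5)),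
        F.θ (algebraMap K R c • y) a' = c * F.θ y a' := by
      intro c y a'
      rw [F.smul, Finset.sum_eq_single a']
      · rw [hρK, if_pos rfl, hε]
      · intro b' _ hb'
        rw [hρK, if_neg (Ne.symm hb'), map_zero, zero_mul]
      · intro h
        exact absurd (Finset.mem_univ _) h
    have h1 : r • mb b - ∑ b' : Ix2 Q d, algebraMap K R (ε (ρ r b'.1 b.1)) • mb b' ∈
        lev x M fun _ => 2 := by
      rw [F.comap_lev (c := fun _ => 2) (fun _ => by norm_num), Submodule.mem_comap,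
        mem_lev_iff hx]
      intro a' ha'
      rw [F.toTw_apply]
      have h2 : F.θ (r • mb b - ∑ b' : Ix2 Q d, algebraMap K R (ε (ρ r b'.1 b.1)) • mb b') a' =
          0 := by
        rw [map_sub, map_sum, Pi.sub_apply, Finset.sum_apply, F.smul, hmb, sub_eq_zero,
          Finset.sum_eq_single b.1, Finset.sum_eq_single ⟨a', ha'⟩]
        · rw [hsm, hmb, Pi.single_eq_same, Pi.single_eq_same]
        · intro b' _ hb'
          rw [hsm, hmb, Pi.single_eq_of_ne, mul_zero]
          intro h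
          exact hb' (Subtype.ext h.symm)
        · intro h
          exact absurd (Finset.mem_univ _) h
        · intro b' _ hb'
          rw [Pi.single_eq_of_ne hb', mul_zero]
        · intro h
          exact absurd (Finset.mem_univ _) h
      rw [h2, map_zero, map_zero]
    have h3 : Ψ (r • mb b - ∑ b' : Ix2 Q d, algebraMap K R (ε (ρ r b'.1 b.1)) • mb b') = 0 :=
      eq_zero_of_mem_lev Ψ h1
    have h4 : (Submodule.Quotient.mk (r • v b -
        ∑ b' : Ix2 Q d, algebraMap K R (ε (ρ r b'.1 b.1)) • v b') :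
        Tw ρ (A ⧸ (RingHom.ker ε) ^ (s + 1)) ⧸ lev x _ fun _ => 2) = 0 := by
      rw [← h3, map_sub, map_sum, map_smul, ← hv b, ← Submodule.mkQ_apply, ← Submodule.mkQ_apply,
        map_sub, map_sum, map_smul]
      congr 1
      refine Finset.sum_congr rfl fun b' _ => ?_
      rw [map_smul, map_smul, ← hv b', Submodule.mkQ_apply]
    rw [Submodule.Quotient.mk_eq_zero] at h4
    have h5 := (mem_lev_iff hx _ _).mp h4 a.1 a.2
    rw [Tw.sub_apply, Tw.sum_apply, sum_block hx] at h5
    have h6 : ∀ (c : K) (w : Tw ρ (A ⧸ (RingHom.ker ε) ^ (s + 1))) (a' : Q × (Fin d → Fin 5)),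
        (algebraMap K R c • w) a' = algebraMap K A c • w a' := by
      intro c w a'
      rw [Tw.smul_apply, Finset.sum_eq_single a']
      · rw [hρK, if_pos rfl]
      · intro b' _ hb'
        rw [hρK, if_neg (Ne.symm hb'), zero_smul]
      · intro h
        exact absurd (Finset.mem_univ _) h
    rw [← Ideal.Quotient.eq_zero_iff_mem, map_sub, map_sum, map_sum, ← h5]
    congr 1
    · refine Finset.sum_congr rfl fun b' _ => ?_
      rw [← hg b' b, map_mul]
      rfl
    · refine Finset.sum_congr rfl fun b' _ => ?_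
      rw [h6, ← hg a b', map_mul, mul_comm]
      rfl

end Family

end Pool.Agent.Lib.MP_682396_ag
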