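import Mathlib

/-!
# Length computations used in the one-dimensional case
-/

set_option autoImplicit false
set_option linter.unusedSectionVars false

open Module IsLocalRing
open scoped Pointwise

namespace Pool.Agent.Lib.MP_682396_ag

section Sub

variable {R : Type*} [CommRing R] {L M : Type*} [AddCommGroup L] [Module R L]
  [AddCommGroup M] [Module R M]

/-- If `L` embeds in `M` with cokernel of finite length and `x` is regular on `M`, then `L / xL`
and `M / xM` have the same length. -/
theorem length_quotSMulTop_eq (x : R) (f : L →ₗ[R] M) (hf : Function.Injective f)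
    (hx : IsSMulRegular M x) (hfin : IsFiniteLength R (M ⧸ LinearMap.range f)) :
    length R (QuotSMulTop x L) = length R (QuotSMulTop x M) := by
  set N : Submodule R M := x • LinearMap.range f with hN
  have hmemN : ∀ m : M, m ∈ N ↔ ∃ l : L, m = x • f l := by
    intro m
    rw [hN, Submodule.mem_smul_pointwise_iff_exists]
    constructor
    · rintro ⟨_, ⟨l, rfl⟩, rfl⟩; exact ⟨l, rfl⟩
    · rintro ⟨l, rfl⟩; exact ⟨f l, ⟨l, rfl⟩, rfl⟩
  have hmemx : ∀ (m : M), m ∈ (x • ⊤ : Submodule R M) ↔ ∃ m' : M, m = x • m' := by
    intro m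
    rw [Submodule.mem_smul_pointwise_iff_exists]
    constructor
    · rintro ⟨m', -, rfl⟩; exact ⟨m', rfl⟩
    · rintro ⟨m', rfl⟩; exact ⟨m', trivial, rfl⟩
  have hmemL : ∀ (m : L), m ∈ (x • ⊤ : Submodule R L) ↔ ∃ m' : L, m = x • m' := by
    intro m
    rw [Submodule.mem_smul_pointwise_iff_exists]
    constructor
    · rintro ⟨m', -, rfl⟩; exact ⟨m', rfl⟩
    · rintro ⟨m', rfl⟩; exact ⟨m', trivial, rfl⟩
  -- first exact sequence
  let a : QuotSMulTop x L →ₗ[R] M ⧸ N := Submodule.mapQ _ _ f (by
    intro l hl
    obtain ⟨l', rfl⟩ := (hmemL l).mp hl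
    rw [Submodule.mem_comap, hmemN]
    exact ⟨l', by simp⟩)
  let b : M ⧸ N →ₗ[R] M ⧸ LinearMap.range f := Submodule.factor (by
    intro m hm
    obtain ⟨l, rfl⟩ := (hmemN m).mp hm
    exact ⟨x • l, by simp⟩)
  have ha : Function.Injective a := by
    rw [← LinearMap.ker_eq_bot, LinearMap.ker_eq_bot']
    intro q hq
    obtain ⟨l, rfl⟩ := Submodule.Quotient.mk_surjective _ q
    rw [Submodule.mapQ_apply, Submodule.Quotient.mk_eq_zero, hmemN] at hq
    obtain ⟨l', hl'⟩ := hq
    rw [Submodule.Quotient.mk_eq_zero, hmemL]
    exact ⟨l', hf (by rw [hl', map_smul])⟩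
  have hb : Function.Surjective b := Submodule.factor_surjective _
  have hab : Function.Exact a b := by
    intro q
    obtain ⟨m, rfl⟩ := Submodule.Quotient.mk_surjective _ q
    constructor
    · intro h
      have h1 : m ∈ LinearMap.range f := by
        have : b (Submodule.Quotient.mk m) = Submodule.Quotient.mk m := rfl
        rw [this, Submodule.Quotient.mk_eq_zero] at h
        exact h
      obtain ⟨l, rfl⟩ := h1
      exact ⟨Submodule.Quotient.mk l, rfl⟩
    · rintro ⟨q', hq'⟩
      obtain ⟨l, rfl⟩ := Submodule.Quotient.mk_surjective _ q'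
      rw [← hq']
      have : b (a (Submodule.Quotient.mk l)) = Submodule.Quotient.mk (f l) := rfl
      rw [this, Submodule.Quotient.mk_eq_zero]
      exact ⟨l, rfl⟩
  have h1 := Module.length_eq_add_of_exact a b ha hb hab
  -- second exact sequence
  let c : M ⧸ LinearMap.range f →ₗ[R] M ⧸ N := Submodule.mapQ _ _ (LinearMap.lsmul R M x) (by
    rintro _ ⟨l, rfl⟩
    rw [Submodule.mem_comap, hmemN]
    exact ⟨l, rfl⟩)
  let d : M ⧸ N →ₗ[R] QuotSMulTop x M := Submodule.factor (by
    intro m hm
    obtain ⟨l, rfl⟩ := (hmemN m).mp hm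
    exact (hmemx _).mpr ⟨f l, rfl⟩)
  have hc : Function.Injective c := by
    rw [← LinearMap.ker_eq_bot, LinearMap.ker_eq_bot']
    intro q hq
    obtain ⟨m, rfl⟩ := Submodule.Quotient.mk_surjective _ q
    rw [Submodule.mapQ_apply, Submodule.Quotient.mk_eq_zero, hmemN] at hq
    obtain ⟨l, hl⟩ := hq
    rw [Submodule.Quotient.mk_eq_zero]
    exact ⟨l, (hx hl).symm⟩
  have hd : Function.Surjective d := Submodule.factor_surjective _
  have hcd : Function.Exact c d := by
    intro q
    obtain ⟨m, rfl⟩ := Submodule.Quotient.mk_surjective _ q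
    constructor
    · intro h
      have h1 : m ∈ (x • ⊤ : Submodule R M) := by
        have : d (Submodule.Quotient.mk m) = Submodule.Quotient.mk m := rfl
        rw [this, Submodule.Quotient.mk_eq_zero] at h
        exact h
      obtain ⟨m', rfl⟩ := (hmemx _).mp h1
      exact ⟨Submodule.Quotient.mk m', rfl⟩
    · rintro ⟨q', hq'⟩
      obtain ⟨m', rfl⟩ := Submodule.Quotient.mk_surjective _ q'
      rw [← hq']
      have : d (c (Submodule.Quotient.mk m')) = Submodule.Quotient.mk (x • m') := rfl
      rw [this, Submodule.Quotient.mk_eq_zero]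
      exact (hmemx _).mpr ⟨m', rfl⟩
  have h2 := Module.length_eq_add_of_exact c d hc hd hcd
  rw [h1, add_comm] at h2
  have h3 : length R (M ⧸ LinearMap.range f) ≠ ⊤ := Module.length_ne_top_iff.mpr hfin
  have h4 : length R (M ⧸ LinearMap.range f) + length R (QuotSMulTop x L) =
      length R (M ⧸ LinearMap.range f) + length R (QuotSMulTop x M) := by
    rw [← h2, add_comm]
  exact ENat.add_right_injective_of_ne_top h3 h4

end Sub

section ResidueLength

variable {F B : Type*} [Field F] [CommRing B] [IsLocalRing B] [Algebra F B]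

/-- Over a local ring with a coefficient field, the length equals the dimension over
the coefficient field. -/
theorem length_eq_of_coeffField (hres : ∀ b : B, ∃ c : F, b - algebraMap F B c ∈ maximalIdeal B)
    {V : Type*} [AddCommGroup V] [Module B V] (hV : IsFiniteLength B V) :
    ∀ [Module F V] [IsScalarTower F B V], length F V = length B V := by
  induction hV with
  | of_subsingleton => intro _ _; simp
  | @of_simple_quotient V _ _ N hs hN ih =>
    intro _ _
    have h1 := Module.length_eq_add_of_exact (R := B) N.subtype N.mkQ N.subtype_injective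
      N.mkQ_surjective (LinearMap.exact_subtype_mkQ N)
    have h2 := Module.length_eq_add_of_exact (R := F) (N.subtype.restrictScalars F)
      (N.mkQ.restrictScalars F) N.subtype_injective
      N.mkQ_surjective (LinearMap.exact_subtype_mkQ N)
    rw [h1, h2, ih]
    congr 1
    rw [Module.length_eq_one B (V ⧸ N), Module.length_eq_one_iff]
    -- the simple quotient is one-dimensional
    have hnt : Nontrivial (V ⧸ N) := IsSimpleModule.nontrivial B (V ⧸ N)
    obtain ⟨v, hv⟩ := exists_ne (0 : V ⧸ N)
    have hspan := IsSimpleModule.toSpanSingleton_surjective B hv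
    have hkill : ∀ b ∈ maximalIdeal B, b • v = 0 := by
      intro b hb
      by_contra hne
      have h3 := IsSimpleModule.toSpanSingleton_surjective B hne
      obtain ⟨c, hc⟩ := h3 v
      rw [LinearMap.toSpanSingleton_apply, smul_smul] at hc
      have h4 : (1 - c * b) • v = 0 := by rw [sub_smul, one_smul, hc, sub_self]
      have h5 : IsUnit (1 - c * b) := by
        by_contra hnu
        have h6 : (1 - c * b) ∈ maximalIdeal B := (mem_maximalIdeal _).mpr hnu
        have h7 : (1 : B) ∈ maximalIdeal B := by
          have := add_mem h6 (Ideal.mul_mem_left _ c hb)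
          simpa using this
        exact (Ideal.ne_top_iff_one _).mp (maximalIdeal.isMaximal B).ne_top h7
      exact hv ((h5.smul_eq_zero).mp h4)
    have hfr : finrank F (V ⧸ N) = 1 := by
      apply finrank_eq_one v hv
      intro w
      obtain ⟨b, hb⟩ := hspan w
      obtain ⟨c, hc⟩ := hres b
      refine ⟨c, ?_⟩
      rw [LinearMap.toSpanSingleton_apply] at hb
      have h8 := hkill _ hc
      rw [sub_smul, sub_eq_zero, algebraMap_smul] at h8
      rw [← h8, hb]
    exact isSimpleModule_iff_finrank_eq_one.mpr hfr

theorem finite_of_coeffField (hres : ∀ b : B, ∃ c : F, b - algebraMap F B c ∈ maximalIdeal B)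
    {V : Type*} [AddCommGroup V] [Module B V] (hV : IsFiniteLength B V)
    [Module F V] [IsScalarTower F B V] : Module.Finite F V ∧ (finrank F V : ℕ∞) = length B V := by
  have h1 := length_eq_of_coeffField hres hV
  have h2 : length F V ≠ ⊤ := by rw [h1]; exact Module.length_ne_top_iff.mpr hV
  have h3 : IsFiniteLength F V := Module.length_ne_top_iff.mp h2
  have h4 : IsNoetherian F V := (isFiniteLength_iff_isNoetherian_isArtinian.mp h3).1
  have h5 : Module.Finite F V := inferInstance
  refine ⟨h5, ?_⟩
  rw [← h1, Module.length_eq_finrank]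

end ResidueLength

section Torsion

variable {R : Type*} [CommRing R] [IsNoetherianRing R] [Ring.KrullDimLE 1 R]

/-- A finitely generated module over a Noetherian ring of dimension at most one that is killed by
a nonzerodivisor has finite length. -/
theorem isFiniteLength_of_smul_eq_zero {Q : Type*} [AddCommGroup Q] [Module R Q] [Module.Finite R Q]
    {c : R} (hc : c ∈ nonZeroDivisors R) (hQ : ∀ q : Q, c • q = 0) : IsFiniteLength R Q := by
  have h0 : IsFiniteLength R (R ⧸ Ideal.span {c}) := isFiniteLength_quotient_span_singleton R hc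
  have hart : IsArtinianRing (R ⧸ Ideal.span {c}) := by
    have h1 := (isFiniteLength_iff_isNoetherian_isArtinian.mp h0).2
    exact isArtinian_of_tower R h1
  have htor : Module.IsTorsionBySet R Q (Ideal.span {c} : Ideal R) := by
    rw [Module.isTorsionBySet_span_singleton_iff]
    exact fun q => hQ q
  let _ : Module (R ⧸ Ideal.span {c}) Q := htor.module
  have : IsScalarTower R (R ⧸ Ideal.span {c}) Q := htor.isScalarTower
  have hfin : Module.Finite (R ⧸ Ideal.span {c}) Q := Module.Finite.of_restrictScalars_finite R _ _
  rw [isFiniteLength_iff_isNoetherian_isArtinian]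
  refine ⟨inferInstance, ?_⟩
  have h2 : IsArtinian (R ⧸ Ideal.span {c}) Q := inferInstance
  exact isArtinian_of_surjective_algebraMap (Ideal.Quotient.mk_surjective (I := Ideal.span {c}))

end Torsion

end Pool.Agent.Lib.MP_682396_ag
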