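import Pool.Agent.Lib.MP_682396_ag.FreeOver
import Pool.Agent.Lib.MP_682396_ag.Lengths

/-!
# Complete local rings as finite algebras over power series rings
-/

set_option autoImplicit false
set_option linter.unusedSectionVars false

open Module IsLocalRing
open scoped Pointwise

universe u v

namespace Pool.Agent.Lib.MP_682396_ag

/-- Existence of a coefficient field for a complete local ring of residue characteristic zero. -/
theorem exists_section {R : Type*} [CommRing R] [IsLocalRing R]
    [IsAdicComplete (maximalIdeal R) R] [CharZero (ResidueField R)] :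
    ∃ σ : ResidueField R →+* R, ∀ x, residue R (σ x) = x := by
  have hB : ∀ n : ℕ, n ≠ 0 → IsUnit (n : R) := by
    intro n hn
    by_contra h
    have h1 : (n : R) ∈ maximalIdeal R := (mem_maximalIdeal _).mpr h
    rw [← residue_eq_zero_iff, map_natCast] at h1
    exact hn (Nat.cast_eq_zero.mp h1)
  let φ : ℚ →+* R := IsLocalization.lift (M := nonZeroDivisors ℤ) (g := Int.castRingHom R) (by
    rintro ⟨z, hz⟩
    have hz0 : z ≠ 0 := nonZeroDivisors.ne_zero hz
    have h1 : IsUnit ((z.natAbs : ℕ) : R) := hB _ (Int.natAbs_ne_zero.mpr hz0)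
    change IsUnit ((z : ℤ) : R)
    rcases Int.natAbs_eq z with h | h
    · have h2 : ((z : ℤ) : R) = ((z.natAbs : ℕ) : R) := by
        conv_lhs => rw [h]
        simp
      rw [h2]; exact h1
    · have h2 : ((z : ℤ) : R) = -((z.natAbs : ℕ) : R) := by
        conv_lhs => rw [h]
        simp
      rw [h2]; exact h1.neg)
  let _ : Algebra ℚ R := φ.toAlgebra
  let k := ResidueField R
  have : Algebra.FormallySmooth ℚ k := by
    obtain ⟨s, hs⟩ := exists_isTranscendenceBasis ℚ k
    have := hs.isAlgebraic_field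
    have : Algebra.IsSeparable (IntermediateField.adjoin ℚ (Set.range ((↑) : s → k))) k :=
      inferInstance
    exact Algebra.FormallySmooth.of_algebraicIndependent_of_isSeparable hs.1
  let g : k →+* R ⧸ maximalIdeal R := RingHom.id (R ⧸ maximalIdeal R)
  obtain ⟨f, hf⟩ := Algebra.FormallySmooth.exists_mkₐ_comp_eq_of_isAdicComplete
    (R := ℚ) (A := k) (I := maximalIdeal R) g.toRatAlgHom
  exact ⟨f.toRingHom, fun x => AlgHom.congr_fun hf x⟩

section Eval

variable {K : Type*} [Field K] {R : Type*} [CommRing R] [Algebra K R] (I : Ideal R)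
  [IsAdicComplete I R] {d : ℕ} (y : Fin d → R) (hy : ∀ l, y l ∈ I)

open MvPowerSeries MvPolynomial in
include hy in
theorem aeval_mem_pow {n : ℕ} {p : MvPolynomial (Fin d) K}
    (hp : p ∈ idealOfVars (Fin d) K ^ n) : MvPolynomial.aeval y p ∈ I ^ n := by
  have h1 : (idealOfVars (Fin d) K).map (MvPolynomial.aeval y : MvPolynomial (Fin d) K →ₐ[K] R) ≤ I := by
    rw [Ideal.map_le_iff_le_comap, idealOfVars, Ideal.span_le]
    rintro _ ⟨l, rfl⟩
    rw [SetLike.mem_coe, Ideal.mem_comap, MvPolynomial.aeval_X]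
    exact hy l
  have h2 : MvPolynomial.aeval y p ∈
      ((idealOfVars (Fin d) K) ^ n).map (MvPolynomial.aeval y : MvPolynomial (Fin d) K →ₐ[K] R) :=
    Ideal.mem_map_of_mem _ hp
  rw [Ideal.map_pow] at h2
  exact Ideal.pow_right_mono h1 n h2

open MvPowerSeries MvPolynomial in
include hy in
/-- Evaluation of power series at elements of an ideal of a complete ring. -/
theorem exists_eval : ∃ φ : MvPowerSeries (Fin d) K →+* R,
    ∀ p : MvPolynomial (Fin d) K, φ (p : MvPowerSeries (Fin d) K) = MvPolynomial.aeval y p := by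
  let g : ∀ n, (MvPolynomial (Fin d) K ⧸ idealOfVars (Fin d) K ^ n) →+* R ⧸ I ^ n := fun n =>
    Ideal.Quotient.lift _ ((Ideal.Quotient.mk (I ^ n)).comp
      (MvPolynomial.aeval y : MvPolynomial (Fin d) K →ₐ[K] R).toRingHom) (fun p hp =>
        Ideal.Quotient.eq_zero_iff_mem.mpr (aeval_mem_pow I y hy hp))
  have hg : ∀ n p, g n (Ideal.Quotient.mk _ p) = Ideal.Quotient.mk (I ^ n) (MvPolynomial.aeval y p) :=
    fun n p => rfl
  let f : ∀ n, MvPowerSeries (Fin d) K →+* R ⧸ I ^ n := fun n =>
    (g n).comp (truncTotalAlgHom (Fin d) K n).toRingHom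
  have hf : ∀ n p, f n p = Ideal.Quotient.mk (I ^ n) (MvPolynomial.aeval y (truncTotal n p)) :=
    fun n p => rfl
  refine ⟨IsAdicComplete.liftRingHom I f ?_, ?_⟩
  · intro m n hle
    ext p
    rw [RingHom.comp_apply, hf, hf]
    show Ideal.Quotient.mk (I ^ m) _ = _
    rw [Ideal.Quotient.eq, ← map_sub]
    exact aeval_mem_pow I y hy (truncTotal_sub_truncTotal_mem_pow_idealOfVars hle le_rfl p)
  · intro p
    rw [IsHausdorff.eq_iff_smodEq (I := I)]
    intro n
    rw [SModEq.sub_mem, smul_eq_mul, Ideal.mul_top, ← Ideal.Quotient.eq,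
      IsAdicComplete.mk_liftRingHom, hf, Ideal.Quotient.eq, ← map_sub]
    apply aeval_mem_pow I y hy
    rw [MvPolynomial.mem_pow_idealOfVars_iff']
    intro x hx
    rw [MvPolynomial.coeff_sub, sub_eq_zero, coeff_truncTotal _ hx, MvPolynomial.coeff_coe]

end Eval

section Precomplete

theorem isPrecomplete_pi {A : Type*} [CommRing A] (I : Ideal A) [IsPrecomplete I A] (k : ℕ) :
    IsPrecomplete I (Fin k → A) := by
  have key : ∀ (n : ℕ) (v w : Fin k → A), v ≡ w [SMOD (I ^ n • ⊤ : Submodule A (Fin k → A))] ↔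
      ∀ i, v i ≡ w i [SMOD (I ^ n • ⊤ : Submodule A A)] := by
    intro n v w
    simp only [SModEq.sub_mem]
    constructor
    · intro h i
      have h1 : (v - w) i ∈ ((I ^ n • ⊤ : Submodule A (Fin k → A))).map
          (LinearMap.proj i : (Fin k → A) →ₗ[A] A) := ⟨v - w, h, rfl⟩
      rw [Submodule.map_smul''] at h1
      exact Submodule.smul_mono le_rfl le_top h1
    · intro h
      apply mem_smul_top_pi
      intro i
      have h1 := h i
      rw [smul_eq_mul, Ideal.mul_top] at h1
      exact h1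
  rw [isPrecomplete_iff]
  intro f hf
  have h1 : ∀ i, ∃ L : A, ∀ n, f n i ≡ L [SMOD (I ^ n • ⊤ : Submodule A A)] := fun i =>
    IsPrecomplete.prec ‹_› (f := fun n => f n i) fun {m n} hmn => (key m _ _).mp (hf hmn) i
  choose L hL using h1
  exact ⟨L, fun n => (key n _ _).mpr fun i => hL i n⟩

end Precomplete

section Finite

variable {K : Type*} [Field K] {R : Type*} [CommRing R] [IsNoetherianRing R] [IsLocalRing R]
  [Algebra K R] [IsAdicComplete (maximalIdeal R) R] {d : ℕ}
  [Algebra (MvPowerSeries (Fin d) K) R] [IsScalarTower K (MvPowerSeries (Fin d) K) R]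

/-- The quotient by an ideal of definition is finite-dimensional over a coefficient field. -/
theorem finite_quotient (hres : ∀ r : R, ∃ c : K, r - algebraMap K R c ∈ maximalIdeal R)
    (J : Ideal R) (hJ : J ≤ maximalIdeal R) (hrad : maximalIdeal R ≤ J.radical) :
    Module.Finite K (R ⧸ J) := by
  have hnt : Nontrivial (R ⧸ J) := by
    rw [Ideal.Quotient.nontrivial_iff]
    rintro rfl
    exact (maximalIdeal.isMaximal R).ne_top (top_le_iff.mp hJ)
  have hloc : IsLocalRing (R ⧸ J) := IsLocalRing.of_surjective' _ Ideal.Quotient.mk_surjective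
  have hmax : maximalIdeal R = (maximalIdeal (R ⧸ J)).comap (Ideal.Quotient.mk J) := by
    have : ((maximalIdeal (R ⧸ J)).comap (Ideal.Quotient.mk J)).IsMaximal :=
      Ideal.comap_isMaximal_of_surjective _ Ideal.Quotient.mk_surjective
    exact (IsLocalRing.eq_maximalIdeal this).symm
  have h0 : Ring.KrullDimLE 0 (R ⧸ J) := Ring.krullDimLE_zero_iff.mpr fun P hP => by
    have h1 : (P.comap (Ideal.Quotient.mk J)).IsPrime := Ideal.comap_isPrime _ _
    have h2 : J ≤ P.comap (Ideal.Quotient.mk J) := by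
      intro a ha
      rw [Ideal.mem_comap, Ideal.Quotient.eq_zero_iff_mem.mpr ha]
      exact P.zero_mem
    have h3 : maximalIdeal R ≤ P.comap (Ideal.Quotient.mk J) :=
      hrad.trans (h1.radical_le_iff.mpr h2)
    have h4 : maximalIdeal R = P.comap (Ideal.Quotient.mk J) :=
      (maximalIdeal.isMaximal R).eq_of_le h1.ne_top h3
    have h5 : P = (P.comap (Ideal.Quotient.mk J)).map (Ideal.Quotient.mk J) :=
      (Ideal.map_comap_of_surjective _ Ideal.Quotient.mk_surjective P).symm
    rw [h5, ← h4]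
    refine Ideal.IsMaximal.map_of_surjective_of_ker_le Ideal.Quotient.mk_surjective ?_
    rw [Ideal.mk_ker]
    exact hJ
  have hart : IsArtinianRing (R ⧸ J) := IsNoetherianRing.isArtinianRing_of_krullDimLE_zero
  refine (finite_of_coeffField (B := R ⧸ J) (F := K) ?_
    (isFiniteLength_iff_isNoetherian_isArtinian.mpr ⟨inferInstance, hart⟩)).1
  intro b
  obtain ⟨r, rfl⟩ := Ideal.Quotient.mk_surjective b
  obtain ⟨c, hc⟩ := hres r
  refine ⟨c, ?_⟩
  rw [hmax, Ideal.mem_comap, map_sub] at hc
  exact hc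

theorem finite_over_powerSeries
    (hres : ∀ r : R, ∃ c : K, r - algebraMap K R c ∈ maximalIdeal R)
    (hx : ∀ l, algebraMap (MvPowerSeries (Fin d) K) R (MvPowerSeries.X l) ∈ maximalIdeal R)
    (hrad : maximalIdeal R ≤ (Ideal.span (Set.range fun l : Fin d =>
      algebraMap (MvPowerSeries (Fin d) K) R (MvPowerSeries.X l))).radical) :
    Module.Finite (MvPowerSeries (Fin d) K) R := by
  let I : Ideal (MvPowerSeries (Fin d) K) := Ideal.span (Set.range MvPowerSeries.X)
  let J : Ideal R := Ideal.span (Set.range fun l : Fin d =>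
      algebraMap (MvPowerSeries (Fin d) K) R (MvPowerSeries.X l))
  have hIJ : I.map (algebraMap (MvPowerSeries (Fin d) K) R) = J := by
    rw [Ideal.map_span, ← Set.range_comp]
    rfl
  have hJ : J ≤ maximalIdeal R := by
    rw [Ideal.span_le]
    rintro _ ⟨l, rfl⟩
    exact hx l
  have hfin : Module.Finite K (R ⧸ J) := finite_quotient hres J hJ hrad
  obtain ⟨k, f₀, hf₀⟩ := Module.Finite.exists_fin' K (R ⧸ J)
  choose s hs using fun j : Fin k => Ideal.Quotient.mk_surjective (f₀ (Pi.single j 1))
  let f : (Fin k → MvPowerSeries (Fin d) K) →ₗ[MvPowerSeries (Fin d) K] R :=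
    Fintype.linearCombination (MvPowerSeries (Fin d) K) s
  have hprec : IsPrecomplete I (Fin k → MvPowerSeries (Fin d) K) := isPrecomplete_pi I k
  have hJne : J ≠ ⊤ := by
    intro h
    rw [h] at hJ
    exact (maximalIdeal.isMaximal R).ne_top (top_le_iff.mp hJ)
  have hhaus : IsHausdorff I R := by
    rw [← IsHausdorff.map_algebraMap_iff (S := R), hIJ]
    exact IsHausdorff.of_isLocalRing J R hJne
  have hsurj : Function.Surjective f := by
    apply surjective_of_mkQ_comp_surjective (I := I)
    intro q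
    obtain ⟨r, rfl⟩ := Submodule.Quotient.mk_surjective _ q
    obtain ⟨c, hc⟩ := hf₀ (Ideal.Quotient.mk J r)
    refine ⟨fun j => algebraMap K (MvPowerSeries (Fin d) K) (c j), ?_⟩
    rw [LinearMap.comp_apply, Submodule.mkQ_apply, Submodule.Quotient.eq]
    have h1 : f (fun j => algebraMap K (MvPowerSeries (Fin d) K) (c j)) - r ∈ J := by
      rw [← Ideal.Quotient.eq, ← hc, Fintype.linearCombination_apply, map_sum]
      have h2 : c = ∑ j, c j • Pi.single j 1 := by
        conv_lhs => rw [← Finset.univ_sum_single c]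
        refine Finset.sum_congr rfl fun j _ => ?_
        rw [← Pi.single_smul, smul_eq_mul, mul_one]
      conv_rhs => rw [h2]
      rw [map_sum]
      refine Finset.sum_congr rfl fun j _ => ?_
      rw [map_smul f₀, ← hs j, algebraMap_smul]
      rfl
    rw [Ideal.smul_top_eq_map, hIJ]
    exact h1
  exact Module.Finite.of_surjective f hsurj

/-- Finitely many elements span the ring over the coefficient field modulo an ideal of
definition. -/
theorem exists_span (hres : ∀ r : R, ∃ c : K, r - algebraMap K R c ∈ maximalIdeal R)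
    (J : Ideal R) (hJ : J ≤ maximalIdeal R) (hrad : maximalIdeal R ≤ J.radical) :
    ∃ (n : ℕ) (r : Fin n → R), ∀ r' : R, ∃ c : Fin n → K,
      r' - ∑ k, algebraMap K R (c k) * r k ∈ J := by
  have hfin : Module.Finite K (R ⧸ J) := finite_quotient hres J hJ hrad
  obtain ⟨n, f₀, hf₀⟩ := Module.Finite.exists_fin' K (R ⧸ J)
  choose s hs using fun j : Fin n => Ideal.Quotient.mk_surjective (f₀ (Pi.single j 1))
  refine ⟨n, s, fun r => ?_⟩
  obtain ⟨c, hc⟩ := hf₀ (Ideal.Quotient.mk J r)
  refine ⟨c, ?_⟩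
  rw [← Ideal.Quotient.eq, ← hc, map_sum]
  have h2 : c = ∑ j, c j • Pi.single j 1 := by
    conv_lhs => rw [← Finset.univ_sum_single c]
    refine Finset.sum_congr rfl fun j _ => ?_
    rw [← Pi.single_smul, smul_eq_mul, mul_one]
  conv_lhs => rw [h2]
  rw [map_sum]
  refine Finset.sum_congr rfl fun j _ => ?_
  rw [map_smul f₀, ← hs j, ← algebraMap_smul R]
  rfl

end Finite

end Pool.Agent.Lib.MP_682396_ag
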