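import Pool.Agent.Lib.MP_682396_ag.Global

/-!
# Two members of a sequence of rigid modules agree at the second level
-/

set_option autoImplicit false
set_option linter.unusedSectionVars false

open Module
open scoped Pointwise

universe u v w

namespace Pool.Agent.Lib.MP_682396_ag

open Tw

section Subseq

variable {K : Type*} [Field K]

/-- An infinite set of indices on which all nonzero functions of a finitely generated algebra
have finitely many zeros. -/
theorem exists_infinite_set (A : Subalgebra K (ℕ → K)) [IsNoetherianRing A] :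
    ∃ S : Set ℕ, S.Infinite ∧ ∀ f : A, (∃ i ∈ S, f.1 i ≠ 0) → {i ∈ S | f.1 i = 0}.Finite := by
  let van : Set ℕ → Ideal A := fun S =>
    { carrier := {f | ∀ i ∈ S, f.1 i = 0}
      zero_mem' := fun i _ => rfl
      add_mem' := fun {f g} hf hg i hi => by
        show f.1 i + g.1 i = 0
        rw [hf i hi, hg i hi, add_zero]
      smul_mem' := fun c f hf i hi => by
        show c.1 i * f.1 i = 0
        rw [hf i hi, mul_zero] }
  have hvan : ∀ S (f : A), f ∈ van S ↔ ∀ i ∈ S, f.1 i = 0 := fun S f => Iff.rfl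
  obtain ⟨J, ⟨S, hSinf, rfl⟩, hmax⟩ := set_has_maximal_iff_noetherian.mpr ‹IsNoetherianRing A›
    {J | ∃ S : Set ℕ, S.Infinite ∧ van S = J} ⟨_, Set.univ, Set.infinite_univ, rfl⟩
  refine ⟨S, hSinf, fun f hf => ?_⟩
  by_contra hinf
  have hle : van S ≤ van {i ∈ S | f.1 i = 0} := fun g hg i hi => hg i hi.1
  have heq : van S = van {i ∈ S | f.1 i = 0} := by
    by_contra hne
    exact hmax _ ⟨_, hinf, rfl⟩ (lt_of_le_of_ne hle hne)
  obtain ⟨i, hi, hfi⟩ := hf
  have : f ∈ van S := by
    rw [heq]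
    exact fun i hi => hi.2
  exact hfi (this i hi)

end Subseq

section Rel

variable {R : Type*} [CommRing R] {M N V : Type*} [AddCommGroup M] [Module R M] [AddCommGroup N]
  [Module R N] [AddCommGroup V]

theorem exists_linearMap_of_rel (P : Submodule R N) (f : N →+ V) (hf : Function.Surjective f)
    (hker : ∀ n, f n = 0 ↔ n ∈ P) (g : M →+ V)
    (hsm : ∀ (r : R) m n, f n = g m → f (r • n) = g (r • m)) :
    ∃ φ : M →ₗ[R] N ⧸ P, ∀ m n, f n = g m → φ m = Submodule.Quotient.mk n := by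
  choose c hc using fun m => hf (g m)
  have key : ∀ n n', f n = f n' → (Submodule.Quotient.mk n : N ⧸ P) = Submodule.Quotient.mk n' := by
    intro n n' h
    rw [Submodule.Quotient.eq, ← hker, map_sub, h, sub_self]
  refine ⟨{ toFun := fun m => Submodule.Quotient.mk (c m), map_add' := fun m m' => ?_,
            map_smul' := fun r m => ?_ }, fun m n h => key _ _ ((hc m).trans h.symm)⟩
  · rw [← Submodule.Quotient.mk_add]
    apply key
    rw [hc, map_add, map_add, hc, hc]
  · rw [RingHom.id_apply, ← Submodule.Quotient.mk_smul]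
    apply key
    rw [hc]
    exact (hsm r m _ (hc m)).symm

end Rel

section Seq

variable {K : Type*} [Field K] {R : Type u} [CommRing R] [Algebra K R] {Q : Type*} [Fintype Q]
  [DecidableEq Q] {d : ℕ} {x : Fin d → R}

/-- Coordinates on a module modulo the fifth level. -/
structure Coord (K : Type*) [Field K] {R : Type u} [CommRing R] [Algebra K R] (Q : Type*)
    [Fintype Q] [DecidableEq Q] {d : ℕ} (x : Fin d → R)
    (M : Type u) [AddCommGroup M] [Module R M] where
  /-- The action. -/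
  ρ : R →+* Matrix (Q × (Fin d → Fin 5)) (Q × (Fin d → Fin 5)) K
  /-- Coordinates on the quotient by the fifth level. -/
  θ : M →+ (Q × (Fin d → Fin 5) → K)
  shift : ∀ l, ρ (x l) = shiftMat K Q l
  scalar : ∀ (c : K) (a b : Q × (Fin d → Fin 5)), ρ (algebraMap K R c) a b = if a = b then c else 0
  smul : ∀ (r : R) (m : M) (a : Q × (Fin d → Fin 5)), θ (r • m) a = ∑ b, ρ r a b * θ m b
  surj : Function.Surjective θ
  ker : ∀ m, θ m = 0 ↔ m ∈ lev x M fun _ => 5

namespace Coord

variable {M : Type u} [AddCommGroup M] [Module R M] (C : Coord K Q x M)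

/-- The coordinates below level two. -/
def θ2 : M →+ (Ix2 Q d → K) where
  toFun m a := C.θ m a.1
  map_zero' := by
    funext a
    rw [map_zero]; rfl
  map_add' m m' := by
    funext a
    rw [map_add]; rfl

theorem θ2_apply (m : M) (a : Ix2 Q d) : C.θ2 m a = C.θ m a.1 := rfl

theorem θ2_surjective : Function.Surjective C.θ2 := by
  classical
  intro v
  obtain ⟨m, hm⟩ := C.surj fun a => if h : ∀ l, (a.2 l).val < 2 then v ⟨a, h⟩ else 0
  refine ⟨m, ?_⟩
  funext a
  rw [θ2_apply, hm]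
  exact dif_pos a.2

theorem θ2_smul (r : R) (m : M) (a : Ix2 Q d) :
    C.θ2 (r • m) a = ∑ b : Ix2 Q d, C.ρ r a.1 b.1 * C.θ2 m b := by
  rw [θ2_apply, C.smul, ← Fintype.sum_subtype_add_sum_subtype
    (fun b : Q × (Fin d → Fin 5) => ∀ l, (b.2 l).val < 2)]
  simp only [θ2_apply]
  rw [add_eq_left]
  apply Finset.sum_eq_zero
  intro b _
  rw [rho_block C.shift r a.1 b.1 a.2 b.2, zero_mul]

/-- The coordinates as a linear map. -/
def toTw : M →ₗ[R] Tw C.ρ K where
  toFun := C.θ
  map_add' := map_add C.θ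
  map_smul' r m := by
    apply Tw.ext
    intro a
    exact C.smul r m a

theorem θ2_ker (m : M) : C.θ2 m = 0 ↔ m ∈ lev x M fun _ => 2 := by
  have h1 : LinearMap.ker C.toTw ≤ lev x M fun _ => 2 := by
    intro y hy
    exact lev_anti (fun _ => by norm_num) ((C.ker y).mp hy)
  rw [comap_lev C.toTw C.surj h1, Submodule.mem_comap, mem_lev_iff C.shift]
  constructor
  · intro h a ha
    exact congrFun h ⟨a, ha⟩
  · intro h
    funext a
    exact h a.1 a.2

theorem ρ_span {n : ℕ} {r : Fin n → R} {r' : R} {c : Fin n → K}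
    (h : r' - ∑ k, algebraMap K R (c k) * r k ∈ lev x R fun _ => 5)
    (a b : Q × (Fin d → Fin 5)) : C.ρ r' a b = ∑ k, c k * C.ρ (r k) a b := by
  have h1 := rho_lev5 C.shift h a b
  rw [map_sub, Matrix.sub_apply, sub_eq_zero] at h1
  rw [h1, map_sum, Matrix.sum_apply]
  refine Finset.sum_congr rfl fun k _ => ?_
  rw [map_mul, Matrix.mul_apply, Finset.sum_eq_single a]
  · rw [C.scalar, if_pos rfl]
  · intro b' _ hb'
    rw [C.scalar, if_neg (Ne.symm hb'), zero_mul]
  · intro h
    exact absurd (Finset.mem_univ _) h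

end Coord

/-- Among infinitely many rigid modules two agree up to level two. -/
theorem exists_surjective_of_seq {n : ℕ} (r : Fin n → R)
    (hspan : ∀ r' : R, ∃ c : Fin n → K,
      r' - ∑ k, algebraMap K R (c k) * r k ∈ lev x R fun _ => 5)
    (M : ℕ → Type u) [∀ i, AddCommGroup (M i)] [∀ i, Module R (M i)]
    [∀ i, Module.Finite R (M i)] (C : ∀ i, Coord K Q x (M i))
    (hreg : ∀ i, RegSys x (M i)) (hst : ∀ i l, StabAnn (x l) (M i))
    (hrig : ∀ i (E : Type u) [AddCommGroup E] [Module R E] (f : M i →ₗ[R] E) (g : E →ₗ[R] M i),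
      Function.Injective f → Function.Surjective g →
      LinearMap.range f = LinearMap.ker g → ∃ s : M i →ₗ[R] E, g ∘ₗ s = LinearMap.id) :
    ∃ i j, i ≠ j ∧ ∃ φ : M i →ₗ[R] M j ⧸ lev x (M j) fun _ => 2, Function.Surjective φ := by
  classical
  -- the algebra of coefficient functions
  let A : Subalgebra K (ℕ → K) := Algebra.adjoin K
    (Set.range fun t : Fin n × (Q × (Fin d → Fin 5)) × (Q × (Fin d → Fin 5)) =>
      fun i : ℕ => (C i).ρ (r t.1) t.2.1 t.2.2)
  have hAN : IsNoetherianRing A := by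
    apply isNoetherianRing_of_fg
    exact Subalgebra.fg_def.mpr ⟨_, Set.finite_range _, rfl⟩
  have hmem : ∀ (r' : R) (a b : Q × (Fin d → Fin 5)), (fun i => (C i).ρ r' a b) ∈ A := by
    intro r' a b
    obtain ⟨c, hc⟩ := hspan r'
    have h1 : (fun i => (C i).ρ r' a b) = ∑ k, c k • fun i => (C i).ρ (r k) a b := by
      funext i
      rw [(C i).ρ_span hc a b, Finset.sum_apply]
      rfl
    rw [h1]
    refine Subalgebra.sum_mem _ fun k _ => Subalgebra.smul_mem _ ?_ _
    exact Algebra.subset_adjoin (Set.mem_range_self (k, a, b))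
  let ent : R → Matrix (Q × (Fin d → Fin 5)) (Q × (Fin d → Fin 5)) A :=
    fun r' => Matrix.of fun a b => ⟨fun i => (C i).ρ r' a b, hmem r' a b⟩
  have hent : ∀ r' a b i, (ent r' a b).1 i = (C i).ρ r' a b := fun _ _ _ _ => rfl
  let ρ : R →+* Matrix (Q × (Fin d → Fin 5)) (Q × (Fin d → Fin 5)) A :=
    { toFun := ent
      map_one' := by
        ext a b i
        rw [hent, map_one, Matrix.one_apply, Matrix.one_apply]
        split_ifs <;> rfl
      map_mul' := fun p q => by
        ext a b i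
        rw [hent, map_mul, Matrix.mul_apply, Matrix.mul_apply]
        rw [AddSubmonoidClass.coe_finsetSum, Finset.sum_apply]
        rfl
      map_zero' := by
        ext a b i
        rw [hent, map_zero]
        rfl
      map_add' := fun p q => by
        ext a b i
        rw [hent, map_add]
        rfl }
  have hρ : ∀ r' a b i, (ρ r' a b).1 i = (C i).ρ r' a b := fun _ _ _ _ => rfl
  have hx : ∀ l, ρ (x l) = shiftMat A Q l := by
    intro l
    ext a b i
    rw [hρ, (C i).shift]
    unfold shiftMat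
    split_ifs <;> rfl
  have hρK : ∀ (c : K) (a b : Q × (Fin d → Fin 5)), ρ (algebraMap K R c) a b =
      if a = b then algebraMap K A c else 0 := by
    intro c a b
    ext i
    rw [hρ, (C i).scalar]
    split_ifs <;> rfl
  let ε : ℕ → A →ₐ[K] K := fun i => (Pi.evalAlgHom K (fun _ : ℕ => K) i).comp A.val
  have hε : ∀ i (f : A), ε i f = f.1 i := fun _ _ => rfl
  obtain ⟨S, hS, hSf⟩ := exists_infinite_set A
  obtain ⟨i₀, hi₀⟩ := hS.nonempty
  let F : Fiber (ε i₀) ρ x (M i₀) :=
    { θ := (C i₀).θ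
      smul := (C i₀).smul
      surj := (C i₀).surj
      ker := (C i₀).ker }
  obtain ⟨g, hg1, hg⟩ := exists_intertwiner hx hρK F (hreg i₀) (hst i₀) (hrig i₀) r
  have hdet : (g.det).1 i₀ ≠ 0 := by
    rw [← hε, AlgHom.map_det]
    have : (ε i₀).mapMatrix g = 1 := by
      ext a b
      rw [AlgHom.mapMatrix_apply, Matrix.map_apply, hg1, Matrix.one_apply]
    rw [this, Matrix.det_one]
    exact one_ne_zero
  have hfin := hSf g.det ⟨i₀, hi₀, hdet⟩
  obtain ⟨i₁, hi₁S, hi₁⟩ : ∃ i ∈ S, i ∉ insert i₀ {i ∈ S | (g.det).1 i = 0} :=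
    hS.exists_notMem_finite (hfin.insert i₀)
  rw [Set.mem_insert_iff, not_or] at hi₁
  have hdet₁ : (g.det).1 i₁ ≠ 0 := fun h => hi₁.2 ⟨hi₁S, h⟩
  refine ⟨i₀, i₁, Ne.symm hi₁.1, ?_⟩
  let G : Matrix (Ix2 Q d) (Ix2 Q d) K := (ε i₁).mapMatrix g
  have hGdet : G.det ≠ 0 := by
    rw [← hε, AlgHom.map_det] at hdet₁
    exact hdet₁
  have hG : ∀ (r' : R) (a b : Ix2 Q d), ∑ b', (C i₁).ρ r' a.1 b'.1 * G b' b =
      ∑ b', G a b' * (C i₀).ρ r' b'.1 b.1 := by
    intro r' a b
    obtain ⟨c, hc⟩ := hspan r'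
    have h1 : ∀ k, ∑ b', (C i₁).ρ (r k) a.1 b'.1 * G b' b =
      ∑ b', G a b' * (C i₀).ρ (r k) b'.1 b.1 := by
      intro k
      have h2 := congrArg (ε i₁) (hg k a b)
      rw [map_sum, map_sum] at h2
      simp only [map_mul, AlgHom.commutes] at h2
      exact h2
    simp only [(C i₁).ρ_span hc, (C i₀).ρ_span hc, Finset.sum_mul, Finset.mul_sum]
    rw [Finset.sum_comm, Finset.sum_comm (s := Finset.univ (α := Ix2 Q d))]
    refine Finset.sum_congr rfl fun k _ => ?_
    have h3 := congrArg (fun y => c k * y) (h1 k)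
    simp only [Finset.mul_sum] at h3
    calc _ = ∑ b', c k * ((C i₁).ρ (r k) a.1 b'.1 * G b' b) :=
          Finset.sum_congr rfl fun b' _ => by ring
      _ = ∑ b', c k * (G a b' * (C i₀).ρ (r k) b'.1 b.1) := h3
      _ = _ := Finset.sum_congr rfl fun b' _ => by ring
  let gG : M i₀ →+ (Ix2 Q d → K) := G.mulVecLin.toAddMonoidHom.comp (C i₀).θ2
  have hgG : ∀ m a, gG m a = ∑ b, G a b * (C i₀).θ2 m b := fun _ _ => rfl
  obtain ⟨φ, hφ⟩ := exists_linearMap_of_rel (lev x (M i₁) fun _ => 2) (C i₁).θ2 (C i₁).θ2_surjective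
    (C i₁).θ2_ker gG (by
      intro r' m n h
      funext a
      rw [(C i₁).θ2_smul, hgG]
      simp only [h, hgG, (C i₀).θ2_smul, Finset.mul_sum]
      rw [Finset.sum_comm]
      conv_rhs => rw [Finset.sum_comm]
      refine Finset.sum_congr rfl fun b _ => ?_
      have h3 := congrArg (fun y => y * (C i₀).θ2 m b) (hG r' a b)
      simp only [Finset.sum_mul] at h3
      calc _ = ∑ b', (C i₁).ρ r' a.1 b'.1 * G b' b * (C i₀).θ2 m b :=
            Finset.sum_congr rfl fun b' _ => by ring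
        _ = ∑ b', G a b' * (C i₀).ρ r' b'.1 b.1 * (C i₀).θ2 m b := h3
        _ = _ := Finset.sum_congr rfl fun b' _ => by ring)
  refine ⟨φ, fun q => ?_⟩
  obtain ⟨n', rfl⟩ := Submodule.Quotient.mk_surjective _ q
  obtain ⟨m, hm⟩ := (C i₀).θ2_surjective (G⁻¹.mulVec ((C i₁).θ2 n'))
  refine ⟨m, hφ m n' ?_⟩
  show (C i₁).θ2 n' = G.mulVec ((C i₀).θ2 m)
  rw [hm, Matrix.mulVec_mulVec, Matrix.mul_nonsing_inv _ (isUnit_iff_ne_zero.mpr hGdet),
    Matrix.one_mulVec]

end Seq

end Pool.Agent.Lib.MP_682396_ag
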