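import Pool.Agent.Lib.MP_682396_ag.Stab

/-!
# Modules given by matrices, with shift operators
-/

set_option autoImplicit false
set_option linter.unusedSectionVars false

open Module
open scoped Pointwise

universe u v

namespace Pool.Agent.Lib.MP_682396_ag

/-- `W`-valued functions on `I`, with `R` acting through matrices over `Λ`. -/
def Tw {R Λ I : Type*} [CommRing R] [CommRing Λ] [Fintype I] [DecidableEq I]
    (_ : R →+* Matrix I I Λ) (W : Type*) : Type _ := I → W

namespace Tw

section Basic

variable {R Λ I : Type*} [CommRing R] [CommRing Λ] [Fintype I] [DecidableEq I]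
  {ρ : R →+* Matrix I I Λ} {W W' : Type*} [AddCommGroup W] [Module Λ W]
  [AddCommGroup W'] [Module Λ W']

instance : AddCommGroup (Tw ρ W) := inferInstanceAs (AddCommGroup (I → W))

instance : SMul R (Tw ρ W) := ⟨fun r v a => ∑ b, ρ r a b • v b⟩

theorem smul_apply (r : R) (v : Tw ρ W) (a : I) : (r • v) a = ∑ b, ρ r a b • v b := rfl

theorem add_apply (v w : Tw ρ W) (a : I) : (v + w) a = v a + w a := rfl

theorem zero_apply (a : I) : (0 : Tw ρ W) a = 0 := rfl

theorem neg_apply (v : Tw ρ W) (a : I) : (-v) a = -v a := rfl

theorem sub_apply (v w : Tw ρ W) (a : I) : (v - w) a = v a - w a := rfl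

theorem ext {v w : Tw ρ W} (h : ∀ a, v a = w a) : v = w := funext h

instance : Module R (Tw ρ W) where
  one_smul v := by
    apply ext; intro a
    rw [smul_apply, map_one, Finset.sum_eq_single a]
    · rw [Matrix.one_apply_eq, one_smul]
    · intro b _ hb
      rw [Matrix.one_apply_ne hb.symm, zero_smul]
    · intro h
      exact absurd (Finset.mem_univ _) h
  mul_smul r s v := by
    apply ext; intro a
    rw [smul_apply, smul_apply, map_mul]
    simp only [smul_apply, Matrix.mul_apply, Finset.sum_smul, Finset.smul_sum, smul_smul]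
    rw [Finset.sum_comm]
  smul_zero r := by
    apply ext; intro a
    rw [smul_apply]
    simp [zero_apply]
  smul_add r v w := by
    apply ext; intro a
    rw [smul_apply, add_apply, smul_apply, smul_apply]
    simp only [add_apply, smul_add, Finset.sum_add_distrib]
  add_smul r s v := by
    apply ext; intro a
    rw [smul_apply, add_apply, smul_apply, smul_apply, map_add]
    simp only [Matrix.add_apply, add_smul, Finset.sum_add_distrib]
  zero_smul v := by
    apply ext; intro a
    rw [smul_apply, map_zero]
    simp [zero_apply]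

/-- Evaluation at an index. -/
def evalHom (ρ : R →+* Matrix I I Λ) (W : Type*) [AddCommGroup W] [Module Λ W] (a : I) :
    Tw ρ W →+ W where
  toFun v := v a
  map_zero' := rfl
  map_add' _ _ := rfl

theorem sum_apply {ι : Type*} (s : Finset ι) (f : ι → Tw ρ W) (a : I) :
    (∑ i ∈ s, f i) a = ∑ i ∈ s, f i a := map_sum (evalHom ρ W a) f s

/-- The function supported at one index. -/
def single (ρ : R →+* Matrix I I Λ) {W : Type*} [AddCommGroup W] [Module Λ W] (b : I) (w : W) :
    Tw ρ W := fun a => if a = b then w else 0

theorem single_apply (b : I) (w : W) (a : I) : single ρ b w a = if a = b then w else 0 := rfl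

theorem eq_sum_single (v : Tw ρ W) : v = ∑ b, single ρ b (v b) := by
  apply ext
  intro a
  rw [sum_apply, Finset.sum_eq_single a]
  · rw [single_apply, if_pos rfl]
  · intro b _ hb
    rw [single_apply, if_neg (Ne.symm hb)]
  · intro h
    exact absurd (Finset.mem_univ _) h

variable (ρ) in
/-- Functoriality in `W`. -/
def map (f : W →ₗ[Λ] W') : Tw ρ W →ₗ[R] Tw ρ W' where
  toFun v a := f (v a)
  map_add' v w := by
    apply ext; intro a
    show f ((v + w) a) = _
    rw [add_apply, map_add]; rfl
  map_smul' r v := by
    apply ext; intro a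
    show f ((r • v) a) = _
    rw [smul_apply, map_sum]
    simp only [map_smul]
    rfl

theorem map_apply (f : W →ₗ[Λ] W') (v : Tw ρ W) (a : I) : map ρ f v a = f (v a) := rfl

theorem map_surjective {f : W →ₗ[Λ] W'} (hf : Function.Surjective f) :
    Function.Surjective (map ρ f) := by
  intro w
  choose g hg using fun a => hf (w a)
  exact ⟨g, ext fun a => hg a⟩

end Basic

section Shift

variable {R Λ Q : Type*} [CommRing R] [CommRing Λ] [Fintype Q] [DecidableEq Q] {d : ℕ}

/-- The matrix of the shift operator in direction `l`. -/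
def shiftMat (Λ : Type*) [CommRing Λ] (Q : Type*) [DecidableEq Q] {d : ℕ} (l : Fin d) :
    Matrix (Q × (Fin d → Fin 5)) (Q × (Fin d → Fin 5)) Λ :=
  fun a b => if a.1 = b.1 ∧ 0 < (a.2 l).val ∧
    b.2 = Function.update a.2 l ⟨(a.2 l).val - 1, by omega⟩ then 1 else 0

variable {ρ : R →+* Matrix (Q × (Fin d → Fin 5)) (Q × (Fin d → Fin 5)) Λ} {W W' : Type*}
  [AddCommGroup W] [Module Λ W] [AddCommGroup W'] [Module Λ W']
  {x : Fin d → R}

theorem shift_apply (hx : ∀ l, ρ (x l) = shiftMat Λ Q l) (l : Fin d) (v : Tw ρ W)
    (a : Q × (Fin d → Fin 5)) :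
    (x l • v) a = if 0 < (a.2 l).val then
      v (a.1, Function.update a.2 l ⟨(a.2 l).val - 1, by omega⟩) else 0 := by
  rw [smul_apply, hx]
  by_cases h : 0 < (a.2 l).val
  · rw [if_pos h, Finset.sum_eq_single
      ((a.1, Function.update a.2 l ⟨(a.2 l).val - 1, by omega⟩) : Q × (Fin d → Fin 5))]
    · simp [shiftMat, h]
    · intro b _ hb
      have : ¬ (a.1 = b.1 ∧ 0 < (a.2 l).val ∧
          b.2 = Function.update a.2 l ⟨(a.2 l).val - 1, by omega⟩) := by
        rintro ⟨h1, -, h2⟩
        exact hb (Prod.ext h1.symm h2)
      simp only [shiftMat]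
      rw [if_neg this, zero_smul]
    · intro h'
      exact absurd (Finset.mem_univ _) h'
  · rw [if_neg h]
    apply Finset.sum_eq_zero
    intro b _
    have : ¬ (a.1 = b.1 ∧ 0 < (a.2 l).val ∧
        b.2 = Function.update a.2 l ⟨(a.2 l).val - 1, by omega⟩) := fun h' => h h'.2.1
    simp only [shiftMat]
    rw [if_neg this, zero_smul]

theorem shift_pow_apply (hx : ∀ l, ρ (x l) = shiftMat Λ Q l) (l : Fin d) (k : ℕ) (v : Tw ρ W)
    (a : Q × (Fin d → Fin 5)) :
    (x l ^ k • v) a = if k ≤ (a.2 l).val then
      v (a.1, Function.update a.2 l ⟨(a.2 l).val - k, by omega⟩) else 0 := by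
  induction k generalizing a with
  | zero => simp
  | succ k ih =>
    rw [pow_succ', mul_smul, shift_apply hx]
    by_cases h : 0 < (a.2 l).val
    · rw [if_pos h, ih]
      by_cases h' : k + 1 ≤ (a.2 l).val
      · rw [if_pos h', if_pos (by simp; omega)]
        congr 2
        simp only [Function.update_idem, Function.update_self]
        congr 1
        ext
        simp only
        omega
      · rw [if_neg h', if_neg (by simp; omega)]
    · rw [if_neg h, if_neg (by omega)]

/-- The level submodules. -/
def lev (x : Fin d → R) (N : Type*) [AddCommGroup N] [Module R N] (c : Fin d → ℕ) :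
    Submodule R N := ⨆ l, (x l ^ c l) • (⊤ : Submodule R N)

theorem mem_lev_iff (hx : ∀ l, ρ (x l) = shiftMat Λ Q l) (c : Fin d → ℕ) (v : Tw ρ W) :
    v ∈ lev x (Tw ρ W) c ↔ ∀ a : Q × (Fin d → Fin 5), (∀ l, (a.2 l).val < c l) → v a = 0 := by
  constructor
  · intro hv a ha
    rw [lev] at hv
    induction hv using Submodule.iSup_induction' with
    | mem l w hw =>
      obtain ⟨w', -, rfl⟩ := Submodule.mem_smul_pointwise_iff_exists _ _ _ |>.mp hw
      rw [shift_pow_apply hx, if_neg (by have := ha l; omega)]
    | zero => rfl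
    | add w w' _ _ h h' => rw [add_apply, h, h', add_zero]
  · intro hv
    rw [eq_sum_single v]
    refine Submodule.sum_mem _ fun b _ => ?_
    by_cases hb : ∀ l, (b.2 l).val < c l
    · have h0 : single ρ b (v b) = 0 := by
        apply ext
        intro a
        rw [single_apply, hv b hb, ite_self, zero_apply]
      rw [h0]
      exact zero_mem _
    · push Not at hb
      obtain ⟨l, hl⟩ := hb
      apply Submodule.mem_iSup_of_mem l
      rw [Submodule.mem_smul_pointwise_iff_exists]
      refine ⟨single ρ (b.1, Function.update b.2 l ⟨(b.2 l).val - c l, by omega⟩) (v b),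
        trivial, ?_⟩
      apply ext
      intro a
      rw [shift_pow_apply hx]
      by_cases hab : a = b
      · subst hab
        rw [if_pos hl, single_apply, single_apply, if_pos rfl, if_pos rfl]
      · rw [single_apply, single_apply, if_neg hab]
        by_cases h3 : c l ≤ (a.2 l).val
        · rw [if_pos h3, if_neg]
          intro h4
          apply hab
          have h5 := congrArg Prod.fst h4
          have h6 := congrArg Prod.snd h4
          simp only at h5 h6
          apply Prod.ext h5
          funext l'
          have h7 := congrFun h6 l'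
          by_cases hl' : l' = l
          · subst hl'
            simp only [Function.update_self] at h7
            have h8 := congrArg Fin.val h7
            simp only at h8
            ext
            omega
          · rwa [Function.update_of_ne hl', Function.update_of_ne hl'] at h7
        · rw [if_neg h3]

theorem map_mem_lev (hx : ∀ l, ρ (x l) = shiftMat Λ Q l) {c : Fin d → ℕ} (f : W →ₗ[Λ] W')
    {v : Tw ρ W} (hv : v ∈ lev x (Tw ρ W) c) : map ρ f v ∈ lev x (Tw ρ W') c := by
  rw [mem_lev_iff hx] at hv ⊢
  intro a ha
  rw [map_apply, hv a ha, map_zero]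

theorem mem_lev_of_map (hx : ∀ l, ρ (x l) = shiftMat Λ Q l) {c : Fin d → ℕ} {f : W →ₗ[Λ] W'}
    (hf : Function.Injective f) {v : Tw ρ W} (hv : map ρ f v ∈ lev x (Tw ρ W') c) :
    v ∈ lev x (Tw ρ W) c := by
  rw [mem_lev_iff hx] at hv ⊢
  intro a ha
  apply hf
  rw [map_zero]
  exact hv a ha

end Shift

end Tw

end Pool.Agent.Lib.MP_682396_ag
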