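import Pool.Agent.Lib.MP_682396_ag.Rigid

/-!
# Lifting along matrix families
-/

set_option autoImplicit false
set_option linter.unusedSectionVars false

open Module
open scoped Pointwise

universe u v w

namespace Pool.Agent.Lib.MP_682396_ag

open Tw

section TwLift

variable {R Λ Q : Type*} [CommRing R] [CommRing Λ] [Fintype Q] [DecidableEq Q] {d : ℕ}
  {ρ : R →+* Matrix (Q × (Fin d → Fin 5)) (Q × (Fin d → Fin 5)) Λ} {W : Type*}
  [AddCommGroup W] [Module Λ W] {x : Fin d → R} {Ω : Type*} [AddCommGroup Ω] [Module R Ω]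

theorem update_val (α : Fin d → Fin 5) (l l' : Fin d) (k : Fin 5) :
    ((Function.update α l k) l').val = if l' = l then k.val else (α l').val := by
  by_cases h : l' = l
  · subst h; simp
  · simp [h]

theorem lev_of_smul (hx : ∀ l, ρ (x l) = shiftMat Λ Q l) {c c' : Fin d → ℕ} {l : Fin d}
    (h : ∀ l', l' ≠ l → c' l' ≤ c l') (hl : c' l + 1 ≤ c l) (hl4 : c' l ≤ 4)
    {v : Tw ρ W} (hv : x l • v ∈ lev x (Tw ρ W) c) : v ∈ lev x (Tw ρ W) c' := by
  rw [mem_lev_iff hx] at hv ⊢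
  intro a ha
  have hal : (a.2 l).val + 1 < 5 := by
    have := ha l
    omega
  have h1 := hv (a.1, Function.update a.2 l ⟨(a.2 l).val + 1, hal⟩) (by
    intro l'
    have := ha l'
    show ((Function.update a.2 l ⟨(a.2 l).val + 1, hal⟩) l').val < c l'
    rw [update_val]
    split_ifs with h2
    · subst h2
      show (a.2 l').val + 1 < c l'
      omega
    · have := h l' h2
      omega)
  rw [shift_apply hx, if_pos (by simp)] at h1
  simp only [Function.update_self, Nat.add_sub_cancel, Function.update_idem, Fin.eta,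
    Function.update_eq_self] at h1
  exact h1

theorem smul_mem_lev (hx : ∀ l, ρ (x l) = shiftMat Λ Q l) {c c' : Fin d → ℕ} {l : Fin d}
    (h : ∀ l', l' ≠ l → c l' ≤ c' l') (hl : c l ≤ c' l + 1)
    {v : Tw ρ W} (hv : v ∈ lev x (Tw ρ W) c') : x l • v ∈ lev x (Tw ρ W) c := by
  rw [mem_lev_iff hx] at hv ⊢
  intro a ha
  rw [shift_apply hx]
  split_ifs with h0
  · apply hv
    intro l'
    have := ha l'
    show ((Function.update a.2 l _) l').val < c' l'
    rw [update_val]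
    split_ifs with h2
    · subst h2
      show (a.2 l').val - 1 < c' l'
      omega
    · have := h l' h2
      omega
  · rfl

/-- Exponents of the chain. -/
def cA (d : ℕ) (j : Fin (d + 1)) (l : Fin d) : ℕ := if l.castSucc < j then 4 else 3

/-- Exponents of the intermediate terms of the chain. -/
def cB (d : ℕ) (j l : Fin d) : ℕ := if l < j then 4 else if l = j then 5 else 3

theorem cA_castSucc (j l : Fin d) : cA d j.castSucc l = if l < j then 4 else 3 := rfl

theorem cA_succ (j l : Fin d) : cA d j.succ l = if l ≤ j then 4 else 3 := by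
  unfold cA
  congr 1
  rw [Fin.castSucc_lt_succ_iff]

theorem lift_Tw (hx : ∀ l, ρ (x l) = shiftMat Λ Q l) (hΩ : ∀ l, StabAnn (x l) Ω)
    (φ : Ω →ₗ[R] Tw ρ W ⧸ lev x (Tw ρ W) (fun _ => 3)) :
    ∃ ψ : Ω →ₗ[R] Tw ρ W ⧸ lev x (Tw ρ W) (fun _ => 4), ∀ ω,
      Submodule.factor (p := (lev x (Tw ρ W) fun _ => 4)) (p' := lev x (Tw ρ W) fun _ => 2)
        (lev_anti fun _ => by norm_num) (ψ ω) =
      Submodule.factor (p := (lev x (Tw ρ W) fun _ => 3)) (p' := lev x (Tw ρ W) fun _ => 2)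
        (lev_anti fun _ => by norm_num) (φ ω) := by
  refine lift_chain' hΩ (fun j => lev x (Tw ρ W) (cA d j)) (fun j => lev x (Tw ρ W) (cB d j))
    (lev x (Tw ρ W) fun _ => 2) ?_ ?_ ?_ ?_ ?_ ?_ ?_ ?_ _ _ φ
  · intro j
    apply lev_anti
    intro l
    rw [cA_castSucc, cB]
    split_ifs <;> omega
  · intro j
    apply iSup_le
    intro l
    by_cases hl : l = j
    · subst hl
      refine le_trans ?_ le_sup_right
      intro n hn
      obtain ⟨w, -, rfl⟩ := Submodule.mem_smul_pointwise_iff_exists _ _ _ |>.mp hn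
      rw [Submodule.mem_smul_pointwise_iff_exists]
      refine ⟨x l ^ 2 • w, trivial, ?_⟩
      have h1 : cA d l.castSucc l = 3 := by
        rw [cA_castSucc, if_neg (lt_irrefl l)]
      rw [h1, smul_smul, ← pow_succ']
    · refine le_trans ?_ le_sup_left
      have h1 : cA d j.castSucc l = cB d j l := by
        rw [cA_castSucc, cB, if_neg hl]
      rw [h1]
      exact le_iSup (fun l => (x l ^ cB d j l) • (⊤ : Submodule R (Tw ρ W))) l
  · intro j n hn
    refine lev_of_smul hx ?_ ?_ ?_ hn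
    · intro l' hl'
      rw [cA_succ, cB, if_neg hl']
      have : l' ≤ j ↔ l' < j := ⟨fun h => lt_of_le_of_ne h hl', le_of_lt⟩
      simp only [this]
      exact le_rfl
    · rw [cA_succ, cB, if_pos le_rfl, if_neg (lt_irrefl j), if_pos rfl]
    · rw [cA_succ, if_pos le_rfl]
  · intro j n hn
    refine smul_mem_lev hx ?_ ?_ hn
    · intro l' hl'
      rw [cA_succ, cB, if_neg hl']
      have : l' ≤ j ↔ l' < j := ⟨fun h => lt_of_le_of_ne h hl', le_of_lt⟩
      simp only [this]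
      exact le_rfl
    · rw [cA_succ, cB, if_pos le_rfl, if_neg (lt_irrefl j), if_pos rfl]
  · intro j n hn
    refine lev_of_smul hx ?_ ?_ ?_ hn
    · intro l' _
      rw [cA_castSucc]
      split_ifs <;> omega
    · rw [cA_castSucc, if_neg (lt_irrefl j)]
    · norm_num
  · intro j
    apply lev_anti
    intro l
    unfold cA
    split_ifs <;> omega
  · rfl
  · congr 1
    funext l
    unfold cA
    rw [if_pos (Fin.castSucc_lt_last l)]

theorem exists_lift_of_injective {A B : Type*} [AddCommGroup A] [Module R A] [AddCommGroup B]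
    [Module R B] (i : A →ₗ[R] B) (hi : Function.Injective i) (f : Ω →ₗ[R] B)
    (h : ∀ ω, f ω ∈ LinearMap.range i) : ∃ f' : Ω →ₗ[R] A, ∀ ω, i (f' ω) = f ω := by
  let e := LinearEquiv.ofInjective i hi
  refine ⟨e.symm.toLinearMap ∘ₗ LinearMap.codRestrict _ f h, fun ω => ?_⟩
  have h6 : (e (e.symm ⟨f ω, h ω⟩) : B) = f ω := by rw [LinearEquiv.apply_symm_apply]
  exact h6

variable (ρ) in
/-- The map induced on quotients by levels. -/
def mapLev {W' : Type*} [AddCommGroup W'] [Module Λ W'] (hx : ∀ l, ρ (x l) = shiftMat Λ Q l)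
    (c : Fin d → ℕ) (f : W →ₗ[Λ] W') :
    (Tw ρ W ⧸ lev x (Tw ρ W) c) →ₗ[R] (Tw ρ W' ⧸ lev x (Tw ρ W') c) :=
  Submodule.mapQ _ _ (map ρ f) fun _ hv => map_mem_lev hx f hv

theorem mapLev_mk {W' : Type*} [AddCommGroup W'] [Module Λ W']
    (hx : ∀ l, ρ (x l) = shiftMat Λ Q l)
    (c : Fin d → ℕ) (f : W →ₗ[Λ] W') (v : Tw ρ W) :
    mapLev ρ hx c f (Submodule.Quotient.mk v) = Submodule.Quotient.mk (map ρ f v) := rfl

theorem mapLev_factor {W' : Type*} [AddCommGroup W'] [Module Λ W']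
    (hx : ∀ l, ρ (x l) = shiftMat Λ Q l)
    {c c' : Fin d → ℕ} (h : lev x (Tw ρ W) c ≤ lev x (Tw ρ W) c')
    (h' : lev x (Tw ρ W') c ≤ lev x (Tw ρ W') c') (f : W →ₗ[Λ] W')
    (q : Tw ρ W ⧸ lev x (Tw ρ W) c) :
    mapLev ρ hx c' f (Submodule.factor h q) = Submodule.factor h' (mapLev ρ hx c f q) := by
  obtain ⟨v, rfl⟩ := Submodule.Quotient.mk_surjective _ q
  rfl

theorem mapLev_surjective {W' : Type*} [AddCommGroup W'] [Module Λ W']
    (hx : ∀ l, ρ (x l) = shiftMat Λ Q l)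
    (c : Fin d → ℕ) {f : W →ₗ[Λ] W'} (hf : Function.Surjective f) :
    Function.Surjective (mapLev ρ hx c f) := by
  intro q
  obtain ⟨v, rfl⟩ := Submodule.Quotient.mk_surjective _ q
  obtain ⟨w, rfl⟩ := map_surjective hf v
  exact ⟨Submodule.Quotient.mk w, rfl⟩

theorem mapLev_injective {W' : Type*} [AddCommGroup W'] [Module Λ W']
    (hx : ∀ l, ρ (x l) = shiftMat Λ Q l)
    (c : Fin d → ℕ) {f : W →ₗ[Λ] W'} (hf : Function.Injective f) :
    Function.Injective (mapLev ρ hx c f) := by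
  rw [← LinearMap.ker_eq_bot, LinearMap.ker_eq_bot']
  intro q hq
  obtain ⟨v, rfl⟩ := Submodule.Quotient.mk_surjective _ q
  rw [mapLev_mk, Submodule.Quotient.mk_eq_zero] at hq
  rw [Submodule.Quotient.mk_eq_zero]
  exact mem_lev_of_map hx hf hq

theorem mapLev_exact {W' : Type*} [AddCommGroup W'] [Module Λ W']
    (hx : ∀ l, ρ (x l) = shiftMat Λ Q l)
    (c : Fin d → ℕ) (f : W →ₗ[Λ] W') (q : Tw ρ W ⧸ lev x (Tw ρ W) c)
    (hq : mapLev ρ hx c f q = 0) :
    q ∈ LinearMap.range (mapLev ρ hx c (LinearMap.ker f).subtype) := by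
  classical
  obtain ⟨v, rfl⟩ := Submodule.Quotient.mk_surjective _ q
  rw [mapLev_mk, Submodule.Quotient.mk_eq_zero, mem_lev_iff hx] at hq
  have h1 : ∀ a : Q × (Fin d → Fin 5), (∀ l, (a.2 l).val < c l) → v a ∈ LinearMap.ker f := by
    intro a ha
    exact hq a ha
  let n : Tw ρ (LinearMap.ker f) :=
    fun a => if h : ∀ l, (a.2 l).val < c l then ⟨v a, h1 a h⟩ else 0
  refine ⟨Submodule.Quotient.mk n, ?_⟩
  rw [mapLev_mk, Submodule.Quotient.eq, mem_lev_iff hx]
  intro a ha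
  rw [Tw.sub_apply, map_apply]
  have : n a = ⟨v a, h1 a ha⟩ := dif_pos ha
  rw [this]
  exact sub_self _

theorem mapLev_subtype_ker {W' : Type*} [AddCommGroup W'] [Module Λ W']
    (hx : ∀ l, ρ (x l) = shiftMat Λ Q l)
    (c : Fin d → ℕ) (f : W →ₗ[Λ] W') (q) :
    mapLev ρ hx c f (mapLev ρ hx c (LinearMap.ker f).subtype q) = 0 := by
  obtain ⟨w, rfl⟩ := Submodule.Quotient.mk_surjective _ q
  rw [mapLev_mk, mapLev_mk, Submodule.Quotient.mk_eq_zero, mem_lev_iff hx]
  intro a _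
  exact (w a).2

end TwLift

section Claim

variable {R Λ Q : Type*} [CommRing R] [CommRing Λ] [Fintype Q] [DecidableEq Q] {d : ℕ}
  {ρ : R →+* Matrix (Q × (Fin d → Fin 5)) (Q × (Fin d → Fin 5)) Λ} {x : Fin d → R} {m : ℕ}
  {Ω : Submodule R (Fin m → R)}

theorem factor_factor {N : Type*} [AddCommGroup N] [Module R N] {A B C : Submodule R N}
    (h : A ≤ B) (h' : B ≤ C) (h'' : A ≤ C) (q : N ⧸ A) :
    Submodule.factor h' (Submodule.factor h q) = Submodule.factor h'' q := by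
  obtain ⟨v, rfl⟩ := Submodule.Quotient.mk_surjective _ q
  rfl

theorem extV_step (hx : ∀ l, ρ (x l) = shiftMat Λ Q l) (hΩ : ∀ l, StabAnn (x l) Ω)
    {W W₀ : Type*} [AddCommGroup W] [Module Λ W] [AddCommGroup W₀] [Module Λ W₀]
    (p : W →ₗ[Λ] W₀) (hp : Function.Surjective p)
    (hS : ExtV Ω (Tw ρ W₀) (lev x (Tw ρ W₀) fun _ => 4)
      (lev x (Tw ρ W₀) fun _ => 3) (lev_anti fun _ => by norm_num))
    (ih : ExtV Ω (Tw ρ (LinearMap.ker p)) (lev x (Tw ρ (LinearMap.ker p)) fun _ => 3)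
      (lev x (Tw ρ (LinearMap.ker p)) fun _ => 2) (lev_anti fun _ => by norm_num)) :
    ExtV Ω (Tw ρ W) (lev x (Tw ρ W) fun _ => 3) (lev x (Tw ρ W) fun _ => 2)
        (lev_anti fun _ => by norm_num) := by
  intro g
  obtain ⟨g', hg'⟩ := lift_Tw hx hΩ g
  obtain ⟨H'', hH''⟩ := hS (mapLev ρ hx (fun _ => 4) p ∘ₗ g')
  obtain ⟨H₁, hH₁⟩ := Module.projective_lifting_property
    (mapLev ρ hx (fun _ => 3) p) H'' (mapLev_surjective hx _ hp)
  have hH₁' : ∀ v, mapLev ρ hx (fun _ => 3) p (H₁ v) = H'' v :=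
    fun v => LinearMap.congr_fun hH₁ v
  have h43 : lev x (Tw ρ W) (fun _ => 4) ≤ lev x (Tw ρ W) (fun _ => 3) :=
    lev_anti fun _ => by norm_num
  have h32 : lev x (Tw ρ W) (fun _ => 3) ≤ lev x (Tw ρ W) (fun _ => 2) :=
    lev_anti fun _ => by norm_num
  have h42 : lev x (Tw ρ W) (fun _ => 4) ≤ lev x (Tw ρ W) (fun _ => 2) :=
    h43.trans h32
  let f₀ : Ω →ₗ[R] Tw ρ W ⧸ lev x (Tw ρ W) (fun _ => 3) :=
    Submodule.factor h43 ∘ₗ g' - H₁ ∘ₗ Ω.subtype
  have hf₀ : ∀ ω : Ω, f₀ ω = Submodule.factor h43 (g' ω) - H₁ ω := fun ω => rfl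
  obtain ⟨f, hf⟩ := exists_lift_of_injective (mapLev ρ hx (fun _ => 3) (LinearMap.ker p).subtype)
    (mapLev_injective hx _ (LinearMap.ker p).injective_subtype) f₀ (by
      intro ω
      apply mapLev_exact
      rw [hf₀, map_sub, hH₁', mapLev_factor hx h43 (lev_anti fun _ => by norm_num), sub_eq_zero,
        hH'' ω, LinearMap.comp_apply])
  obtain ⟨H', hH'⟩ := ih f
  refine ⟨Submodule.factor h32 ∘ₗ H₁ + mapLev ρ hx (fun _ => 2) (LinearMap.ker p).subtype ∘ₗ H',
    fun ω => ?_⟩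
  rw [LinearMap.add_apply, LinearMap.comp_apply, LinearMap.comp_apply, hH',
    mapLev_factor hx (lev_anti fun _ => by norm_num) h32, hf, hf₀, map_sub,
    factor_factor h43 h32 h42, hg' ω, add_sub_cancel]

theorem comap_lev_map (hx : ∀ l, ρ (x l) = shiftMat Λ Q l) {W W₀ : Type*} [AddCommGroup W]
    [Module Λ W] [AddCommGroup W₀] [Module Λ W₀] (e : W →ₗ[Λ] W₀) (he : Function.Injective e)
    (c : Fin d → ℕ) : lev x (Tw ρ W) c = (lev x (Tw ρ W₀) c).comap (map ρ e) := by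
  ext v
  rw [Submodule.mem_comap]
  exact ⟨fun h => map_mem_lev hx e h, fun h => mem_lev_of_map hx he h⟩

theorem extV_Tw (hx : ∀ l, ρ (x l) = shiftMat Λ Q l) (hΩ : ∀ l, StabAnn (x l) Ω)
    (I : Ideal Λ) [I.IsMaximal]
    (hS : ExtV Ω (Tw ρ (Λ ⧸ I)) (lev x (Tw ρ (Λ ⧸ I)) fun _ => 4)
      (lev x (Tw ρ (Λ ⧸ I)) fun _ => 3) (lev_anti fun _ => by norm_num))
    (W : Type w) [AddCommGroup W] [Module Λ W] (hW : IsFiniteLength Λ W) (s : ℕ)
    (hs : ∀ a ∈ I ^ s, ∀ w : W, a • w = 0) :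
    ExtV Ω (Tw ρ W) (lev x (Tw ρ W) fun _ => 3) (lev x (Tw ρ W) fun _ => 2)
        (lev_anti fun _ => by norm_num) := by
  induction hW with
  | @of_subsingleton W _ _ hss =>
    intro g
    have hs' : Subsingleton (Tw ρ W ⧸ lev x (Tw ρ W) fun _ => 2) := by
      have : Subsingleton (Tw ρ W) := ⟨fun a b => Tw.ext fun _ => Subsingleton.elim _ _⟩
      exact (Submodule.Quotient.mk_surjective _).subsingleton
    exact ⟨0, fun ω => Subsingleton.elim _ _⟩
  | @of_simple_quotient W _ _ N hsimple hN ih =>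
    obtain ⟨J, hJ, ⟨e⟩⟩ := isSimpleModule_iff_quot_maximal.mp hsimple
    have hIJ : I = J := by
      apply (‹I.IsMaximal›).eq_of_le hJ.ne_top
      have h1 : I ^ s ≤ J := by
        intro a ha
        obtain ⟨w, hw⟩ := Submodule.Quotient.mk_surjective _ (e.symm (Submodule.Quotient.mk 1))
        have h2 : a • e.symm (Submodule.Quotient.mk 1) = 0 := by
          rw [← hw, ← Submodule.Quotient.mk_smul, hs a ha w, Submodule.Quotient.mk_zero]
        rw [← map_smul, LinearEquiv.map_eq_zero_iff, ← Submodule.Quotient.mk_smul,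
          Submodule.Quotient.mk_eq_zero, smul_eq_mul, mul_one] at h2
        exact h2
      exact hJ.isPrime.le_of_pow_le h1
    subst hIJ
    let p : W →ₗ[Λ] Λ ⧸ I := e.toLinearMap ∘ₗ N.mkQ
    have hp : Function.Surjective p := e.surjective.comp (Submodule.mkQ_surjective N)
    have hker : LinearMap.ker p = N := by
      ext w
      rw [LinearMap.mem_ker, LinearMap.comp_apply, LinearEquiv.coe_coe,
        LinearEquiv.map_eq_zero_iff, Submodule.mkQ_apply, Submodule.Quotient.mk_eq_zero]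
    have ih' := ih (fun a ha w => Subtype.ext (hs a ha w))
    rw [← hker] at ih'
    exact extV_step hx hΩ p hp hS ih'

/-- Lifting a homomorphism along an extension of the coefficients. -/
theorem exists_lift {M : Type*} [AddCommGroup M] [Module R M] (π : (Fin m → R) →ₗ[R] M)
    (hπ : Function.Surjective π)
    (hx : ∀ l, ρ (x l) = shiftMat Λ Q l)
    {W W₀ : Type*} [AddCommGroup W] [Module Λ W] [AddCommGroup W₀] [Module Λ W₀]
    (q : W →ₗ[Λ] W₀) (hq : Function.Surjective q)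
    (hext : ExtV (LinearMap.ker π) (Tw ρ (LinearMap.ker q))
      (lev x (Tw ρ (LinearMap.ker q)) fun _ => 3)
      (lev x (Tw ρ (LinearMap.ker q)) fun _ => 2) (lev_anti fun _ => by norm_num))
    (p : M →ₗ[R] Tw ρ W₀ ⧸ lev x (Tw ρ W₀) fun _ => 3) :
    ∃ Ψ : M →ₗ[R] Tw ρ W ⧸ lev x (Tw ρ W) fun _ => 2, ∀ y,
      mapLev ρ hx (fun _ => 2) q (Ψ y) = Submodule.factor (lev_anti fun _ => by norm_num)
        (p y) := by
  obtain ⟨H₀, hH₀⟩ := Module.projective_lifting_property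
      (mapLev ρ hx (fun _ => 3) q) (p ∘ₗ π) (mapLev_surjective hx _ hq)
  have hH₀' : ∀ v, mapLev ρ hx (fun _ => 3) q (H₀ v) = p (π v) :=
      fun v => LinearMap.congr_fun hH₀ v
  have h32 : lev x (Tw ρ W) (fun _ => 3) ≤ lev x (Tw ρ W) (fun _ => 2) :=
      lev_anti fun _ => by norm_num
  obtain ⟨f, hf⟩ := exists_lift_of_injective (mapLev ρ hx (fun _ => 3) (LinearMap.ker q).subtype)
      (mapLev_injective hx _ (LinearMap.ker q).injective_subtype)
      (H₀ ∘ₗ (LinearMap.ker π).subtype) (by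
        intro ω
        apply mapLev_exact
        rw [LinearMap.comp_apply, hH₀', Submodule.subtype_apply, ω.2, map_zero])
  obtain ⟨H', hH'⟩ := hext f
  let G : (Fin m → R) →ₗ[R] Tw ρ W ⧸ lev x (Tw ρ W) fun _ => 2 :=
    Submodule.factor h32 ∘ₗ H₀ - mapLev ρ hx (fun _ => 2) (LinearMap.ker q).subtype ∘ₗ H'
  have hG' : ∀ v, G v = Submodule.factor h32 (H₀ v) -
      mapLev ρ hx (fun _ => 2) (LinearMap.ker q).subtype (H' v) := fun v => rfl
  have hG : LinearMap.ker π ≤ LinearMap.ker G := by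
    intro v hv
    rw [LinearMap.mem_ker, hG', sub_eq_zero]
    have h1 := hH' ⟨v, hv⟩
    have h2 := hf ⟨v, hv⟩
    rw [LinearMap.comp_apply, Submodule.subtype_apply] at h2
    have h1' : H' v = Submodule.factor (lev_anti fun _ => by norm_num) (f ⟨v, hv⟩) := h1
    rw [h1', mapLev_factor hx (lev_anti fun _ => by norm_num) h32, h2]
  obtain ⟨Ψ, hΨ⟩ : ∃ Ψ : M →ₗ[R] Tw ρ W ⧸ lev x (Tw ρ W) fun _ => 2, ∀ v, Ψ (π v) = G v := by
    refine ⟨(LinearMap.ker π).liftQ G hG ∘ₗ (π.quotKerEquivOfSurjective hπ).symm.toLinearMap,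
      fun v => ?_⟩
    have h3 : (π.quotKerEquivOfSurjective hπ).symm (π v) = Submodule.Quotient.mk v := by
      rw [LinearEquiv.symm_apply_eq]
      rfl
    rw [LinearMap.comp_apply, LinearEquiv.coe_coe, h3]
    rfl
  refine ⟨Ψ, fun y => ?_⟩
  obtain ⟨v, rfl⟩ := hπ y
  rw [hΨ, hG', map_sub, mapLev_factor hx h32 (lev_anti fun _ => by norm_num), hH₀',
    mapLev_subtype_ker, sub_zero]

end Claim

end Pool.Agent.Lib.MP_682396_ag
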